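import Pool.Agent.W_7d29a1_L2.DefsL29

/-!
The size of `HH`.
-/

namespace Pool.Agent.W_7d29a1_L2

lemma HH_succ94 (n : ℕ) :
    HH (n + 1) = HH n + ∑ i ∈ Finset.Icc 1 n, 1 / ((n : ℝ) + 1 - i) := by
  unfold HH
  rw [Finset.sum_Icc_succ_top (by omega)]
  have h1 : ∀ i ∈ Finset.Icc 1 n,
      (∑ j ∈ Finset.Icc 1 (n + 1), if i < j then 1 / ((j : ℝ) - i) else 0) =
        (∑ j ∈ Finset.Icc 1 n, if i < j then 1 / ((j : ℝ) - i) else 0) +
          1 / ((n : ℝ) + 1 - i) := by
    intro i hi
    rw [Finset.mem_Icc] at hi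
    rw [Finset.sum_Icc_succ_top (by omega), if_pos (by omega)]
    push_cast
    rfl
  have h2 : (∑ j ∈ Finset.Icc 1 (n + 1),
      if n + 1 < j then 1 / ((j : ℝ) - ((n + 1 : ℕ) : ℝ)) else 0) = 0 := by
    refine Finset.sum_eq_zero fun j hj => ?_
    rw [Finset.mem_Icc] at hj
    rw [if_neg (by omega)]
  rw [h2, add_zero, Finset.sum_congr rfl h1, Finset.sum_add_distrib]

lemma log_le94 (n : ℕ) : Real.log ((n : ℝ) + 1) ≤ ∑ i ∈ Finset.Icc 1 n, 1 / ((n : ℝ) + 1 - i) := by
  have h1 : ∑ i ∈ Finset.Icc 1 n, 1 / ((n : ℝ) + 1 - i) =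
      ∑ i ∈ Finset.range n, ((i : ℝ) + 1)⁻¹ := by
    rw [← Finset.sum_range_reflect, Finset.range_eq_Ico, Finset.sum_Ico_eq_sum_range]
    have h2 : Finset.Icc 1 n = Finset.Ico 1 (n + 1) := by
      ext j
      simp only [Finset.mem_Icc, Finset.mem_Ico]
      omega
    rw [h2, Finset.sum_Ico_eq_sum_range]
    refine Finset.sum_congr (by simp) fun j hj => ?_
    rw [Finset.mem_range] at hj
    have h3 : n - 1 - (0 + j) + (j + 1) = n := by omega
    have h4 : ((n - 1 - (0 + j) : ℕ) : ℝ) + (j + 1) = n := by exact_mod_cast h3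
    push_cast
    rw [one_div]
    congr 1
    linarith
  rw [h1]
  have h5 := log_add_one_le_harmonic n
  unfold harmonic at h5
  push_cast at h5
  exact h5

lemma HH_lower94 (n : ℕ) (hn : 1 ≤ n) : n * Real.log n - (n - 1) ≤ HH n := by
  induction n, hn using Nat.le_induction with
  | base =>
    simp [HH]
  | succ n hn ih =>
    have hn' : (0 : ℝ) < n := by exact_mod_cast hn
    rw [HH_succ94]
    have h1 := log_le94 n
    push_cast
    have h2 : Real.log ((n : ℝ) + 1) ≤ Real.log n + 1 / n := by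
      have h3 := Real.log_le_sub_one_of_pos (x := ((n : ℝ) + 1) / n) (by positivity)
      rw [Real.log_div (by positivity) hn'.ne'] at h3
      have h4 : ((n : ℝ) + 1) / n - 1 = 1 / n := by field_simp; ring
      linarith
    have h5 : (n : ℝ) * Real.log ((n : ℝ) + 1) ≤ n * Real.log n + 1 := by
      have h6 := mul_le_mul_of_nonneg_left h2 hn'.le
      have h7 : (n : ℝ) * (Real.log n + 1 / n) = n * Real.log n + 1 := by field_simp
      linarith
    nlinarith

/-- L4. -/
theorem numL94 : NumL := by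
  intro n hn
  have hn' : (2 : ℝ) ≤ n := by exact_mod_cast hn
  have h1 := HH_lower94 n (by omega)
  have h2 : 4 / 3 * ((n : ℝ) - 1) ≤ n * Real.log n := by
    rcases Nat.lt_or_ge n 4 with h | h
    · have h3 : n = 2 ∨ n = 3 := by omega
      rcases h3 with rfl | rfl
      · have := Real.log_two_gt_d9
        norm_num
        linarith
      · have h4 := Real.log_two_gt_d9
        have h5 : Real.log 2 ≤ Real.log 3 := Real.log_le_log (by norm_num) (by norm_num)
        have h6 : 3 * Real.log 3 = Real.log 27 := by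
          rw [show (27 : ℝ) = 3 ^ 3 by norm_num, Real.log_pow]
          norm_num
        have h7 : Real.log 16 = 4 * Real.log 2 := by
          rw [show (16 : ℝ) = 2 ^ 4 by norm_num, Real.log_pow]
          norm_num
        have h8 : Real.log 16 ≤ Real.log 27 := Real.log_le_log (by norm_num) (by norm_num)
        norm_num
        linarith
    · have h3 : (4 : ℝ) ≤ n := by exact_mod_cast h
      have h4 : Real.log 4 ≤ Real.log n := Real.log_le_log (by norm_num) h3
      have h5 : Real.log 4 = 2 * Real.log 2 := by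
        rw [show (4 : ℝ) = 2 ^ 2 by norm_num, Real.log_pow]
        norm_num
      have h6 := Real.log_two_gt_d9
      have h7 : 4 / 3 ≤ Real.log n := by linarith
      nlinarith
  linarith

end Pool.Agent.W_7d29a1_L2
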