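import Pool.Agent.W_7d29a1_L2.DefsL29

/-!
The second moment of the quadratic form, without and with the tilt along a walk.
-/

namespace Pool.Agent.W_7d29a1_L2

open MeasureTheory ProbabilityTheory Filter Topology Pool.Agent.W_MP_7d29a1_pr
  Pool.Agent.W_7d29a1_h46 Pool.Agent.W_7d29a1_h46u Pool.Agent.W_7d29a1_D2.B35
  Pool.Agent.W_7d29a1_Q29

lemma VV_nonneg21 (v : Vec 2) (C : ℝ) (p q : ℕ × Site 2) : 0 ≤ VV v C p q := by
  unfold VV
  split_ifs with h
  · have : (p.1 : ℝ) < q.1 := by exact_mod_cast h.1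
    exact div_nonneg zero_le_one (by linarith)
  · exact le_rfl

lemma VV_lt21 {v : Vec 2} {C : ℝ} {p q : ℕ × Site 2} (h : VV v C p q ≠ 0) : p.1 < q.1 := by
  unfold VV at h
  by_contra hc
  exact h (if_neg fun h' => hc h'.1)

open Classical in
/-- The indicator of the sites of the walk. -/
noncomputable def ch21 {n : ℕ} (x : Site 2) (s : Fin n → Step 2) (p : ℕ × Site 2) : ℝ :=
  if ∃ i ∈ Finset.Icc 1 n, p = (i, x + pos s i) then 1 else 0

open Classical in
lemma sum_ch21 {n : ℕ} (x : Site 2) (s : Fin n → Step 2) (I : Finset (ℕ × Site 2))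
    (F : ℕ × Site 2 → ℝ) :
    ∑ p ∈ I, F p * ch21 x s p =
      ∑ i ∈ Finset.Icc 1 n, if (i, x + pos s i) ∈ I then F (i, x + pos s i) else 0 := by
  have hg : Function.Injective fun i : ℕ => ((i, x + pos s i) : ℕ × Site 2) :=
    fun i j h => (Prod.ext_iff.1 h).1
  have h1 : (∑ i ∈ Finset.Icc 1 n, if (i, x + pos s i) ∈ I then F (i, x + pos s i) else 0) =
      ∑ p ∈ (Finset.Icc 1 n).image (fun i => ((i, x + pos s i) : ℕ × Site 2)),
        if p ∈ I then F p else 0 := by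
    rw [Finset.sum_image fun i _ j _ h => hg h]
  have h2 : ∀ p, F p * ch21 x s p =
      if p ∈ (Finset.Icc 1 n).image (fun i => ((i, x + pos s i) : ℕ × Site 2)) then F p else 0 := by
    intro p
    unfold ch21
    by_cases hp : ∃ i ∈ Finset.Icc 1 n, p = (i, x + pos s i)
    · rw [if_pos hp, mul_one, if_pos]
      obtain ⟨i, hi, rfl⟩ := hp
      exact Finset.mem_image_of_mem _ hi
    · rw [if_neg hp, mul_zero, if_neg]
      intro h
      obtain ⟨i, hi, rfl⟩ := Finset.mem_image.1 h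
      exact hp ⟨i, hi, rfl⟩
  rw [h1, Finset.sum_congr rfl fun p _ => h2 p, ← Finset.sum_filter, ← Finset.sum_filter]
  refine Finset.sum_congr ?_ fun _ _ => rfl
  ext p
  simp only [Finset.mem_filter]
  exact and_comm

lemma YY_eq21 (a v : Vec 2) (R C : ℝ) {n : ℕ} (x : Site 2) (s : Fin n → Step 2) :
    YY a v R C x s = ∑ p ∈ WI a v R n, ∑ q ∈ WI a v R n,
      VV v C p q * (ch21 x s p * ch21 x s q) := by
  classical
  have h1 : ∑ p ∈ WI a v R n, ∑ q ∈ WI a v R n, VV v C p q * (ch21 x s p * ch21 x s q) =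
      ∑ p ∈ WI a v R n, (∑ q ∈ WI a v R n, VV v C p q * ch21 x s q) * ch21 x s p := by
    refine Finset.sum_congr rfl fun p _ => ?_
    rw [Finset.sum_mul]
    refine Finset.sum_congr rfl fun q _ => ?_
    ring
  rw [h1, sum_ch21 x s (WI a v R n) fun p => ∑ q ∈ WI a v R n, VV v C p q * ch21 x s q]
  unfold YY
  refine Finset.sum_congr rfl fun i _ => ?_
  by_cases hi : (i, x + pos s i) ∈ WI a v R n
  · rw [if_pos hi, sum_ch21 x s (WI a v R n) fun q => VV v C (i, x + pos s i) q]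
    refine Finset.sum_congr rfl fun j _ => ?_
    by_cases hj : (j, x + pos s j) ∈ WI a v R n
    · rw [if_pos ⟨hi, hj⟩, if_pos hj]
    · rw [if_neg fun h => hj h.2, if_neg hj]
  · rw [if_neg hi]
    exact Finset.sum_eq_zero fun j _ => if_neg fun h => hi h.1

/-- The quadratic form in independent square integrable variables. -/
lemma var21 {ρ : Measure ℝ} (hV : VarL) {P : Measure (Env 2)} [IsProbabilityMeasure P]
    (hI : iIndepFun (fun (p : ℕ × Site 2) (η : Env 2) => η p) P)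
    (hsq : ∀ p : ℕ × Site 2, Integrable (fun η : Env 2 => η p ^ 2) P)
    (m : ℕ × Site 2 → ℝ) {σ : ℝ} (hσ : 0 ≤ σ)
    (hm : ∀ p : ℕ × Site 2, ∫ η, (η p - ∫ t, t ∂ρ) ∂P = m p)
    (hs : ∀ p : ℕ × Site 2, ∫ η, (η p - ∫ t, t ∂ρ) ^ 2 ∂P ≤ σ)
    (I : Finset (ℕ × Site 2)) (v : Vec 2) (C : ℝ) :
    Integrable (fun η : Env 2 => (∑ p ∈ I, ∑ q ∈ I, VV v C p q *
      ((η p - ∫ t, t ∂ρ) * (η q - ∫ t, t ∂ρ) - m p * m q)) ^ 2) P ∧
    ∫ η, (∑ p ∈ I, ∑ q ∈ I, VV v C p q *
      ((η p - ∫ t, t ∂ρ) * (η q - ∫ t, t ∂ρ) - m p * m q)) ^ 2 ∂P ≤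
      3 * (σ * ∑ q ∈ I, (∑ p ∈ I, VV v C p q * m p) ^ 2 +
        σ * ∑ p ∈ I, (∑ q ∈ I, VV v C p q * m q) ^ 2 +
        σ ^ 2 * ∑ p ∈ I, ∑ q ∈ I, VV v C p q ^ 2) := by
  obtain ⟨c, hc⟩ : ∃ c : ℝ, c = ∫ t, t ∂ρ := ⟨_, rfl⟩
  rw [← hc] at hm hs ⊢
  have hXm : ∀ p : ℕ × Site 2, Measurable fun η : Env 2 => η p - c := fun p =>
    Measurable.sub_const (f := fun η : Env 2 => η p) (measurable_pi_apply p) c
  have hL : ∀ p : ℕ × Site 2, MemLp (fun η : Env 2 => η p - c) 2 P := by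
    intro p
    have h1 : MemLp (fun η : Env 2 => η p) 2 P :=
      (memLp_two_iff_integrable_sq (measurable_pi_apply p).aestronglyMeasurable).2 (hsq p)
    exact h1.sub (memLp_const c)
  have hX2 : ∀ p : ℕ × Site 2, Integrable (fun η : Env 2 => (η p - c) ^ 2) P := fun p =>
    (hL p).integrable_sq
  have hX1 : ∀ p : ℕ × Site 2, Integrable (fun η : Env 2 => η p - c) P := fun p =>
    (hL p).integrable one_le_two
  have hIX : iIndepFun (fun (p : ℕ × Site 2) (η : Env 2) => η p - c) P := by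
    have := hI.comp (fun _ t => t - c) fun _ => measurable_id.sub_const c
    exact this
  have hvar : ∀ p : ℕ × Site 2, ∫ η, (η p - c - m p) ^ 2 ∂P ≤ σ := by
    intro p
    have h1 : ∫ η, (η p - c - m p) ^ 2 ∂P = ∫ η, (η p - c) ^ 2 ∂P - m p ^ 2 := by
      have e : ∀ η : Env 2, (η p - c - m p) ^ 2 =
          (η p - c) ^ 2 - (2 * m p) * (η p - c) + m p ^ 2 := fun η => by ring
      have i0 : Integrable (fun η : Env 2 => (2 * m p) * (η p - c)) P := (hX1 p).const_mul _
      have i1 : Integrable (fun η : Env 2 => (η p - c) ^ 2 - (2 * m p) * (η p - c)) P :=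
        (hX2 p).sub i0
      simp only [e]
      rw [integral_add i1 (integrable_const _), integral_sub (hX2 p) i0, integral_const_mul, hm p]
      simp
      ring
    rw [h1]
    have := hs p
    nlinarith [sq_nonneg (m p)]
  refine ⟨?_, hV (Env 2) inferInstance P inferInstance (fun p η => η p - c) m σ I (VV v C) hσ hXm
    hIX hX2 hm hvar fun p q h => VV_lt21 h⟩
  have hterm : ∀ p q : ℕ × Site 2, MemLp (fun η : Env 2 => VV v C p q *
      ((η p - c) * (η q - c) - m p * m q)) 2 P := by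
    intro p q
    by_cases h0 : VV v C p q = 0
    · simp only [h0, zero_mul]
      exact memLp_const 0
    · have hpq : p ≠ q := by
        rintro rfl
        exact absurd (VV_lt21 h0) (lt_irrefl _)
      have hi : IndepFun (fun η : Env 2 => (η p - c) ^ 2) (fun η : Env 2 => (η q - c) ^ 2) P :=
        (hIX.indepFun hpq).comp (measurable_id.pow_const 2) (measurable_id.pow_const 2)
      have h2 : Integrable (fun η : Env 2 => ((η p - c) * (η q - c)) ^ 2) P := by
        have := hi.integrable_mul (hX2 p) (hX2 q)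
        refine this.congr (Filter.Eventually.of_forall fun η => ?_)
        show (η p - c) ^ 2 * (η q - c) ^ 2 = ((η p - c) * (η q - c)) ^ 2
        ring
      have h3 : MemLp (fun η : Env 2 => (η p - c) * (η q - c)) 2 P :=
        (memLp_two_iff_integrable_sq ((hXm p).mul (hXm q)).aestronglyMeasurable).2 h2
      exact (h3.sub (memLp_const (m p * m q))).const_mul (VV v C p q)
  exact (memLp_finset_sum _ fun p _ => memLp_finset_sum _ fun q _ => hterm p q).integrable_sq

/-- The sum of the kernel against the centred means of the planted walk, first variable. -/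
lemma left21 (a v : Vec 2) (R C m : ℝ) {n : ℕ} (x : Site 2) (s : Fin n → Step 2) :
    ∑ q ∈ WI a v R n, (∑ p ∈ WI a v R n, VV v C p q * (m * ch21 x s p)) ^ 2 ≤
      m ^ 2 * ∑ q ∈ WI a v R n, (∑ i ∈ Finset.Icc 1 n, VV v C (i, x + pos s i) q) ^ 2 := by
  classical
  rw [Finset.mul_sum]
  refine Finset.sum_le_sum fun q _ => ?_
  have h1 : ∑ p ∈ WI a v R n, VV v C p q * (m * ch21 x s p) =
      m * ∑ p ∈ WI a v R n, VV v C p q * ch21 x s p := by
    rw [Finset.mul_sum]
    exact Finset.sum_congr rfl fun p _ => by ring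
  rw [h1, mul_pow, sum_ch21 x s (WI a v R n) fun p => VV v C p q]
  refine mul_le_mul_of_nonneg_left (pow_le_pow_left₀ (Finset.sum_nonneg fun i _ => ?_)
    (Finset.sum_le_sum fun i _ => ?_) 2) (sq_nonneg m)
  · split_ifs
    · exact VV_nonneg21 _ _ _ _
    · exact le_rfl
  · split_ifs
    · exact le_rfl
    · exact VV_nonneg21 _ _ _ _

/-- The sum of the kernel against the centred means of the planted walk, second variable. -/
lemma right21 (a v : Vec 2) (R C m : ℝ) {n : ℕ} (x : Site 2) (s : Fin n → Step 2) :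
    ∑ p ∈ WI a v R n, (∑ q ∈ WI a v R n, VV v C p q * (m * ch21 x s q)) ^ 2 ≤
      m ^ 2 * ∑ p ∈ WI a v R n, (∑ j ∈ Finset.Icc 1 n, VV v C p (j, x + pos s j)) ^ 2 := by
  classical
  rw [Finset.mul_sum]
  refine Finset.sum_le_sum fun p _ => ?_
  have h1 : ∑ q ∈ WI a v R n, VV v C p q * (m * ch21 x s q) =
      m * ∑ q ∈ WI a v R n, VV v C p q * ch21 x s q := by
    rw [Finset.mul_sum]
    exact Finset.sum_congr rfl fun q _ => by ring
  rw [h1, mul_pow, sum_ch21 x s (WI a v R n) fun q => VV v C p q]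
  refine mul_le_mul_of_nonneg_left (pow_le_pow_left₀ (Finset.sum_nonneg fun i _ => ?_)
    (Finset.sum_le_sum fun i _ => ?_) 2) (sq_nonneg m)
  · split_ifs
    · exact VV_nonneg21 _ _ _ _
    · exact le_rfl
  · split_ifs
    · exact le_rfl
    · exact VV_nonneg21 _ _ _ _

/-- The planted law has the density `dn`. -/
lemma dens21 {ρ : Measure ℝ} [IsProbabilityMeasure ρ] {β : ℝ} {n : ℕ} {x : Site 2}
    {s : Fin n → Step 2} {P : Measure (Env 2)} [IsProbabilityMeasure P]
    (hP : ∀ F : Env 2 → ℝ, Measurable F →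
      ∫ η, F η ∂P = ∫ η, F η * dn ρ β x s η ∂(law 2 ρ))
    (hd0 : ∀ η, 0 ≤ dn ρ β x s η) (hdm : Measurable (dn ρ β x s)) {F : Env 2 → ℝ}
    (hF : Measurable F) (hFi : Integrable F P) :
    Integrable (fun η => F η * dn ρ β x s η) (law 2 ρ) := by
  have hdi : Integrable (dn ρ β x s) (law 2 ρ) := by
    by_contra hc
    have h1 := hP (fun _ => 1) measurable_const
    simp only [one_mul] at h1
    rw [integral_undef hc] at h1
    simp at h1
  have hPe : P = (law 2 ρ).withDensity fun η => ENNReal.ofReal (dn ρ β x s η) := by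
    refine Measure.ext fun A hA => ?_
    rw [withDensity_apply _ hA, ← ofReal_integral_eq_lintegral_ofReal hdi.integrableOn
      (Filter.Eventually.of_forall fun η => hd0 η)]
    have h1 := hP (A.indicator fun _ => 1) (measurable_const.indicator hA)
    have h2 : ∫ η, A.indicator (fun _ => (1 : ℝ)) η ∂P = P.real A := by
      rw [integral_indicator hA]
      simp
    have h3 : ∫ η, A.indicator (fun _ => (1 : ℝ)) η * dn ρ β x s η ∂(law 2 ρ) =
        ∫ η in A, dn ρ β x s η ∂(law 2 ρ) := by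
      rw [← integral_indicator hA]
      refine integral_congr_ae (Filter.Eventually.of_forall fun η => ?_)
      by_cases h : η ∈ A
      · simp [h]
      · simp [h]
    rw [h2, h3] at h1
    rw [← h1, Measure.real, ENNReal.ofReal_toReal (measure_ne_top _ _)]
  rw [hPe] at hFi
  have h4 := (integrable_withDensity_iff (hdm.ennreal_ofReal)
    (Filter.Eventually.of_forall fun η => ENNReal.ofReal_lt_top)).1 hFi
  refine h4.congr (Filter.Eventually.of_forall fun η => ?_)
  show F η * (ENNReal.ofReal (dn ρ β x s η)).toReal = _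
  rw [ENNReal.toReal_ofReal (hd0 η)]

lemma dn_nonneg21 (ρ : Measure ℝ) (β : ℝ) {n : ℕ} (x : Site 2) (s : Fin n → Step 2) (η : Env 2) :
    0 ≤ dn ρ β x s η := by
  unfold dn Mb
  exact div_nonneg (Real.exp_pos _).le (pow_nonneg (integral_nonneg fun t => (Real.exp_pos _).le) _)

lemma measurable_dn21 (ρ : Measure ℝ) (β : ℝ) {n : ℕ} (x : Site 2) (s : Fin n → Step 2) :
    Measurable (dn ρ β x s) := by
  unfold dn energy sh
  refine (Real.measurable_exp.comp (Measurable.const_mul ?_ β)).div_const _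
  exact Finset.measurable_sum _ fun i _ => measurable_pi_apply _

lemma measurable_QQ21 (ρ : Measure ℝ) (a v : Vec 2) (R C : ℝ) (n : ℕ) :
    Measurable (QQ2 ρ a v R C n) := by
  unfold QQ2
  refine Finset.measurable_sum _ fun p _ => Finset.measurable_sum _ fun q _ =>
    Measurable.const_mul (Measurable.mul ?_ ?_) _
  · exact Measurable.sub_const (f := fun η : Env 2 => η p) (measurable_pi_apply p) _
  · exact Measurable.sub_const (f := fun η : Env 2 => η q) (measurable_pi_apply q) _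

/-- The second moment of the quadratic form, without and with the tilt. -/
theorem secL21 {ρ : Measure ℝ} [IsProbabilityMeasure ρ] {β : ℝ} (hV : VarL) (hT : TiltL ρ β)
    (hS : SumL) : SecL ρ β := by
  intro R C hR hC
  obtain ⟨K, hK, hS1⟩ := hS R C hR hC
  obtain ⟨c, hc⟩ : ∃ c : ℝ, c = ∫ t, t ∂ρ := ⟨_, rfl⟩
  obtain ⟨s0, hs0⟩ : ∃ s0 : ℝ, s0 = ∫ t, (t - ∫ r, r ∂ρ) ^ 2 ∂ρ := ⟨_, rfl⟩
  obtain ⟨s1, hs1⟩ : ∃ s1 : ℝ, s1 = (∫ t, (t - ∫ r, r ∂ρ) ^ 2 * Real.exp (β * t) ∂ρ) / Mb ρ β :=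
    ⟨_, rfl⟩
  have hs00 : 0 ≤ s0 := by
    rw [hs0]
    exact integral_nonneg fun t => sq_nonneg _
  have hs10 : 0 ≤ s1 := by
    rw [hs1]
    exact div_nonneg (integral_nonneg fun t => mul_nonneg (sq_nonneg _) (Real.exp_pos _).le)
      (integral_nonneg fun t => (Real.exp_pos _).le)
  have hσ : 0 ≤ s0 + s1 := add_nonneg hs00 hs10
  have hm1 := sq_nonneg (m1 ρ β)
  refine ⟨3 * K * (2 * ((s0 + s1) * m1 ρ β ^ 2) + (s0 + s1) ^ 2) + 1, by positivity,
    fun a v n hn => ?_⟩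
  obtain ⟨hA, hB⟩ := hS1 a v n hn
  have hlog : 0 ≤ Real.log n := Real.log_nonneg (by exact_mod_cast hn)
  have hN : (0 : ℝ) ≤ (n : ℝ) ^ 2 := by positivity
  have hN1 : (n : ℝ) ^ 2 ≤ (n : ℝ) ^ 2 * (1 + Real.log n) := by nlinarith
  have hN2 : 0 ≤ (n : ℝ) ^ 2 * (1 + Real.log n) := hN.trans hN1
  -- the planted law along a walk
  have main : ∀ {k : ℕ} (x : Site 2) (s : Fin k → Step 2) (m : ℕ × Site 2 → ℝ),
      (∀ p : ℕ × Site 2, (∃ i ∈ Finset.Icc 1 k, p = (i, x + pos s i)) → m p = m1 ρ β) →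
      (∀ p : ℕ × Site 2, (¬ ∃ i ∈ Finset.Icc 1 k, p = (i, x + pos s i)) → m p = 0) →
      Integrable (fun η : Env 2 => (∑ p ∈ WI a v R n, ∑ q ∈ WI a v R n, VV v C p q *
        ((η p - ∫ t, t ∂ρ) * (η q - ∫ t, t ∂ρ) - m p * m q)) ^ 2 * dn ρ β x s η) (law 2 ρ) ∧
      ∫ η, (∑ p ∈ WI a v R n, ∑ q ∈ WI a v R n, VV v C p q *
        ((η p - ∫ t, t ∂ρ) * (η q - ∫ t, t ∂ρ) - m p * m q)) ^ 2 * dn ρ β x s η ∂(law 2 ρ) ≤
        3 * ((s0 + s1) * ∑ q ∈ WI a v R n, (∑ p ∈ WI a v R n, VV v C p q * m p) ^ 2 +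
        (s0 + s1) * ∑ p ∈ WI a v R n, (∑ q ∈ WI a v R n, VV v C p q * m q) ^ 2 +
        (s0 + s1) ^ 2 * ∑ p ∈ WI a v R n, ∑ q ∈ WI a v R n, VV v C p q ^ 2) := by
    intro k x s m hmon hmoff
    obtain ⟨P, hPp, hPF, hPi, hPsq, hPon, hPoff⟩ := hT k x s
    have h1 : ∀ p : ℕ × Site 2, ∫ η, (η p - ∫ t, t ∂ρ) ∂P = m p := by
      intro p
      by_cases hp : ∃ i ∈ Finset.Icc 1 k, p = (i, x + pos s i)
      · rw [hmon p hp]
        exact (hPon p hp).1
      · rw [hmoff p hp]
        exact (hPoff p hp).1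
    have h2 : ∀ p : ℕ × Site 2, ∫ η, (η p - ∫ t, t ∂ρ) ^ 2 ∂P ≤ s0 + s1 := by
      intro p
      by_cases hp : ∃ i ∈ Finset.Icc 1 k, p = (i, x + pos s i)
      · rw [(hPon p hp).2, ← hs1]
        linarith
      · rw [(hPoff p hp).2, ← hs0]
        linarith
    obtain ⟨h3, h4⟩ := var21 hV hPi hPsq m hσ h1 h2 (WI a v R n) v C
    have hmeas : Measurable fun η : Env 2 => (∑ p ∈ WI a v R n, ∑ q ∈ WI a v R n, VV v C p q *
        ((η p - ∫ t, t ∂ρ) * (η q - ∫ t, t ∂ρ) - m p * m q)) ^ 2 := by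
      refine Measurable.pow_const (Finset.measurable_sum _ fun p _ =>
        Finset.measurable_sum _ fun q _ => Measurable.const_mul
          (Measurable.sub_const (Measurable.mul ?_ ?_) _) _) 2
      · exact Measurable.sub_const (f := fun η : Env 2 => η p) (measurable_pi_apply p) _
      · exact Measurable.sub_const (f := fun η : Env 2 => η q) (measurable_pi_apply q) _
    refine ⟨dens21 hPF (dn_nonneg21 ρ β x s) (measurable_dn21 ρ β x s) hmeas h3, ?_⟩
    rw [← hPF _ hmeas]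
    exact h4
  have e0 : ∀ η : Env 2, dn ρ β (0 : Site 2) (Fin.elim0 : Fin 0 → Step 2) η = 1 := by
    intro η
    unfold dn energy
    simp
  have hz := main (0 : Site 2) (Fin.elim0 : Fin 0 → Step 2) (fun _ => 0)
    (fun p hp => by
      obtain ⟨i, hi, -⟩ := hp
      simp at hi) (fun p _ => rfl)
  simp only [e0, mul_one, mul_zero, sub_zero, Finset.sum_const_zero, ne_eq, OfNat.ofNat_ne_zero,
    not_false_eq_true, zero_pow, zero_add] at hz
  refine ⟨hz.1, hz.2.trans ?_, fun x s => ?_⟩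
  · nlinarith [mul_le_mul_of_nonneg_left hA (sq_nonneg (s0 + s1)),
      mul_nonneg (mul_nonneg hK.le (mul_nonneg hσ hm1)) hN2]
  · have hq : ∀ η : Env 2, QQ2 ρ a v R C n η - m1 ρ β ^ 2 * YY a v R C x s =
        ∑ p ∈ WI a v R n, ∑ q ∈ WI a v R n, VV v C p q *
          ((η p - ∫ t, t ∂ρ) * (η q - ∫ t, t ∂ρ) -
            (m1 ρ β * ch21 x s p) * (m1 ρ β * ch21 x s q)) := by
      intro η
      rw [YY_eq21, Finset.mul_sum, QQ2, ← Finset.sum_sub_distrib]
      refine Finset.sum_congr rfl fun p _ => ?_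
      rw [Finset.mul_sum, ← Finset.sum_sub_distrib]
      refine Finset.sum_congr rfl fun q _ => ?_
      ring
    have hp := main x s (fun p => m1 ρ β * ch21 x s p)
      (fun p hp => by
        unfold ch21
        rw [if_pos hp, mul_one])
      (fun p hp => by
        unfold ch21
        rw [if_neg hp, mul_zero])
    simp only [hq]
    refine ⟨hp.1, hp.2.trans ?_⟩
    obtain ⟨hB1, hB2⟩ := hB fun i => x + pos s i
    have hC1 := (left21 a v R C (m1 ρ β) x s).trans (mul_le_mul_of_nonneg_left hB1 hm1)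
    have hC2 := (right21 a v R C (m1 ρ β) x s).trans (mul_le_mul_of_nonneg_left hB2 hm1)
    have hD1 := mul_le_mul_of_nonneg_left hC1 hσ
    have hD2 := mul_le_mul_of_nonneg_left hC2 hσ
    have hD3 := mul_le_mul_of_nonneg_left hA (sq_nonneg (s0 + s1))
    have hE := mul_le_mul_of_nonneg_left hN1 (mul_nonneg hK.le (mul_nonneg hσ hm1))
    nlinarith [hD1, hD2, hD3, hE, hN2]

end Pool.Agent.W_7d29a1_L2
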