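import Pool.Agent.W_7d29a1_L2.DefsL29

/-!
The sums of the kernel in two dimensions.
-/

namespace Pool.Agent.W_7d29a1_L2

open MeasureTheory ProbabilityTheory Filter Topology Pool.Agent.W_MP_7d29a1_pr
  Pool.Agent.W_7d29a1_h46 Pool.Agent.W_7d29a1_h46u Pool.Agent.W_7d29a1_D2.B35
  Pool.Agent.W_7d29a1_Q29

namespace S85

lemma sum_WI (a v : Vec 2) (R : ℝ) (n : ℕ) (F : ℕ × Site 2 → ℝ) :
    ∑ p ∈ WI a v R n, F p = ∑ i ∈ Finset.Icc 1 n,
      ∑ x ∈ bx (a + (i : ℝ) • v) (R * Real.sqrt n), F (i, x) := by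
  unfold WI
  rw [Finset.sum_biUnion]
  · refine Finset.sum_congr rfl fun i _ => ?_
    rw [Finset.sum_image]
    intro x _ y _ h
    exact (Prod.mk.inj h).2
  · intro i _ j _ hij
    rw [Function.onFun, Finset.disjoint_left]
    intro p hp hq
    rw [Finset.mem_image] at hp hq
    obtain ⟨x, _, rfl⟩ := hp
    obtain ⟨y, _, h⟩ := hq
    exact hij (Prod.mk.inj h).1.symm

lemma card_bx (c : Vec 2) {r : ℝ} (hr : 0 ≤ r) : ((bx c r).card : ℝ) ≤ (2 * r + 1) ^ 2 := by
  unfold bx
  rw [Fintype.card_piFinset, Fin.prod_univ_two, Nat.cast_mul, sq]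
  have h : ∀ j : Fin 2, ((Finset.Icc ⌈c j - r⌉ ⌊c j + r⌋).card : ℝ) ≤ 2 * r + 1 := by
    intro j
    rw [Int.card_Icc]
    by_cases h0 : 0 ≤ ⌊c j + r⌋ + 1 - ⌈c j - r⌉
    · have h1 : (((⌊c j + r⌋ + 1 - ⌈c j - r⌉).toNat : ℕ) : ℝ) =
          ((⌊c j + r⌋ + 1 - ⌈c j - r⌉ : ℤ) : ℝ) := by
        rw [← Int.cast_natCast, Int.toNat_of_nonneg h0]
      rw [h1]
      push_cast
      have h2 := Int.floor_le (c j + r)
      have h3 := Int.le_ceil (c j - r)
      linarith
    · rw [Int.toNat_of_nonpos (not_le.mp h0).le]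
      simp
      linarith
  exact mul_le_mul (h 0) (h 1) (Nat.cast_nonneg _) (by linarith)

lemma card_fil (c : Vec 2) {r : ℝ} (hr : 0 ≤ r) (Y : Finset (Site 2)) (Q : Site 2 → Prop)
    [DecidablePred Q] (hQ : ∀ y, Q y → ∀ j, |(y j : ℝ) - c j| ≤ r) :
    ((Y.filter Q).card : ℝ) ≤ (2 * r + 1) ^ 2 := by
  refine le_trans ?_ (card_bx c hr)
  refine Nat.cast_le.mpr (Finset.card_le_card ?_)
  intro y hy
  have h := hQ y (Finset.mem_filter.mp hy).2
  unfold bx
  rw [Fintype.mem_piFinset]
  intro j
  rw [Finset.mem_Icc]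
  have h1 := abs_le.mp (h j)
  exact ⟨Int.ceil_le.mpr (by linarith [h1.1]), Int.le_floor.mpr (by linarith [h1.2])⟩

lemma VV_nonneg (v : Vec 2) (C : ℝ) (p q : ℕ × Site 2) : 0 ≤ VV v C p q := by
  unfold VV
  split_ifs with h
  · have : (p.1 : ℝ) < q.1 := by exact_mod_cast h.1
    exact div_nonneg zero_le_one (by linarith)
  · exact le_rfl

lemma VV_zero (v : Vec 2) (C : ℝ) (p q : ℕ × Site 2) (h : ¬ p.1 < q.1) : VV v C p q = 0 := by
  unfold VV
  rw [if_neg (fun h' => h h'.1)]

lemma three (C k : ℝ) (hC : 1 ≤ C) (hk : 1 ≤ k) :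
    (2 * (C * Real.sqrt k) + 1) ^ 2 ≤ 9 * C ^ 2 * k := by
  have h1 : 1 ≤ Real.sqrt k := by rw [Real.one_le_sqrt]; exact hk
  have h2 : 1 ≤ C * Real.sqrt k := by nlinarith
  have h3 : (C * Real.sqrt k) ^ 2 = C ^ 2 * k := by
    rw [mul_pow, Real.sq_sqrt (by linarith)]
  nlinarith

/-- The sum over the second point. -/
lemma sum_y (v : Vec 2) {C : ℝ} (hC : 1 ≤ C) (Y : Finset (Site 2)) (i j : ℕ) (x : Site 2)
    (hij : i < j) :
    ∑ y ∈ Y, VV v C (i, x) (j, y) ^ 2 ≤ 9 * C ^ 2 / ((j : ℝ) - i) := by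
  classical
  have hk : (1 : ℝ) ≤ (j : ℝ) - i := by
    have : (i : ℝ) + 1 ≤ j := by exact_mod_cast hij
    linarith
  have h1 : ∀ y ∈ Y, VV v C (i, x) (j, y) ^ 2 =
      if (∀ l, |(y l : ℝ) - x l - ((j : ℝ) - i) * v l| ≤ C * Real.sqrt ((j : ℝ) - i)) then
        1 / ((j : ℝ) - i) ^ 2 else 0 := by
    intro y _
    unfold VV
    by_cases h : ∀ l, |(y l : ℝ) - x l - ((j : ℝ) - i) * v l| ≤ C * Real.sqrt ((j : ℝ) - i)
    · rw [if_pos ⟨hij, h⟩, if_pos h]
      simp only [one_div, inv_pow]
    · rw [if_neg (fun h' => h h'.2), if_neg h]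
      simp
  rw [Finset.sum_congr rfl h1, ← Finset.sum_filter, Finset.sum_const, nsmul_eq_mul]
  have h2 := card_fil (WithLp.toLp 2 (fun l => (x l : ℝ) + ((j : ℝ) - i) * v l))
    (r := C * Real.sqrt ((j : ℝ) - i)) (by positivity) Y
    (fun y => ∀ l, |(y l : ℝ) - x l - ((j : ℝ) - i) * v l| ≤ C * Real.sqrt ((j : ℝ) - i))
    (fun y hy l => by
      have := hy l
      rw [sub_sub] at this
      exact this)
  have h3 := three C ((j : ℝ) - i) hC hk
  calc _ ≤ (9 * C ^ 2 * ((j : ℝ) - i)) * (1 / ((j : ℝ) - i) ^ 2) :=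
        mul_le_mul_of_nonneg_right (h2.trans h3) (by positivity)
    _ = _ := by field_simp

/-- The sum over the first point. -/
lemma sum_x (v : Vec 2) {C : ℝ} (hC : 1 ≤ C) (Y : Finset (Site 2)) (i j : ℕ) (y : Site 2)
    (hij : i < j) :
    ∑ x ∈ Y, VV v C (i, x) (j, y) ^ 2 ≤ 9 * C ^ 2 / ((j : ℝ) - i) := by
  classical
  have hk : (1 : ℝ) ≤ (j : ℝ) - i := by
    have : (i : ℝ) + 1 ≤ j := by exact_mod_cast hij
    linarith
  have h1 : ∀ x ∈ Y, VV v C (i, x) (j, y) ^ 2 =
      if (∀ l, |(y l : ℝ) - x l - ((j : ℝ) - i) * v l| ≤ C * Real.sqrt ((j : ℝ) - i)) then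
        1 / ((j : ℝ) - i) ^ 2 else 0 := by
    intro x _
    unfold VV
    by_cases h : ∀ l, |(y l : ℝ) - x l - ((j : ℝ) - i) * v l| ≤ C * Real.sqrt ((j : ℝ) - i)
    · rw [if_pos ⟨hij, h⟩, if_pos h]
      simp only [one_div, inv_pow]
    · rw [if_neg (fun h' => h h'.2), if_neg h]
      simp
  rw [Finset.sum_congr rfl h1, ← Finset.sum_filter, Finset.sum_const, nsmul_eq_mul]
  have h2 := card_fil (WithLp.toLp 2 (fun l => (y l : ℝ) - ((j : ℝ) - i) * v l))
    (r := C * Real.sqrt ((j : ℝ) - i)) (by positivity) Y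
    (fun x => ∀ l, |(y l : ℝ) - x l - ((j : ℝ) - i) * v l| ≤ C * Real.sqrt ((j : ℝ) - i))
    (fun x hx l => by
      have := hx l
      show |(x l : ℝ) - ((y l : ℝ) - ((j : ℝ) - i) * v l)| ≤ _
      rw [abs_sub_comm]
      have e : (y l : ℝ) - ((j : ℝ) - i) * v l - x l = (y l : ℝ) - x l - ((j : ℝ) - i) * v l := by
        ring
      rw [e]
      exact this)
  have h3 := three C ((j : ℝ) - i) hC hk
  calc _ ≤ (9 * C ^ 2 * ((j : ℝ) - i)) * (1 / ((j : ℝ) - i) ^ 2) :=
        mul_le_mul_of_nonneg_right (h2.trans h3) (by positivity)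
    _ = _ := by field_simp

/-- The differences, the second time fixed. -/
lemma dif_fst (φ : ℝ → ℝ) (hφ : ∀ k, 0 ≤ φ k) (n j : ℕ) (hj : j ≤ n) :
    ∑ i ∈ Finset.Icc 1 n, (if i < j then φ ((j : ℝ) - i) else 0) ≤
      ∑ k ∈ Finset.Icc 1 n, φ (k : ℝ) := by
  rw [← Finset.sum_filter]
  have h1 : ∑ i ∈ (Finset.Icc 1 n).filter (· < j), φ ((j : ℝ) - i) =
      ∑ k ∈ ((Finset.Icc 1 n).filter (· < j)).image (fun i => j - i), φ (k : ℝ) := by
    rw [Finset.sum_image]
    · refine Finset.sum_congr rfl fun i hi => ?_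
      rw [Nat.cast_sub (Finset.mem_filter.mp hi).2.le]
    · intro x hx y hy h
      have hx' := (Finset.mem_filter.mp (Finset.mem_coe.mp hx)).2
      have hy' := (Finset.mem_filter.mp (Finset.mem_coe.mp hy)).2
      simp only at h
      omega
  rw [h1]
  refine Finset.sum_le_sum_of_subset_of_nonneg ?_ (fun k _ _ => hφ _)
  intro k hk
  obtain ⟨i, hi, rfl⟩ := Finset.mem_image.mp hk
  have h2 := Finset.mem_filter.mp hi
  have h3 := Finset.mem_Icc.mp h2.1
  rw [Finset.mem_Icc]
  omega

/-- The differences, the first time fixed. -/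
lemma dif_snd (φ : ℝ → ℝ) (hφ : ∀ k, 0 ≤ φ k) (n i : ℕ) :
    ∑ j ∈ Finset.Icc 1 n, (if i < j then φ ((j : ℝ) - i) else 0) ≤
      ∑ k ∈ Finset.Icc 1 n, φ (k : ℝ) := by
  rw [← Finset.sum_filter]
  have h1 : ∑ j ∈ (Finset.Icc 1 n).filter (i < ·), φ ((j : ℝ) - i) =
      ∑ k ∈ ((Finset.Icc 1 n).filter (i < ·)).image (fun j => j - i), φ (k : ℝ) := by
    rw [Finset.sum_image]
    · refine Finset.sum_congr rfl fun j hj => ?_
      rw [Nat.cast_sub (Finset.mem_filter.mp hj).2.le]
    · intro x hx y hy h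
      have hx' := (Finset.mem_filter.mp (Finset.mem_coe.mp hx)).2
      have hy' := (Finset.mem_filter.mp (Finset.mem_coe.mp hy)).2
      simp only at h
      omega
  rw [h1]
  refine Finset.sum_le_sum_of_subset_of_nonneg ?_ (fun k _ _ => hφ _)
  intro k hk
  obtain ⟨j, hj, rfl⟩ := Finset.mem_image.mp hk
  have h2 := Finset.mem_filter.mp hj
  have h3 := Finset.mem_Icc.mp h2.1
  rw [Finset.mem_Icc]
  omega

lemma harm (n : ℕ) (hn : 1 ≤ n) : ∑ k ∈ Finset.Icc 1 n, 1 / (k : ℝ) ≤ 1 + Real.log n := by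
  induction n, hn using Nat.le_induction with
  | base => simp
  | succ n hn ih =>
    rw [Finset.sum_Icc_succ_top (by omega)]
    have h0 : (0 : ℝ) < n := by exact_mod_cast hn
    have h1 : Real.log ((n : ℝ) / (n + 1)) ≤ (n : ℝ) / (n + 1) - 1 :=
      Real.log_le_sub_one_of_pos (by positivity)
    rw [Real.log_div (by positivity) (by positivity)] at h1
    have h2 : (n : ℝ) / (n + 1) - 1 = -(1 / ((n + 1 : ℕ) : ℝ)) := by
      push_cast
      field_simp
      ring
    rw [h2] at h1
    push_cast at h1 ⊢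
    linarith

lemma rt (n : ℕ) : ∑ k ∈ Finset.Icc 1 n, 1 / Real.sqrt (k : ℝ) ≤ 2 * Real.sqrt n := by
  induction n with
  | zero => simp
  | succ n ih =>
    rw [Finset.sum_Icc_succ_top (by omega)]
    have h0 : (0 : ℝ) ≤ n := Nat.cast_nonneg n
    have h1 : 0 < Real.sqrt ((n : ℝ) + 1) := Real.sqrt_pos.mpr (by linarith)
    have h2 : Real.sqrt ((n : ℝ) + 1) ^ 2 = n + 1 := Real.sq_sqrt (by linarith)
    have h3 : Real.sqrt (n : ℝ) ^ 2 = n := Real.sq_sqrt h0
    have h4 : 0 ≤ Real.sqrt (n : ℝ) := Real.sqrt_nonneg _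
    have h5 : 1 / Real.sqrt ((n : ℝ) + 1) ≤
        2 * (Real.sqrt ((n : ℝ) + 1) - Real.sqrt n) := by
      rw [div_le_iff₀ h1]
      nlinarith [sq_nonneg (Real.sqrt ((n : ℝ) + 1) - Real.sqrt n)]
    push_cast
    linarith

end S85

open S85 in
theorem sumL85 : SumL := by
  intro R C hR hC
  refine ⟨81 * R ^ 2 * C ^ 2, by positivity, fun a v n hn => ?_⟩
  have hn0 : (1 : ℝ) ≤ n := by exact_mod_cast hn
  have hK : (36 : ℝ) * C ^ 2 ≤ 81 * R ^ 2 * C ^ 2 := by
    have : (1 : ℝ) ≤ R ^ 2 := by nlinarith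
    have h2 : 0 ≤ C ^ 2 := sq_nonneg C
    nlinarith [mul_le_mul_of_nonneg_right this h2]
  refine ⟨?_, fun u => ⟨?_, ?_⟩⟩
  · -- the sum of the squares
    have hlog : 0 ≤ 1 + Real.log n := by
      have := Real.log_nonneg hn0
      linarith
    have h1 : ∀ p ∈ WI a v R n, ∑ q ∈ WI a v R n, VV v C p q ^ 2 ≤
        9 * C ^ 2 * (1 + Real.log n) := by
      intro p _
      rw [sum_WI]
      calc ∑ j ∈ Finset.Icc 1 n, ∑ y ∈ bx (a + (j : ℝ) • v) (R * Real.sqrt n),
            VV v C p (j, y) ^ 2
          ≤ ∑ j ∈ Finset.Icc 1 n, (if p.1 < j then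
              (fun k : ℝ => 9 * C ^ 2 * (1 / |k|)) ((j : ℝ) - p.1) else 0) := by
            refine Finset.sum_le_sum fun j _ => ?_
            split_ifs with hj
            · have h2 := sum_y v hC (bx (a + (j : ℝ) • v) (R * Real.sqrt n)) p.1 j p.2 hj
              have h3 : (0 : ℝ) < (j : ℝ) - p.1 := by
                have : (p.1 : ℝ) < j := by exact_mod_cast hj
                linarith
              show _ ≤ 9 * C ^ 2 * (1 / |(j : ℝ) - p.1|)
              rw [abs_of_pos h3, mul_one_div]
              exact h2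
            · refine (Finset.sum_eq_zero fun y _ => ?_).le
              rw [VV_zero v C p (j, y) hj]
              ring
        _ ≤ ∑ k ∈ Finset.Icc 1 n, (fun k : ℝ => 9 * C ^ 2 * (1 / |k|)) (k : ℝ) :=
            dif_snd (fun k : ℝ => 9 * C ^ 2 * (1 / |k|)) (fun k => by positivity) n p.1
        _ = 9 * C ^ 2 * ∑ k ∈ Finset.Icc 1 n, 1 / (k : ℝ) := by
            rw [Finset.mul_sum]
            refine Finset.sum_congr rfl fun k _ => ?_
            simp only [Nat.abs_cast]
        _ ≤ _ := mul_le_mul_of_nonneg_left (harm n hn) (by positivity)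
    have h4 : ((WI a v R n).card : ℝ) ≤ 9 * R ^ 2 * n ^ 2 := by
      have h5 : ((WI a v R n).card : ℝ) = ∑ p ∈ WI a v R n, (1 : ℝ) := by simp
      rw [h5, sum_WI]
      calc ∑ i ∈ Finset.Icc 1 n, ∑ _x ∈ bx (a + (i : ℝ) • v) (R * Real.sqrt n), (1 : ℝ)
          ≤ ∑ _i ∈ Finset.Icc 1 n, 9 * R ^ 2 * n := by
            refine Finset.sum_le_sum fun i _ => ?_
            rw [Finset.sum_const, nsmul_eq_mul, mul_one]
            exact (card_bx _ (by positivity)).trans (three R n hR hn0)
        _ = _ := by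
            rw [Finset.sum_const, Nat.card_Icc, nsmul_eq_mul]
            simp only [Nat.add_sub_cancel]
            ring
    calc _ ≤ ∑ _p ∈ WI a v R n, 9 * C ^ 2 * (1 + Real.log n) := Finset.sum_le_sum h1
      _ = ((WI a v R n).card : ℝ) * (9 * C ^ 2 * (1 + Real.log n)) := by
          rw [Finset.sum_const, nsmul_eq_mul]
      _ ≤ (9 * R ^ 2 * n ^ 2) * (9 * C ^ 2 * (1 + Real.log n)) :=
          mul_le_mul_of_nonneg_right h4 (by positivity)
      _ = _ := by ring
  · -- the second point free
    rw [sum_WI]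
    calc ∑ j ∈ Finset.Icc 1 n, ∑ y ∈ bx (a + (j : ℝ) • v) (R * Real.sqrt n),
          (∑ i ∈ Finset.Icc 1 n, VV v C (i, u i) (j, y)) ^ 2
        ≤ ∑ _j ∈ Finset.Icc 1 n, 36 * C ^ 2 * n := by
          refine Finset.sum_le_sum fun j hj => ?_
          have hjn : j ≤ n := (Finset.mem_Icc.mp hj).2
          set A : ℝ := ∑ i ∈ Finset.Icc 1 n, (if i < j then
            (fun k : ℝ => 1 / Real.sqrt k) ((j : ℝ) - i) else 0) with hA
          have hA0 : 0 ≤ A := Finset.sum_nonneg fun i _ => by
            split_ifs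
            · positivity
            · exact le_rfl
          have hA1 : A ≤ 2 * Real.sqrt n :=
            (dif_fst (fun k : ℝ => 1 / Real.sqrt k) (fun k => by positivity) n j hjn).trans (rt n)
          have h1 : ∀ y ∈ bx (a + (j : ℝ) • v) (R * Real.sqrt n),
              (∑ i ∈ Finset.Icc 1 n, VV v C (i, u i) (j, y)) ^ 2 ≤
                A * ∑ i ∈ Finset.Icc 1 n, Real.sqrt ((j : ℝ) - i) *
                  VV v C (i, u i) (j, y) ^ 2 := by
            intro y _
            refine Finset.sum_sq_le_sum_mul_sum_of_sq_le_mul _ ?_ ?_ ?_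
            · intro i _
              split_ifs
              · positivity
              · exact le_rfl
            · intro i _
              positivity
            · intro i _
              split_ifs with hi
              · have h3 : (0 : ℝ) < (j : ℝ) - i := by
                  have : (i : ℝ) < j := by exact_mod_cast hi
                  linarith
                have h4 : 0 < Real.sqrt ((j : ℝ) - i) := Real.sqrt_pos.mpr h3
                refine le_of_eq ?_
                field_simp
              · rw [VV_zero v C (i, u i) (j, y) hi]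
                simp
          calc _ ≤ ∑ y ∈ bx (a + (j : ℝ) • v) (R * Real.sqrt n), A *
                ∑ i ∈ Finset.Icc 1 n, Real.sqrt ((j : ℝ) - i) * VV v C (i, u i) (j, y) ^ 2 :=
                Finset.sum_le_sum h1
            _ = A * ∑ i ∈ Finset.Icc 1 n, Real.sqrt ((j : ℝ) - i) *
                ∑ y ∈ bx (a + (j : ℝ) • v) (R * Real.sqrt n),
                  VV v C (i, u i) (j, y) ^ 2 := by
                rw [← Finset.mul_sum, Finset.sum_comm]
                congr 1
                refine Finset.sum_congr rfl fun i _ => ?_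
                rw [Finset.mul_sum]
            _ ≤ A * ∑ i ∈ Finset.Icc 1 n, 9 * C ^ 2 * (if i < j then
                (fun k : ℝ => 1 / Real.sqrt k) ((j : ℝ) - i) else 0) := by
                refine mul_le_mul_of_nonneg_left (Finset.sum_le_sum fun i _ => ?_) hA0
                split_ifs with hi
                · have h3 : (0 : ℝ) < (j : ℝ) - i := by
                    have : (i : ℝ) < j := by exact_mod_cast hi
                    linarith
                  have h4 : 0 < Real.sqrt ((j : ℝ) - i) := Real.sqrt_pos.mpr h3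
                  have h5 := sum_y v hC (bx (a + (j : ℝ) • v) (R * Real.sqrt n)) i j (u i) hi
                  calc _ ≤ Real.sqrt ((j : ℝ) - i) * (9 * C ^ 2 / ((j : ℝ) - i)) :=
                        mul_le_mul_of_nonneg_left h5 h4.le
                    _ = _ := by
                        have h6 : Real.sqrt ((j : ℝ) - i) ^ 2 = (j : ℝ) - i :=
                          Real.sq_sqrt h3.le
                        field_simp
                        exact h6
                · rw [mul_zero]
                  refine (mul_eq_zero_of_right _ (Finset.sum_eq_zero fun y _ => ?_)).le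
                  rw [VV_zero v C (i, u i) (j, y) hi]
                  ring
            _ = 9 * C ^ 2 * A ^ 2 := by
                rw [← Finset.mul_sum, ← hA]
                ring
            _ ≤ 9 * C ^ 2 * (2 * Real.sqrt n) ^ 2 :=
                mul_le_mul_of_nonneg_left (pow_le_pow_left₀ hA0 hA1 2) (by positivity)
            _ = 36 * C ^ 2 * n := by
                rw [mul_pow, Real.sq_sqrt (by linarith)]
                ring
      _ = 36 * C ^ 2 * n ^ 2 := by
          rw [Finset.sum_const, Nat.card_Icc, nsmul_eq_mul]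
          simp only [Nat.add_sub_cancel]
          ring
      _ ≤ _ := mul_le_mul_of_nonneg_right hK (by positivity)
  · -- the first point free
    rw [sum_WI]
    calc ∑ i ∈ Finset.Icc 1 n, ∑ x ∈ bx (a + (i : ℝ) • v) (R * Real.sqrt n),
          (∑ j ∈ Finset.Icc 1 n, VV v C (i, x) (j, u j)) ^ 2
        ≤ ∑ _j ∈ Finset.Icc 1 n, 36 * C ^ 2 * n := by
          refine Finset.sum_le_sum fun i _ => ?_
          set A : ℝ := ∑ j ∈ Finset.Icc 1 n, (if i < j then
            (fun k : ℝ => 1 / Real.sqrt k) ((j : ℝ) - i) else 0) with hA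
          have hA0 : 0 ≤ A := Finset.sum_nonneg fun i _ => by
            split_ifs
            · positivity
            · exact le_rfl
          have hA1 : A ≤ 2 * Real.sqrt n :=
            (dif_snd (fun k : ℝ => 1 / Real.sqrt k) (fun k => by positivity) n i).trans (rt n)
          have h1 : ∀ x ∈ bx (a + (i : ℝ) • v) (R * Real.sqrt n),
              (∑ j ∈ Finset.Icc 1 n, VV v C (i, x) (j, u j)) ^ 2 ≤
                A * ∑ j ∈ Finset.Icc 1 n, Real.sqrt ((j : ℝ) - i) *
                  VV v C (i, x) (j, u j) ^ 2 := by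
            intro x _
            refine Finset.sum_sq_le_sum_mul_sum_of_sq_le_mul _ ?_ ?_ ?_
            · intro j _
              split_ifs
              · positivity
              · exact le_rfl
            · intro j _
              positivity
            · intro j _
              split_ifs with hi
              · have h3 : (0 : ℝ) < (j : ℝ) - i := by
                  have : (i : ℝ) < j := by exact_mod_cast hi
                  linarith
                have h4 : 0 < Real.sqrt ((j : ℝ) - i) := Real.sqrt_pos.mpr h3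
                refine le_of_eq ?_
                field_simp
              · rw [VV_zero v C (i, x) (j, u j) hi]
                simp
          calc _ ≤ ∑ x ∈ bx (a + (i : ℝ) • v) (R * Real.sqrt n), A *
                ∑ j ∈ Finset.Icc 1 n, Real.sqrt ((j : ℝ) - i) * VV v C (i, x) (j, u j) ^ 2 :=
                Finset.sum_le_sum h1
            _ = A * ∑ j ∈ Finset.Icc 1 n, Real.sqrt ((j : ℝ) - i) *
                ∑ x ∈ bx (a + (i : ℝ) • v) (R * Real.sqrt n),
                  VV v C (i, x) (j, u j) ^ 2 := by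
                rw [← Finset.mul_sum, Finset.sum_comm]
                congr 1
                refine Finset.sum_congr rfl fun j _ => ?_
                rw [Finset.mul_sum]
            _ ≤ A * ∑ j ∈ Finset.Icc 1 n, 9 * C ^ 2 * (if i < j then
                (fun k : ℝ => 1 / Real.sqrt k) ((j : ℝ) - i) else 0) := by
                refine mul_le_mul_of_nonneg_left (Finset.sum_le_sum fun j _ => ?_) hA0
                split_ifs with hi
                · have h3 : (0 : ℝ) < (j : ℝ) - i := by
                    have : (i : ℝ) < j := by exact_mod_cast hi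
                    linarith
                  have h4 : 0 < Real.sqrt ((j : ℝ) - i) := Real.sqrt_pos.mpr h3
                  have h5 := sum_x v hC (bx (a + (i : ℝ) • v) (R * Real.sqrt n)) i j (u j) hi
                  calc _ ≤ Real.sqrt ((j : ℝ) - i) * (9 * C ^ 2 / ((j : ℝ) - i)) :=
                        mul_le_mul_of_nonneg_left h5 h4.le
                    _ = _ := by
                        have h6 : Real.sqrt ((j : ℝ) - i) ^ 2 = (j : ℝ) - i :=
                          Real.sq_sqrt h3.le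
                        field_simp
                        exact h6
                · rw [mul_zero]
                  refine (mul_eq_zero_of_right _ (Finset.sum_eq_zero fun x _ => ?_)).le
                  rw [VV_zero v C (i, x) (j, u j) hi]
                  ring
            _ = 9 * C ^ 2 * A ^ 2 := by
                rw [← Finset.mul_sum, ← hA]
                ring
            _ ≤ 9 * C ^ 2 * (2 * Real.sqrt n) ^ 2 :=
                mul_le_mul_of_nonneg_left (pow_le_pow_left₀ hA0 hA1 2) (by positivity)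
            _ = 36 * C ^ 2 * n := by
                rw [mul_pow, Real.sq_sqrt (by linarith)]
                ring
      _ = 36 * C ^ 2 * n ^ 2 := by
          rw [Finset.sum_const, Nat.card_Icc, nsmul_eq_mul]
          simp only [Nat.add_sub_cancel]
          ring
      _ ≤ _ := mul_le_mul_of_nonneg_right hK (by positivity)

end Pool.Agent.W_7d29a1_L2
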