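import Mathlib

/-!
Second moments of quadratic and linear forms of independent centred random variables.
-/

set_option autoImplicit false

namespace Pool.Agent.W_7d29a1_L2

open MeasureTheory ProbabilityTheory

variable {Ω ι : Type*} {mΩ : MeasurableSpace Ω} {μ : Measure Ω} {X : ι → Ω → ℝ}

lemma sqInt79 (hL : ∀ i, MemLp (X i) 2 μ) (i : ι) : Integrable (fun ω => X i ω ^ 2) μ :=
  (hL i).integrable_sq

lemma memMul79 (hX : iIndepFun X μ) (hm : ∀ i, Measurable (X i)) (hL : ∀ i, MemLp (X i) 2 μ)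
    {p q : ι} (hpq : p ≠ q) : MemLp (fun ω => X p ω * X q ω) 2 μ := by
  have hmm : Measurable fun ω => X p ω * X q ω := (hm p).mul (hm q)
  refine (memLp_two_iff_integrable_sq hmm.aestronglyMeasurable).2 ?_
  have h1 : IndepFun (fun ω => X p ω ^ 2) (fun ω => X q ω ^ 2) μ :=
    (hX.indepFun hpq).comp (measurable_id.pow_const 2) (measurable_id.pow_const 2)
  refine (h1.integrable_mul (sqInt79 hL p) (sqInt79 hL q)).congr
    (Filter.Eventually.of_forall fun ω => ?_)
  simp only [Pi.mul_apply]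
  ring

lemma int4_79 (hX : iIndepFun X μ) (hm : ∀ i, Measurable (X i)) (hL : ∀ i, MemLp (X i) 2 μ)
    {p q r s : ι} (hpq : p ≠ q) (hrs : r ≠ s) :
    Integrable (fun ω => (X p ω * X q ω) * (X r ω * X s ω)) μ :=
  (memMul79 hX hm hL hpq).integrable_mul (memMul79 hX hm hL hrs)

lemma zero4_79 [DecidableEq ι] (hX : iIndepFun X μ) (hm : ∀ i, Measurable (X i))
    (h0 : ∀ i, ∫ ω, X i ω ∂μ = 0) {p q r s : ι} (h1 : p ≠ q) (h2 : p ≠ r) (h3 : p ≠ s) :
    ∫ ω, (X p ω * X q ω) * (X r ω * X s ω) ∂μ = 0 := by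
  have hd : Disjoint ({p} : Finset ι) {q, r, s} := by
    rw [Finset.disjoint_left]
    intro a ha
    rw [Finset.mem_singleton] at ha
    subst ha
    simp only [Finset.mem_insert, Finset.mem_singleton, not_or]
    exact ⟨h1, h2, h3⟩
  have hI := hX.indepFun_finset {p} {q, r, s} hd hm
  have hI2 : IndepFun (fun ω => X p ω) (fun ω => X q ω * (X r ω * X s ω)) μ := by
    have hp : p ∈ ({p} : Finset ι) := by simp
    have hq : q ∈ ({q, r, s} : Finset ι) := by simp
    have hr : r ∈ ({q, r, s} : Finset ι) := by simp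
    have hs : s ∈ ({q, r, s} : Finset ι) := by simp
    exact hI.comp (φ := fun v : (∀ _ : ({p} : Finset ι), ℝ) => v ⟨p, hp⟩)
      (ψ := fun v : (∀ _ : ({q, r, s} : Finset ι), ℝ) => v ⟨q, hq⟩ * (v ⟨r, hr⟩ * v ⟨s, hs⟩))
      (measurable_pi_apply _)
      ((measurable_pi_apply _).mul ((measurable_pi_apply _).mul (measurable_pi_apply _)))
  have e : ∀ ω, (X p ω * X q ω) * (X r ω * X s ω) = X p ω * (X q ω * (X r ω * X s ω)) :=
    fun ω => by ring
  rw [integral_congr_ae (Filter.Eventually.of_forall e),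
    hI2.integral_fun_mul_eq_mul_integral (hm p).aestronglyMeasurable
      ((hm q).mul ((hm r).mul (hm s))).aestronglyMeasurable, h0 p, zero_mul]

lemma diag4_79 (hX : iIndepFun X μ) (hm : ∀ i, Measurable (X i)) {S : ℝ}
    (hS : ∀ i, ∫ ω, X i ω ^ 2 ∂μ ≤ S) {p q : ι} (hpq : p ≠ q) :
    ∫ ω, (X p ω * X q ω) * (X p ω * X q ω) ∂μ ≤ S ^ 2 := by
  have h1 : IndepFun (fun ω => X p ω ^ 2) (fun ω => X q ω ^ 2) μ :=
    (hX.indepFun hpq).comp (measurable_id.pow_const 2) (measurable_id.pow_const 2)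
  have e : ∀ ω, (X p ω * X q ω) * (X p ω * X q ω) = X p ω ^ 2 * X q ω ^ 2 := fun ω => by ring
  rw [integral_congr_ae (Filter.Eventually.of_forall e),
    h1.integral_fun_mul_eq_mul_integral ((hm p).pow_const 2).aestronglyMeasurable
      ((hm q).pow_const 2).aestronglyMeasurable, sq]
  have hp : 0 ≤ ∫ ω, X p ω ^ 2 ∂μ := integral_nonneg fun ω => sq_nonneg _
  have hq : 0 ≤ ∫ ω, X q ω ^ 2 ∂μ := integral_nonneg fun ω => sq_nonneg _
  exact mul_le_mul (hS p) (hS q) hq (hp.trans (hS p))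

/-- Second moment of a quadratic form. -/
theorem quad79 [DecidableEq ι] (hX : iIndepFun X μ) (hm : ∀ i, Measurable (X i))
    (hL : ∀ i, MemLp (X i) 2 μ) (h0 : ∀ i, ∫ ω, X i ω ∂μ = 0) {S : ℝ}
    (hS : ∀ i, ∫ ω, X i ω ^ 2 ∂μ ≤ S) (F : Finset (ι × ι)) (hF : ∀ a ∈ F, a.1 ≠ a.2)
    (hF2 : ∀ a ∈ F, (a.2, a.1) ∉ F) (K : ι × ι → ℝ) :
    Integrable (fun ω => (∑ a ∈ F, K a * (X a.1 ω * X a.2 ω)) ^ 2) μ ∧
      ∫ ω, (∑ a ∈ F, K a * (X a.1 ω * X a.2 ω)) ^ 2 ∂μ ≤ S ^ 2 * ∑ a ∈ F, K a ^ 2 := by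
  classical
  have e : ∀ ω, (∑ a ∈ F, K a * (X a.1 ω * X a.2 ω)) ^ 2 =
      ∑ a ∈ F, ∑ b ∈ F, K a * K b * ((X a.1 ω * X a.2 ω) * (X b.1 ω * X b.2 ω)) := by
    intro ω
    rw [sq, Finset.sum_mul_sum]
    refine Finset.sum_congr rfl fun a _ => Finset.sum_congr rfl fun b _ => ?_
    ring
  have hi : ∀ a ∈ F, ∀ b ∈ F, Integrable
      (fun ω => K a * K b * ((X a.1 ω * X a.2 ω) * (X b.1 ω * X b.2 ω))) μ :=
    fun a ha b hb => (int4_79 hX hm hL (hF a ha) (hF b hb)).const_mul _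
  have hI : Integrable (fun ω => ∑ a ∈ F, ∑ b ∈ F,
      K a * K b * ((X a.1 ω * X a.2 ω) * (X b.1 ω * X b.2 ω))) μ :=
    integrable_finsetSum _ fun a ha => integrable_finsetSum _ fun b hb => hi a ha b hb
  refine ⟨hI.congr (Filter.Eventually.of_forall fun ω => (e ω).symm), ?_⟩
  rw [integral_congr_ae (Filter.Eventually.of_forall e),
    integral_finsetSum _ fun a ha => integrable_finsetSum _ fun b hb => hi a ha b hb,
    Finset.mul_sum]
  refine Finset.sum_le_sum fun a ha => ?_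
  rw [integral_finsetSum _ fun b hb => hi a ha b hb, Finset.sum_eq_single a]
  · rw [integral_const_mul]
    have h1 := diag4_79 hX hm hS (hF a ha)
    calc K a * K a * ∫ ω, (X a.1 ω * X a.2 ω) * (X a.1 ω * X a.2 ω) ∂μ ≤ K a * K a * S ^ 2 :=
          mul_le_mul_of_nonneg_left h1 (mul_self_nonneg _)
      _ = S ^ 2 * K a ^ 2 := by ring
  · intro b hb hba
    rw [integral_const_mul]
    have hz : ∫ ω, (X a.1 ω * X a.2 ω) * (X b.1 ω * X b.2 ω) ∂μ = 0 := by
      by_cases h1 : a.1 = b.1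
      · by_cases h2 : a.2 = b.1
        · exact absurd (h1.trans h2.symm) (hF a ha)
        · by_cases h3 : a.2 = b.2
          · exact absurd (Prod.ext h1 h3).symm hba
          · rw [← zero4_79 hX hm h0 (p := a.2) (q := a.1) (r := b.1) (s := b.2)
              (hF a ha).symm h2 h3]
            refine integral_congr_ae (Filter.Eventually.of_forall fun ω => ?_)
            simp only
            ring
      · by_cases h4 : a.1 = b.2
        · by_cases h2 : a.2 = b.1
          · exfalso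
            apply hF2 a ha
            have : (a.2, a.1) = b := Prod.ext h2 h4
            rwa [this]
          · by_cases h3 : a.2 = b.2
            · exact absurd (h4.trans h3.symm) (hF a ha)
            · rw [← zero4_79 hX hm h0 (p := a.2) (q := a.1) (r := b.1) (s := b.2)
                (hF a ha).symm h2 h3]
              refine integral_congr_ae (Filter.Eventually.of_forall fun ω => ?_)
              simp only
              ring
        · exact zero4_79 hX hm h0 (hF a ha) h1 h4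
    rw [hz, mul_zero]
  · intro h
    exact absurd ha h

/-- Second moment of a linear form. -/
theorem lin79 [DecidableEq ι] (hX : iIndepFun X μ) (hm : ∀ i, Measurable (X i))
    (hL : ∀ i, MemLp (X i) 2 μ) (h0 : ∀ i, ∫ ω, X i ω ∂μ = 0) {S : ℝ}
    (hS : ∀ i, ∫ ω, X i ω ^ 2 ∂μ ≤ S) (A : Finset ι) (l : ι → ℝ) :
    Integrable (fun ω => (∑ i ∈ A, l i * X i ω) ^ 2) μ ∧
      ∫ ω, (∑ i ∈ A, l i * X i ω) ^ 2 ∂μ ≤ S * ∑ i ∈ A, l i ^ 2 := by
  classical
  have e : ∀ ω, (∑ i ∈ A, l i * X i ω) ^ 2 =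
      ∑ i ∈ A, ∑ j ∈ A, l i * l j * (X i ω * X j ω) := by
    intro ω
    rw [sq, Finset.sum_mul_sum]
    refine Finset.sum_congr rfl fun a _ => Finset.sum_congr rfl fun b _ => ?_
    ring
  have hi : ∀ i ∈ A, ∀ j ∈ A, Integrable (fun ω => l i * l j * (X i ω * X j ω)) μ :=
    fun i _ j _ => ((hL i).integrable_mul (hL j)).const_mul _
  have hI : Integrable (fun ω => ∑ i ∈ A, ∑ j ∈ A, l i * l j * (X i ω * X j ω)) μ :=
    integrable_finsetSum _ fun a ha => integrable_finsetSum _ fun b hb => hi a ha b hb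
  refine ⟨hI.congr (Filter.Eventually.of_forall fun ω => (e ω).symm), ?_⟩
  rw [integral_congr_ae (Filter.Eventually.of_forall e),
    integral_finsetSum _ fun a ha => integrable_finsetSum _ fun b hb => hi a ha b hb,
    Finset.mul_sum]
  refine Finset.sum_le_sum fun i hi' => ?_
  rw [integral_finsetSum _ fun j hj => hi i hi' j hj, Finset.sum_eq_single i]
  · rw [integral_const_mul]
    have h1 : ∫ ω, X i ω * X i ω ∂μ ≤ S := by
      refine le_trans (le_of_eq ?_) (hS i)
      exact integral_congr_ae (Filter.Eventually.of_forall fun ω => (sq (X i ω)).symm)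
    calc l i * l i * ∫ ω, X i ω * X i ω ∂μ ≤ l i * l i * S :=
          mul_le_mul_of_nonneg_left h1 (mul_self_nonneg _)
      _ = S * l i ^ 2 := by ring
  · intro j _ hj
    rw [integral_const_mul, (hX.indepFun hj.symm).integral_fun_mul_eq_mul_integral
      (hm i).aestronglyMeasurable (hm j).aestronglyMeasurable, h0 i, zero_mul, mul_zero]
  · intro h
    exact absurd hi' h

end Pool.Agent.W_7d29a1_L2
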