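import Pool.Agent.W_7d29a1_L2.DefsL29
import Pool.Agent.W_7d29a1_L2.Quad79

/-!
The variance of a quadratic form in independent variables which need not be centred.
-/

set_option autoImplicit false

namespace Pool.Agent.W_7d29a1_L2

open MeasureTheory ProbabilityTheory Filter Topology Pool.Agent.W_MP_7d29a1_pr
  Pool.Agent.W_7d29a1_h46 Pool.Agent.W_7d29a1_h46u Pool.Agent.W_7d29a1_D2.B35
  Pool.Agent.W_7d29a1_Q29

/-- The general form, with the integrability. -/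
theorem varG79 {Ω ι : Type*} [DecidableEq ι] {mΩ : MeasurableSpace Ω} {P : Measure Ω}
    [IsProbabilityMeasure P] (X : ι → Ω → ℝ) (m : ι → ℝ) (σ : ℝ) (I : Finset ι) (V : ι → ι → ℝ)
    (hm : ∀ p, Measurable (X p)) (hX : iIndepFun X P)
    (hI : ∀ p, Integrable (fun w => X p w ^ 2) P) (hmean : ∀ p, ∫ w, X p w ∂P = m p)
    (hσ : ∀ p, ∫ w, (X p w - m p) ^ 2 ∂P ≤ σ) (hV : ∀ p q, V p q ≠ 0 → p ≠ q)
    (hV2 : ∀ p q, V p q ≠ 0 → V q p = 0) :
    Integrable (fun w => (∑ p ∈ I, ∑ q ∈ I, V p q * (X p w * X q w - m p * m q)) ^ 2) P ∧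
    ∫ w, (∑ p ∈ I, ∑ q ∈ I, V p q * (X p w * X q w - m p * m q)) ^ 2 ∂P ≤
      3 * (σ * ∑ q ∈ I, (∑ p ∈ I, V p q * m p) ^ 2 + σ * ∑ p ∈ I, (∑ q ∈ I, V p q * m q) ^ 2 +
        σ ^ 2 * ∑ p ∈ I, ∑ q ∈ I, V p q ^ 2) := by
  classical
  set Y : ι → Ω → ℝ := fun p w => X p w - m p with hYd
  have hYm : ∀ p, Measurable (Y p) := fun p => (hm p).sub_const _
  have hY : iIndepFun Y P := hX.comp (fun p t => t - m p) fun p => measurable_id.sub_const _
  have hXL : ∀ p, MemLp (X p) 2 P := fun p =>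
    (memLp_two_iff_integrable_sq (hm p).aestronglyMeasurable).2 (hI p)
  have hYL : ∀ p, MemLp (Y p) 2 P := fun p => (hXL p).sub (memLp_const (m p))
  have hXi : ∀ p, Integrable (X p) P := fun p => (hXL p).integrable one_le_two
  have hY0 : ∀ p, ∫ w, Y p w ∂P = 0 := by
    intro p
    change ∫ w, (X p w - m p) ∂P = 0
    rw [integral_sub (hXi p) (integrable_const _), hmean p, integral_const]
    simp
  set F : Finset (ι × ι) := (I ×ˢ I).filter fun a => V a.1 a.2 ≠ 0 with hFd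
  have hF1 : ∀ a ∈ F, a.1 ≠ a.2 := fun a ha => hV _ _ (Finset.mem_filter.1 ha).2
  have hF2 : ∀ a ∈ F, (a.2, a.1) ∉ F := fun a ha hb =>
    (Finset.mem_filter.1 hb).2 (hV2 _ _ (Finset.mem_filter.1 ha).2)
  obtain ⟨q1, q2⟩ := quad79 hY hYm hYL hY0 hσ F hF1 hF2 fun a => V a.1 a.2
  obtain ⟨a1, a2⟩ := lin79 hY hYm hYL hY0 hσ I fun q => ∑ p ∈ I, V p q * m p
  obtain ⟨b1, b2⟩ := lin79 hY hYm hYL hY0 hσ I fun p => ∑ q ∈ I, V p q * m q
  have hsumF : ∀ w, ∑ a ∈ F, V a.1 a.2 * (Y a.1 w * Y a.2 w) =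
      ∑ p ∈ I, ∑ q ∈ I, V p q * (Y p w * Y q w) := by
    intro w
    rw [← Finset.sum_product', hFd]
    refine Finset.sum_filter_of_ne fun a _ ha => ?_
    intro hz
    exact ha (by rw [hz, zero_mul])
  have hsumV : ∑ a ∈ F, V a.1 a.2 ^ 2 = ∑ p ∈ I, ∑ q ∈ I, V p q ^ 2 := by
    rw [← Finset.sum_product' (f := fun p q => V p q ^ 2), hFd]
    refine Finset.sum_filter_of_ne fun a _ ha => ?_
    intro hz
    exact ha (by rw [hz]; ring)
  have hsplit : ∀ w, ∑ p ∈ I, ∑ q ∈ I, V p q * (X p w * X q w - m p * m q) =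
      ∑ q ∈ I, (∑ p ∈ I, V p q * m p) * Y q w + ∑ p ∈ I, (∑ q ∈ I, V p q * m q) * Y p w +
        ∑ a ∈ F, V a.1 a.2 * (Y a.1 w * Y a.2 w) := by
    intro w
    rw [hsumF w]
    have e1 : ∑ q ∈ I, (∑ p ∈ I, V p q * m p) * Y q w =
        ∑ p ∈ I, ∑ q ∈ I, V p q * m p * Y q w := by
      rw [Finset.sum_comm]
      exact Finset.sum_congr rfl fun q _ => Finset.sum_mul _ _ _
    have e2 : ∑ p ∈ I, (∑ q ∈ I, V p q * m q) * Y p w =
        ∑ p ∈ I, ∑ q ∈ I, V p q * m q * Y p w :=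
      Finset.sum_congr rfl fun p _ => Finset.sum_mul _ _ _
    rw [e1, e2, ← Finset.sum_add_distrib, ← Finset.sum_add_distrib]
    refine Finset.sum_congr rfl fun p _ => ?_
    rw [← Finset.sum_add_distrib, ← Finset.sum_add_distrib]
    refine Finset.sum_congr rfl fun q _ => ?_
    simp only [hYd]
    ring
  have h3 : ∀ x y z : ℝ, (x + y + z) ^ 2 ≤ 3 * (x ^ 2 + y ^ 2 + z ^ 2) := fun x y z => by
    nlinarith [sq_nonneg (x - y), sq_nonneg (y - z), sq_nonneg (x - z)]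
  have hdom : Integrable (fun w => 3 * ((∑ q ∈ I, (∑ p ∈ I, V p q * m p) * Y q w) ^ 2 +
      (∑ p ∈ I, (∑ q ∈ I, V p q * m q) * Y p w) ^ 2 +
      (∑ a ∈ F, V a.1 a.2 * (Y a.1 w * Y a.2 w)) ^ 2)) P := ((a1.add b1).add q1).const_mul 3
  have hmeas : Measurable fun w =>
      (∑ p ∈ I, ∑ q ∈ I, V p q * (X p w * X q w - m p * m q)) ^ 2 := by
    refine (Finset.measurable_fun_sum _ fun p _ => Finset.measurable_fun_sum _ fun q _ => ?_).pow_const 2
    exact (((hm p).mul (hm q)).sub_const _).const_mul _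
  have hle : ∀ w, (∑ p ∈ I, ∑ q ∈ I, V p q * (X p w * X q w - m p * m q)) ^ 2 ≤
      3 * ((∑ q ∈ I, (∑ p ∈ I, V p q * m p) * Y q w) ^ 2 +
      (∑ p ∈ I, (∑ q ∈ I, V p q * m q) * Y p w) ^ 2 +
      (∑ a ∈ F, V a.1 a.2 * (Y a.1 w * Y a.2 w)) ^ 2) := fun w => by
    rw [hsplit w]
    exact h3 _ _ _
  have hint : Integrable (fun w =>
      (∑ p ∈ I, ∑ q ∈ I, V p q * (X p w * X q w - m p * m q)) ^ 2) P := by
    refine hdom.mono' hmeas.aestronglyMeasurable (Eventually.of_forall fun w => ?_)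
    rw [Real.norm_eq_abs, abs_of_nonneg (sq_nonneg _)]
    exact hle w
  refine ⟨hint, (integral_mono hint hdom hle).trans ?_⟩
  have hab : Integrable (fun w => (∑ q ∈ I, (∑ p ∈ I, V p q * m p) * Y q w) ^ 2 +
      (∑ p ∈ I, (∑ q ∈ I, V p q * m q) * Y p w) ^ 2) P := a1.add b1
  rw [integral_const_mul, integral_add hab q1, integral_add a1 b1]
  rw [hsumV] at q2
  linarith

theorem varL79 : VarL := by
  classical
  intro Ω _ P _ X m σ I V _ hm hX hI hmean hσ hV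
  refine (varG79 X m σ I V hm hX hI hmean hσ (fun p q h hpq => ?_) fun p q h => ?_).2
  · have := hV p q h
    rw [hpq] at this
    exact lt_irrefl _ this
  · by_contra h2
    exact lt_asymm (hV p q h) (hV q p h2)

end Pool.Agent.W_7d29a1_L2
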