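import Pool.Agent.W_7d29a1_L2.End65

/-!
The walk: the expected loss of the interaction sum outside the window and outside the kernel.
-/

namespace Pool.Agent.W_7d29a1_L2

open MeasureTheory ProbabilityTheory Filter Topology Pool.Agent.W_MP_7d29a1_pr
  Pool.Agent.W_7d29a1_h46 Pool.Agent.W_7d29a1_h46u Pool.Agent.W_7d29a1_D2.B35
  Pool.Agent.W_7d29a1_Q29

namespace K81

open E65

lemma sum_prod {n : ℕ} (f : Fin n → Step 2 → ℝ) :
    ∑ s : Fin n → Step 2, ∏ k, f k (s k) = ∏ k, ∑ e, f k e := by
  rw [Finset.prod_univ_sum, Fintype.piFinset_univ]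

/-- The centred coordinate of a step. -/
noncomputable def xi (h : Vec 2) (c : Fin 2) (e : Step 2) : ℝ := (vec e c : ℝ) - vm h c

lemma xi_mean (h : Vec 2) (c : Fin 2) : ∑ e, pe h e * xi h c e = 0 := by
  unfold xi
  simp only [mul_sub, Finset.sum_sub_distrib, ← Finset.sum_mul, pe_sum, one_mul]
  rw [← vm_apply, sub_self]

/-- The variance of a coordinate of a step. -/
noncomputable def va (h : Vec 2) (c : Fin 2) : ℝ := ∑ e, pe h e * xi h c e ^ 2

lemma va_nonneg (h : Vec 2) (c : Fin 2) : 0 ≤ va h c :=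
  Finset.sum_nonneg fun e _ => mul_nonneg (pe_pos h e).le (sq_nonneg _)

lemma vec_sq (e : Step 2) : ∑ c, (vec e c : ℝ) ^ 2 = 1 := by
  rcases e with ⟨j, b⟩
  fin_cases j <;> cases b <;> simp [vec, Fin.sum_univ_two]

lemma va_eq (h : Vec 2) (c : Fin 2) :
    va h c = ∑ e, pe h e * (vec e c : ℝ) ^ 2 - vm h c ^ 2 := by
  have h1 : va h c = ∑ e, pe h e * (vec e c : ℝ) ^ 2 - 2 * vm h c * ∑ e, pe h e * (vec e c : ℝ) +
      vm h c ^ 2 * ∑ e, pe h e := by
    unfold va xi
    rw [Finset.mul_sum, Finset.mul_sum, ← Finset.sum_sub_distrib, ← Finset.sum_add_distrib]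
    exact Finset.sum_congr rfl fun e _ => by ring
  rw [h1, pe_sum, ← vm_apply]
  ring

lemma va_sum (h : Vec 2) : ∑ c, va h c ≤ 1 := by
  have h1 : ∑ c, ∑ e, pe h e * (vec e c : ℝ) ^ 2 = 1 := by
    rw [Finset.sum_comm]
    simp only [← Finset.mul_sum, vec_sq, mul_one]
    exact pe_sum h
  calc ∑ c, va h c ≤ ∑ c, ∑ e, pe h e * (vec e c : ℝ) ^ 2 := by
        refine Finset.sum_le_sum fun c _ => ?_
        rw [va_eq]
        linarith [sq_nonneg (vm h c)]
    _ = 1 := h1

lemma cov (h : Vec 2) (c : Fin 2) {n : ℕ} (i j : Fin n) :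
    ∑ s : Fin n → Step 2, (∏ k, pe h (s k)) * (xi h c (s i) * xi h c (s j)) =
      if i = j then va h c else 0 := by
  classical
  by_cases hij : i = j
  · subst hij
    rw [if_pos rfl]
    have h1 : ∀ s : Fin n → Step 2, (∏ k, pe h (s k)) * (xi h c (s i) * xi h c (s i)) =
        ∏ k, (pe h (s k) * (if k = i then xi h c (s k) ^ 2 else 1)) := by
      intro s
      rw [Finset.prod_mul_distrib, Finset.prod_ite_eq' Finset.univ i fun k => xi h c (s k) ^ 2,
        if_pos (Finset.mem_univ _), sq]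
    simp only [h1]
    rw [sum_prod fun k e => pe h e * (if k = i then xi h c e ^ 2 else 1)]
    have h2 : ∀ k : Fin n, ∑ e, pe h e * (if k = i then xi h c e ^ 2 else 1) =
        if k = i then va h c else 1 := by
      intro k
      split_ifs
      · rfl
      · simp only [mul_one]
        exact pe_sum h
    simp only [h2]
    rw [Finset.prod_ite_eq' Finset.univ i fun _ => va h c, if_pos (Finset.mem_univ _)]
  · rw [if_neg hij]
    have h1 : ∀ s : Fin n → Step 2, (∏ k, pe h (s k)) * (xi h c (s i) * xi h c (s j)) =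
        ∏ k, (pe h (s k) * ((if k = i then xi h c (s k) else 1) *
          (if k = j then xi h c (s k) else 1))) := by
      intro s
      rw [Finset.prod_mul_distrib, Finset.prod_mul_distrib,
        Finset.prod_ite_eq' Finset.univ i fun k => xi h c (s k),
        Finset.prod_ite_eq' Finset.univ j fun k => xi h c (s k),
        if_pos (Finset.mem_univ _), if_pos (Finset.mem_univ _)]
    simp only [h1]
    rw [sum_prod fun k e => pe h e * ((if k = i then xi h c e else 1) *
      (if k = j then xi h c e else 1))]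
    refine Finset.prod_eq_zero (Finset.mem_univ i) ?_
    simp only [if_true, if_neg hij, mul_one]
    exact xi_mean h c

lemma lin2 (h : Vec 2) (c : Fin 2) {n : ℕ} (b : Fin n → ℝ) :
    ∑ s : Fin n → Step 2, (∏ k, pe h (s k)) * (∑ i, b i * xi h c (s i)) ^ 2 =
      (∑ i, b i ^ 2) * va h c := by
  classical
  have h1 : ∀ s : Fin n → Step 2, (∏ k, pe h (s k)) * (∑ i, b i * xi h c (s i)) ^ 2 =
      ∑ i, ∑ j, b i * b j * ((∏ k, pe h (s k)) * (xi h c (s i) * xi h c (s j))) := by
    intro s
    rw [sq, Finset.sum_mul_sum, Finset.mul_sum]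
    refine Finset.sum_congr rfl fun i _ => ?_
    rw [Finset.mul_sum]
    exact Finset.sum_congr rfl fun j _ => by ring
  simp only [h1]
  rw [Finset.sum_comm, Finset.sum_mul]
  refine Finset.sum_congr rfl fun i _ => ?_
  rw [Finset.sum_comm]
  simp only [← Finset.mul_sum, cov]
  rw [Finset.sum_eq_single i]
  · rw [if_pos rfl, sq]
  · intro j _ hj
    rw [if_neg (Ne.symm hj), mul_zero]
  · intro hi
    exact absurd (Finset.mem_univ i) hi

lemma pos_coord {n : ℕ} (s : Fin n → Step 2) (j : ℕ) (c : Fin 2) :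
    (pos s j c : ℝ) = ∑ k : Fin n, if (k : ℕ) < j then (vec (s k) c : ℝ) else 0 := by
  unfold pos
  rw [Finset.sum_apply]
  push_cast
  refine Finset.sum_congr rfl fun k _ => ?_
  split_ifs <;> simp

lemma cnt {n i j : ℕ} (hij : i ≤ j) (hj : j ≤ n) :
    ∑ k : Fin n, (if i ≤ (k : ℕ) ∧ (k : ℕ) < j then (1 : ℝ) else 0) = (j : ℝ) - i := by
  rw [Fin.sum_univ_eq_sum_range (fun k => if i ≤ k ∧ k < j then (1 : ℝ) else 0) n,
    Finset.sum_boole]
  have h1 : (Finset.range n).filter (fun k => i ≤ k ∧ k < j) = Finset.Ico i j := by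
    ext k
    simp only [Finset.mem_filter, Finset.mem_range, Finset.mem_Ico]
    constructor
    · exact fun h => h.2
    · exact fun h => ⟨by omega, h⟩
  rw [h1, Nat.card_Ico, Nat.cast_sub hij]

lemma disp (h : Vec 2) {n i j : ℕ} (s : Fin n → Step 2) (hij : i ≤ j) (hj : j ≤ n) (c : Fin 2) :
    (pos s j c : ℝ) - pos s i c - ((j : ℝ) - i) * vm h c =
      ∑ k : Fin n, (if i ≤ (k : ℕ) ∧ (k : ℕ) < j then (1 : ℝ) else 0) * xi h c (s k) := by
  rw [pos_coord, pos_coord, ← cnt hij hj, Finset.sum_mul, ← Finset.sum_sub_distrib,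
    ← Finset.sum_sub_distrib]
  refine Finset.sum_congr rfl fun k _ => ?_
  unfold xi
  by_cases h1 : (k : ℕ) < i
  · have h2 : (k : ℕ) < j := by omega
    have h3 : ¬ (i ≤ (k : ℕ) ∧ (k : ℕ) < j) := by omega
    rw [if_pos h1, if_pos h2, if_neg h3]
    ring
  · by_cases h2 : (k : ℕ) < j
    · have h3 : i ≤ (k : ℕ) ∧ (k : ℕ) < j := by omega
      rw [if_neg h1, if_pos h2, if_pos h3]
      ring
    · have h3 : ¬ (i ≤ (k : ℕ) ∧ (k : ℕ) < j) := by omega
      rw [if_neg h1, if_neg h2, if_neg h3]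
      ring

lemma disp2 (h : Vec 2) {n i j : ℕ} (hij : i ≤ j) (hj : j ≤ n) :
    ∑ s : Fin n → Step 2, pS h s * ∑ c, ((pos s j c : ℝ) - pos s i c -
      ((j : ℝ) - i) * vm h c) ^ 2 ≤ (j : ℝ) - i := by
  have h0 : (0 : ℝ) ≤ (j : ℝ) - i := by
    have : (i : ℝ) ≤ j := by exact_mod_cast hij
    linarith
  have h1 : ∑ s : Fin n → Step 2, pS h s * ∑ c, ((pos s j c : ℝ) - pos s i c -
      ((j : ℝ) - i) * vm h c) ^ 2 = ∑ c, ((j : ℝ) - i) * va h c := by
    simp only [Finset.mul_sum]
    rw [Finset.sum_comm]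
    refine Finset.sum_congr rfl fun c _ => ?_
    simp only [disp h _ hij hj c, pS_eq]
    rw [lin2]
    congr 1
    rw [← cnt hij hj]
    refine Finset.sum_congr rfl fun k _ => ?_
    split_ifs <;> simp
  rw [h1, ← Finset.mul_sum]
  nlinarith [va_sum h]

lemma pos_zero {n : ℕ} (s : Fin n → Step 2) : pos s 0 = 0 := by
  unfold pos
  simp

lemma one_le_div_sq {x t : ℝ} (ht : 0 < t) (h : t < |x|) : 1 ≤ x ^ 2 / t ^ 2 := by
  rw [le_div_iff₀ (by positivity), one_mul, ← sq_abs x]
  exact pow_le_pow_left₀ ht.le h.le 2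

end K81

open K81 E65 in
/-- L6. -/
theorem walk81 : WalkL := by
  classical
  intro h a R C n x hR hC hn hx
  have hn0 : (0 : ℝ) < n := by exact_mod_cast hn
  have hs0 : 0 < Real.sqrt n := Real.sqrt_pos.2 hn0
  have hR1 : 0 < R - 1 := by linarith
  have hC0 : 0 < C := by linarith
  have hpS : ∀ s : Fin n → Step 2, 0 ≤ pS h s := fun s => by
    rw [pS_eq]
    exact Finset.prod_nonneg fun i _ => (pe_pos h _).le
  obtain ⟨A, hA⟩ : ∃ A : (Fin n → Step 2) → ℕ → ℝ, A = fun s i =>
    (∑ c, ((pos s i c : ℝ) - i * vm h c) ^ 2) / ((R - 1) ^ 2 * n) := ⟨_, rfl⟩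
  obtain ⟨B, hB⟩ : ∃ B : (Fin n → Step 2) → ℕ → ℕ → ℝ, B = fun s i j =>
    (∑ c, ((pos s j c : ℝ) - pos s i c - ((j : ℝ) - i) * vm h c) ^ 2) /
      (C ^ 2 * ((j : ℝ) - i)) := ⟨_, rfl⟩
  have hA0 : ∀ s i, 0 ≤ A s i := fun s i => by
    rw [hA]
    positivity
  have hB0 : ∀ s i j, i < j → 0 ≤ B s i j := fun s i j hij => by
    rw [hB]
    have : (0 : ℝ) < (j : ℝ) - i := by
      have : (i : ℝ) < j := by exact_mod_cast hij
      linarith
    positivity
  have hAE : ∀ i ∈ Finset.Icc 1 n, ∑ s : Fin n → Step 2, pS h s * A s i ≤ 1 / (R - 1) ^ 2 := by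
    intro i hi
    rw [Finset.mem_Icc] at hi
    have h1 := disp2 h (Nat.zero_le i) hi.2
    have h2 : ∑ s : Fin n → Step 2, pS h s * A s i = (∑ s : Fin n → Step 2, pS h s *
        ∑ c, ((pos s i c : ℝ) - pos s 0 c - ((i : ℝ) - (0 : ℕ)) * vm h c) ^ 2) /
          ((R - 1) ^ 2 * n) := by
      rw [Finset.sum_div]
      refine Finset.sum_congr rfl fun s _ => ?_
      rw [hA]
      simp [pos_zero, mul_div_assoc]
    rw [h2, div_le_div_iff₀ (by positivity) (by positivity)]
    have h3 : (i : ℝ) ≤ n := by exact_mod_cast hi.2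
    have h4 : (0 : ℝ) < (R - 1) ^ 2 := by positivity
    push_cast at h1
    push_cast
    nlinarith [mul_le_mul_of_nonneg_right (h1.trans (show (i : ℝ) - 0 ≤ n by linarith)) h4.le]
  have hBE : ∀ i ∈ Finset.Icc 1 n, ∀ j ∈ Finset.Icc 1 n, i < j →
      ∑ s : Fin n → Step 2, pS h s * B s i j ≤ 1 / C ^ 2 := by
    intro i hi j hj hij
    rw [Finset.mem_Icc] at hi hj
    have h0 : (0 : ℝ) < (j : ℝ) - i := by
      have : (i : ℝ) < j := by exact_mod_cast hij
      linarith
    have h1 := disp2 h hij.le hj.2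
    have h2 : ∑ s : Fin n → Step 2, pS h s * B s i j = (∑ s : Fin n → Step 2, pS h s *
        ∑ c, ((pos s j c : ℝ) - pos s i c - ((j : ℝ) - i) * vm h c) ^ 2) /
          (C ^ 2 * ((j : ℝ) - i)) := by
      rw [Finset.sum_div]
      refine Finset.sum_congr rfl fun s _ => ?_
      rw [hB]
      simp only [mul_div_assoc]
    rw [h2, div_le_div_iff₀ (by positivity) (by positivity)]
    have h4 : (0 : ℝ) < C ^ 2 := by positivity
    nlinarith [mul_le_mul_of_nonneg_right h1 h4.le]
  have hin : ∀ s : Fin n → Step 2, ∀ i ∈ Finset.Icc 1 n, (i, x + pos s i) ∉ WI a (vm h) R n →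
      1 ≤ A s i := by
    intro s i hi hni
    have h1 : x + pos s i ∉ bx (a + (i : ℝ) • vm h) (R * Real.sqrt n) := by
      intro h2
      refine hni ?_
      unfold WI
      simp only [Finset.mem_biUnion, Finset.mem_image]
      exact ⟨i, hi, _, h2, rfl⟩
    unfold bx at h1
    rw [Fintype.mem_piFinset] at h1
    push Not at h1
    obtain ⟨c, hc⟩ := h1
    rw [Finset.mem_Icc, Int.ceil_le, Int.le_floor] at hc
    have hxc := hx c
    have h3 : (R - 1) * Real.sqrt n < |(pos s i c : ℝ) - i * vm h c| := by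
      by_contra h4
      rw [not_lt, abs_le] at h4
      refine hc ⟨?_, ?_⟩
      · simp only [PiLp.add_apply, PiLp.smul_apply, smul_eq_mul, Pi.add_apply]
        push_cast
        nlinarith [h4.1, hxc.1]
      · simp only [PiLp.add_apply, PiLp.smul_apply, smul_eq_mul, Pi.add_apply]
        push_cast
        nlinarith [h4.2, hxc.2]
    have h5 := one_le_div_sq (mul_pos hR1 hs0) h3
    rw [mul_pow, Real.sq_sqrt hn0.le] at h5
    rw [hA]
    refine h5.trans (div_le_div_of_nonneg_right ?_ (by positivity))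
    exact Finset.single_le_sum (f := fun c => ((pos s i c : ℝ) - i * vm h c) ^ 2)
      (fun c _ => sq_nonneg _) (Finset.mem_univ c)
  have key : ∀ s : Fin n → Step 2, HH n - YY a (vm h) R C x s ≤
      ∑ i ∈ Finset.Icc 1 n, ∑ j ∈ Finset.Icc 1 n,
        if i < j then 1 / ((j : ℝ) - i) * (A s i + A s j + B s i j) else 0 := by
    intro s
    unfold HH YY
    rw [← Finset.sum_sub_distrib]
    refine Finset.sum_le_sum fun i hi => ?_
    rw [← Finset.sum_sub_distrib]
    refine Finset.sum_le_sum fun j hj => ?_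
    by_cases hij : i < j
    · rw [if_pos hij, if_pos hij]
      have h0 : (0 : ℝ) < (j : ℝ) - i := by
        have : (i : ℝ) < j := by exact_mod_cast hij
        linarith
      have hp : 0 < 1 / ((j : ℝ) - i) := by positivity
      have hAi := hA0 s i
      have hAj := hA0 s j
      have hBij := hB0 s i j hij
      by_cases h1 : (i, x + pos s i) ∈ WI a (vm h) R n
      · by_cases h2 : (j, x + pos s j) ∈ WI a (vm h) R n
        · rw [if_pos ⟨h1, h2⟩]
          unfold VV
          by_cases h3 : ∀ c, |((x + pos s j) c : ℝ) - ((x + pos s i) c : ℝ) -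
              ((j : ℝ) - i) * vm h c| ≤ C * Real.sqrt ((j : ℝ) - i)
          · rw [if_pos ⟨hij, h3⟩, sub_self]
            positivity
          · rw [if_neg fun h4 => h3 h4.2, sub_zero]
            push Not at h3
            obtain ⟨c, hc⟩ := h3
            have h5 : C * Real.sqrt ((j : ℝ) - i) <
                |(pos s j c : ℝ) - pos s i c - ((j : ℝ) - i) * vm h c| := by
              refine hc.trans_eq ?_
              congr 1
              simp only [Pi.add_apply]
              push_cast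
              ring
            have h6 := one_le_div_sq (mul_pos hC0 (Real.sqrt_pos.2 h0)) h5
            rw [mul_pow, Real.sq_sqrt h0.le] at h6
            have h7 : 1 ≤ B s i j := by
              rw [hB]
              refine h6.trans (div_le_div_of_nonneg_right ?_ (by positivity))
              exact Finset.single_le_sum (f := fun c => ((pos s j c : ℝ) - pos s i c -
                ((j : ℝ) - i) * vm h c) ^ 2) (fun c _ => sq_nonneg _) (Finset.mem_univ c)
            exact le_mul_of_one_le_right hp.le (by linarith)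
        · rw [if_neg fun h4 => h2 h4.2, sub_zero]
          have h7 := hin s j hj h2
          exact le_mul_of_one_le_right hp.le (by linarith)
      · rw [if_neg fun h4 => h1 h4.1, sub_zero]
        have h7 := hin s i hi h1
        exact le_mul_of_one_le_right hp.le (by linarith)
    · rw [if_neg hij, if_neg hij]
      split_ifs with h1
      · unfold VV
        rw [if_neg fun h2 => hij h2.1, sub_zero]
      · rw [sub_zero]
  have hsum : ∑ s : Fin n → Step 2, pS h s * (HH n - YY a (vm h) R C x s) ≤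
      ∑ i ∈ Finset.Icc 1 n, ∑ j ∈ Finset.Icc 1 n, (2 / (R - 1) ^ 2 + 1 / C ^ 2) *
        (if i < j then 1 / ((j : ℝ) - i) else 0) := by
    refine (Finset.sum_le_sum fun s _ => mul_le_mul_of_nonneg_left (key s) (hpS s)).trans ?_
    simp only [Finset.mul_sum]
    rw [Finset.sum_comm]
    refine Finset.sum_le_sum fun i hi => ?_
    rw [Finset.sum_comm]
    refine Finset.sum_le_sum fun j hj => ?_
    by_cases hij : i < j
    · simp only [if_pos hij]
      have h0 : (0 : ℝ) < (j : ℝ) - i := by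
        have : (i : ℝ) < j := by exact_mod_cast hij
        linarith
      have hp : 0 < 1 / ((j : ℝ) - i) := by positivity
      have h1 : ∑ s : Fin n → Step 2, pS h s * (1 / ((j : ℝ) - i) * (A s i + A s j + B s i j)) =
          1 / ((j : ℝ) - i) * (∑ s : Fin n → Step 2, pS h s * A s i +
            ∑ s : Fin n → Step 2, pS h s * A s j + ∑ s : Fin n → Step 2, pS h s * B s i j) := by
        rw [← Finset.sum_add_distrib, ← Finset.sum_add_distrib, Finset.mul_sum]
        exact Finset.sum_congr rfl fun s _ => by ring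
      rw [h1, mul_comm _ (1 / ((j : ℝ) - i))]
      refine mul_le_mul_of_nonneg_left ?_ hp.le
      have h2 := hAE i hi
      have h3 := hAE j hj
      have h4 := hBE i hi j hj hij
      have h5 : 2 / (R - 1) ^ 2 = 1 / (R - 1) ^ 2 + 1 / (R - 1) ^ 2 := by ring
      linarith
    · simp only [if_neg hij, mul_zero, Finset.sum_const_zero]
      exact le_rfl
  refine hsum.trans ?_
  simp only [← Finset.mul_sum]
  have hH : 0 ≤ HH n := by
    unfold HH
    refine Finset.sum_nonneg fun i _ => Finset.sum_nonneg fun j _ => ?_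
    split_ifs with hij
    · have : (0 : ℝ) < (j : ℝ) - i := by
        have : (i : ℝ) < j := by exact_mod_cast hij
        linarith
      positivity
    · exact le_rfl
  refine mul_le_mul_of_nonneg_right ?_ hH
  have h1 : 2 / (R - 1) ^ 2 ≤ 4 / (R - 1) ^ 2 :=
    div_le_div_of_nonneg_right (by norm_num) (by positivity)
  have h2 : 1 / C ^ 2 ≤ 2 / C ^ 2 := div_le_div_of_nonneg_right (by norm_num) (by positivity)
  linarith

end Pool.Agent.W_7d29a1_L2
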