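import Pool.Agent.W_7d29a1_L2.Vsd94
import Pool.Agent.W_7d29a1_L2.Rec85
import Pool.Agent.W_7d29a1_L2.One27
import Pool.Agent.W_7d29a1_L2.Chg98
import Pool.Agent.W_7d29a1_L2.Num94
import Pool.Agent.W_7d29a1_L2.SecL21
import Pool.Agent.W_7d29a1_L2.Sum85
import Pool.Agent.W_7d29a1_L2.Tilt85
import Pool.Agent.W_7d29a1_L2.VarL79
import Pool.Agent.W_7d29a1_L2.Walk81

/-!
Very strong disorder at every tilt in two transversal dimensions, all leaves put together.
-/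

namespace Pool.Agent.W_7d29a1_L2

open MeasureTheory ProbabilityTheory Filter Topology Pool.Agent.W_MP_7d29a1_pr
  Pool.Agent.W_7d29a1_h46 Pool.Agent.W_7d29a1_h46u Pool.Agent.W_7d29a1_D2.B35
  Pool.Agent.W_7d29a1_Q29

/-- In two transversal dimensions very strong disorder holds at every tilt and every `0 < β`. -/
theorem vsd2 {ρ : Measure ℝ} [IsProbabilityMeasure ρ] (hρ : EM ρ) (hnc : ∀ c : ℝ, ρ {c} ≠ 1)
    {β : ℝ} (hβ : 0 < β) : Vsd2 ρ β :=
  vsd94 hρ (recL85 hρ (one27 hρ (chg98 hρ hnc hβ (tiltL85 hρ β)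
    (secL21 varL79 (tiltL85 hρ β) sumL85) walk81 numL94) end65))

end Pool.Agent.W_7d29a1_L2
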