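import Pool.Agent.W_7d29a1_Q29.Defs29

/-!
Very strong disorder in two transversal dimensions: definitions and frozen statements.
-/

namespace Pool.Agent.W_7d29a1_L2

open MeasureTheory ProbabilityTheory Filter Topology Pool.Agent.W_MP_7d29a1_pr
  Pool.Agent.W_7d29a1_h46 Pool.Agent.W_7d29a1_h46u Pool.Agent.W_7d29a1_D2.B35
  Pool.Agent.W_7d29a1_Q29

/-- The mean of `exp (β ω)`. -/
noncomputable def Mb (ρ : Measure ℝ) (β : ℝ) : ℝ := ∫ t, Real.exp (β * t) ∂ρ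

/-- The mean step of the walk with the tilt `h`. -/
noncomputable def vm (h : Vec 2) : Vec 2 :=
  ∑ e : Step 2, (Real.exp (inner ℝ h (emb (vec e))) / Phi h) • emb (vec e)

/-- The probability of the walk `s`. -/
noncomputable def pS (h : Vec 2) {n : ℕ} (s : Fin n → Step 2) : ℝ :=
  Real.exp (inner ℝ h (emb (pos s n))) / Phi h ^ n

/-- The density of the environment tilted along the walk `x + s`. -/
noncomputable def dn (ρ : Measure ℝ) (β : ℝ) {n : ℕ} (x : Site 2) (s : Fin n → Step 2)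
    (η : Env 2) : ℝ := Real.exp (β * energy (sh 0 x η) s) / Mb ρ β ^ n

open Classical in
/-- The normalised partition function of length `n` from `x` to the set `E`. -/
noncomputable def WE (ρ : Measure ℝ) (β : ℝ) (h : Vec 2) (n : ℕ) (x : Site 2) (E : Set (Site 2))
    (η : Env 2) : ℝ := ∑ s : Fin n → Step 2, if x + pos s n ∈ E then pS h s * dn ρ β x s η else 0

/-- The cell of side `√n` with lower corner `a`. -/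
def cell (n : ℕ) (a : Vec 2) : Set (Site 2) :=
  {x | ∀ j, a j ≤ (x j : ℝ) ∧ (x j : ℝ) < a j + Real.sqrt n}

/-- The lattice points of the square of half side `r` around `c`. -/
noncomputable def bx (c : Vec 2) (r : ℝ) : Finset (Site 2) :=
  Fintype.piFinset fun j => Finset.Icc ⌈c j - r⌉ ⌊c j + r⌋

/-- The window: rows `1, …, n`, the square of half side `R √n` around `a + i v`. -/
noncomputable def WI (a v : Vec 2) (R : ℝ) (n : ℕ) : Finset (ℕ × Site 2) :=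
  (Finset.Icc 1 n).biUnion fun i =>
    (bx (a + (i : ℝ) • v) (R * Real.sqrt n)).image fun x => (i, x)

open Classical in
/-- The kernel. -/
noncomputable def VV (v : Vec 2) (C : ℝ) (p q : ℕ × Site 2) : ℝ :=
  if p.1 < q.1 ∧ ∀ j, |(q.2 j : ℝ) - p.2 j - ((q.1 : ℝ) - p.1) * v j| ≤
    C * Real.sqrt ((q.1 : ℝ) - p.1) then 1 / ((q.1 : ℝ) - p.1) else 0

/-- The quadratic form. -/
noncomputable def QQ2 (ρ : Measure ℝ) (a v : Vec 2) (R C : ℝ) (n : ℕ) (η : Env 2) : ℝ :=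
  ∑ p ∈ WI a v R n, ∑ q ∈ WI a v R n, VV v C p q * ((η p - ∫ t, t ∂ρ) * (η q - ∫ t, t ∂ρ))

/-- The sum of `1 / (j - i)` over `1 ≤ i < j ≤ n`. -/
noncomputable def HH (n : ℕ) : ℝ :=
  ∑ i ∈ Finset.Icc 1 n, ∑ j ∈ Finset.Icc 1 n, if i < j then 1 / ((j : ℝ) - i) else 0

open Classical in
/-- The number of the sites of the walk which interact. -/
noncomputable def YY (a v : Vec 2) (R C : ℝ) {n : ℕ} (x : Site 2) (s : Fin n → Step 2) : ℝ :=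
  ∑ i ∈ Finset.Icc 1 n, ∑ j ∈ Finset.Icc 1 n,
    if (i, x + pos s i) ∈ WI a v R n ∧ (j, x + pos s j) ∈ WI a v R n then
      VV v C (i, x + pos s i) (j, x + pos s j) else 0

/-- The centred mean of the tilted law. -/
noncomputable def m1 (ρ : Measure ℝ) (β : ℝ) : ℝ :=
  (∫ t, (t - ∫ r, r ∂ρ) * Real.exp (β * t) ∂ρ) / Mb ρ β

/-- L1: the variance of a quadratic form in independent variables. -/
def VarL : Prop := ∀ (Ω : Type) (_ : MeasurableSpace Ω) (P : Measure Ω) (_ : IsProbabilityMeasure P)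
  (X : ℕ × Site 2 → Ω → ℝ) (m : ℕ × Site 2 → ℝ) (σ : ℝ) (I : Finset (ℕ × Site 2))
  (V : ℕ × Site 2 → ℕ × Site 2 → ℝ), 0 ≤ σ → (∀ p, Measurable (X p)) → iIndepFun X P →
  (∀ p, Integrable (fun w => X p w ^ 2) P) → (∀ p, ∫ w, X p w ∂P = m p) →
  (∀ p, ∫ w, (X p w - m p) ^ 2 ∂P ≤ σ) → (∀ p q, V p q ≠ 0 → p.1 < q.1) →
    ∫ w, (∑ p ∈ I, ∑ q ∈ I, V p q * (X p w * X q w - m p * m q)) ^ 2 ∂P ≤
      3 * (σ * ∑ q ∈ I, (∑ p ∈ I, V p q * m p) ^ 2 + σ * ∑ p ∈ I, (∑ q ∈ I, V p q * m q) ^ 2 +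
        σ ^ 2 * ∑ p ∈ I, ∑ q ∈ I, V p q ^ 2)

/-- L2: the environment under the density along a walk: independent sites. -/
def TiltL (ρ : Measure ℝ) (β : ℝ) : Prop := ∀ (n : ℕ) (x : Site 2) (s : Fin n → Step 2),
  ∃ P : Measure (Env 2), IsProbabilityMeasure P ∧
    (∀ F : Env 2 → ℝ, Measurable F → ∫ η, F η ∂P = ∫ η, F η * dn ρ β x s η ∂(law 2 ρ)) ∧
    iIndepFun (fun (p : ℕ × Site 2) (η : Env 2) => η p) P ∧
    (∀ p : ℕ × Site 2, Integrable (fun η : Env 2 => η p ^ 2) P) ∧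
    (∀ p : ℕ × Site 2, (∃ i ∈ Finset.Icc 1 n, p = (i, x + pos s i)) →
      ∫ η, (η p - ∫ t, t ∂ρ) ∂P = m1 ρ β ∧
      ∫ η, (η p - ∫ t, t ∂ρ) ^ 2 ∂P =
        (∫ t, (t - ∫ r, r ∂ρ) ^ 2 * Real.exp (β * t) ∂ρ) / Mb ρ β) ∧
    (∀ p : ℕ × Site 2, (¬ ∃ i ∈ Finset.Icc 1 n, p = (i, x + pos s i)) →
      ∫ η, (η p - ∫ t, t ∂ρ) ∂P = 0 ∧
      ∫ η, (η p - ∫ t, t ∂ρ) ^ 2 ∂P = ∫ t, (t - ∫ r, r ∂ρ) ^ 2 ∂ρ)

/-- L3: the sums of the kernel. -/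
def SumL : Prop := ∀ R C : ℝ, 1 ≤ R → 1 ≤ C → ∃ K : ℝ, 0 < K ∧ ∀ (a v : Vec 2) (n : ℕ), 1 ≤ n →
  ∑ p ∈ WI a v R n, ∑ q ∈ WI a v R n, VV v C p q ^ 2 ≤ K * n ^ 2 * (1 + Real.log n) ∧
  ∀ (u : ℕ → Site 2),
    ∑ q ∈ WI a v R n, (∑ i ∈ Finset.Icc 1 n, VV v C (i, u i) q) ^ 2 ≤ K * n ^ 2 ∧
    ∑ p ∈ WI a v R n, (∑ j ∈ Finset.Icc 1 n, VV v C p (j, u j)) ^ 2 ≤ K * n ^ 2

/-- L4: the size of `HH`. -/
def NumL : Prop := ∀ n : ℕ, 2 ≤ n → n * Real.log n / 4 ≤ HH n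

/-- L5: the second moment of the quadratic form, without and with the tilt. -/
def SecL (ρ : Measure ℝ) (β : ℝ) : Prop := ∀ R C : ℝ, 1 ≤ R → 1 ≤ C → ∃ K : ℝ, 0 < K ∧
  ∀ (a v : Vec 2) (n : ℕ), 1 ≤ n →
    Integrable (fun η => QQ2 ρ a v R C n η ^ 2) (law 2 ρ) ∧
    ∫ η, QQ2 ρ a v R C n η ^ 2 ∂(law 2 ρ) ≤ K * n ^ 2 * (1 + Real.log n) ∧
    ∀ (x : Site 2) (s : Fin n → Step 2),
      Integrable (fun η => (QQ2 ρ a v R C n η - m1 ρ β ^ 2 * YY a v R C x s) ^ 2 * dn ρ β x s η)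
        (law 2 ρ) ∧
      ∫ η, (QQ2 ρ a v R C n η - m1 ρ β ^ 2 * YY a v R C x s) ^ 2 * dn ρ β x s η ∂(law 2 ρ) ≤
        K * n ^ 2 * (1 + Real.log n)

/-- L6: the walk. -/
def WalkL : Prop := ∀ (h a : Vec 2) (R C : ℝ) (n : ℕ) (x : Site 2), 2 ≤ R → 1 ≤ C → 1 ≤ n →
  x ∈ cell n a → ∑ s : Fin n → Step 2, pS h s * (HH n - YY a (vm h) R C x s) ≤
    (4 / (R - 1) ^ 2 + 2 / C ^ 2) * HH n

/-- L7: the change of measure. -/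
def ChgL (ρ : Measure ℝ) (β : ℝ) : Prop := ∀ (h : Vec 2) (ε : ℝ), 0 < ε → ε ≤ 1 → ∃ n₀ : ℕ,
  ∀ n : ℕ, n₀ ≤ n → ∀ a : Vec 2, ∃ f : Env 2 → ℝ, Measurable f ∧
    (∀ η, ε ≤ f η ∧ f η ≤ 1) ∧ DependsOn f {p | 1 ≤ p.1 ∧ p.1 ≤ n} ∧
    ∫ η, (f η)⁻¹ ∂(law 2 ρ) ≤ 2 ∧
    ∀ x ∈ cell n a, ∫ η, WE ρ β h n x Set.univ η * f η ∂(law 2 ρ) ≤ 4 * ε

open Classical in
/-- L8: the end point of the walk. -/
def EndL : Prop := ∃ C₀ : ℝ, 0 < C₀ ∧ ∀ (h : Vec 2) (n : ℕ) (r : ℝ), 1 ≤ n → 0 ≤ r →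
  (∑ s : Fin n → Step 2, if ∃ j, r * Real.sqrt n ≤ |(pos s n j : ℝ) - n * vm h j|
    then pS h s else 0) ≤ C₀ * Real.exp (-r)

/-- L9: one block. -/
def OneL (ρ : Measure ℝ) (β : ℝ) : Prop := ∀ (h : Vec 2) (δ : ℝ), 0 < δ → ∃ n : ℕ, 1 ≤ n ∧
  ∀ (a : Vec 2) (S : Finset (Site 2)) (u : Site 2 → ℝ), (∀ x, 0 ≤ u x) → (∀ x ∈ S, x ∈ cell n a) →
    ∑ x ∈ S, u x ≤ 1 → ∀ T : Finset (Site 2),
      ∑ y ∈ T, ∫ η, Real.sqrt (∑ x ∈ S, u x * WE ρ β h n x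
        (cell n (a + (n : ℝ) • vm h + Real.sqrt n • emb y)) η) ∂(law 2 ρ) ≤ δ

/-- L10: many blocks. -/
def RecL (ρ : Measure ℝ) (β : ℝ) : Prop := ∀ (h : Vec 2) (δ : ℝ), 0 < δ → ∃ n : ℕ, 1 ≤ n ∧
  ∀ k : ℕ, ∫ η, Real.sqrt (Z β h η (k * n) / (Phi h * Mb ρ β) ^ (k * n)) ∂(law 2 ρ) ≤ δ ^ k

/-- L11: very strong disorder at every tilt. -/
def Vsd2 (ρ : Measure ℝ) (β : ℝ) : Prop := ∀ h : Vec 2, VSD ρ β h

end Pool.Agent.W_7d29a1_L2
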