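import Pool.Agent.W_7d29a1_L2.End65

/-!
The walk: the mean of the number of the missing pairs, by the second moments of the increments.
-/

namespace Pool.Agent.W_7d29a1_L2

open MeasureTheory ProbabilityTheory Filter Topology Pool.Agent.W_MP_7d29a1_pr
  Pool.Agent.W_7d29a1_h46 Pool.Agent.W_7d29a1_h46u Pool.Agent.W_7d29a1_D2.B35
  Pool.Agent.W_7d29a1_Q29

namespace K29

open E65

/-- The centred step. -/
noncomputable def gg (h : Vec 2) (c : Fin 2) (e : Step 2) : ℝ := (vec e c : ℝ) - vm h c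

lemma gg_mean (h : Vec 2) (c : Fin 2) : ∑ e, pe h e * gg h c e = 0 := by
  unfold gg
  have : ∑ e, pe h e * ((vec e c : ℝ) - vm h c) =
      ∑ e, pe h e * (vec e c : ℝ) - (∑ e, pe h e) * vm h c := by
    rw [Finset.sum_mul, ← Finset.sum_sub_distrib]
    exact Finset.sum_congr rfl fun e _ => by ring
  rw [this, pe_sum, ← vm_apply]
  ring

lemma gg_sq (h : Vec 2) (c : Fin 2) : ∑ e, pe h e * gg h c e ^ 2 ≤ 1 := by
  have h1 : ∑ e, pe h e * gg h c e ^ 2 =
      ∑ e, pe h e * (vec e c : ℝ) ^ 2 - vm h c ^ 2 := by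
    have h2 : ∀ e, pe h e * gg h c e ^ 2 =
        pe h e * (vec e c : ℝ) ^ 2 - 2 * vm h c * (pe h e * (vec e c : ℝ)) + vm h c ^ 2 * pe h e := by
      intro e
      unfold gg
      ring
    rw [Finset.sum_congr rfl fun e _ => h2 e, Finset.sum_add_distrib, Finset.sum_sub_distrib,
      ← Finset.mul_sum, ← Finset.mul_sum, pe_sum, ← vm_apply]
    ring
  have h3 : ∑ e, pe h e * (vec e c : ℝ) ^ 2 ≤ ∑ e, pe h e := by
    refine Finset.sum_le_sum fun e _ => ?_
    have := vec_abs e c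
    have h4 : (vec e c : ℝ) ^ 2 ≤ 1 := by
      rw [← sq_abs]
      nlinarith [abs_nonneg (vec e c : ℝ)]
    nlinarith [pe_pos h e]
  rw [pe_sum] at h3
  nlinarith [sq_nonneg (vm h c)]

lemma sum_prod {n : ℕ} (F : Fin n → Step 2 → ℝ) :
    ∑ s : Fin n → Step 2, ∏ i, F i (s i) = ∏ i, ∑ e, F i e := by
  rw [Finset.prod_univ_sum, Fintype.piFinset_univ]

lemma two (h : Vec 2) (c : Fin 2) {n : ℕ} (k l : Fin n) :
    ∑ s : Fin n → Step 2, pS h s * (gg h c (s k) * gg h c (s l)) =
      if k = l then ∑ e, pe h e * gg h c e ^ 2 else 0 := by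
  classical
  have h1 : ∀ s : Fin n → Step 2, pS h s * (gg h c (s k) * gg h c (s l)) =
      ∏ i, (pe h (s i) * ((if i = k then gg h c (s i) else 1) *
        (if i = l then gg h c (s i) else 1))) := by
    intro s
    rw [pS_eq, Finset.prod_mul_distrib, Finset.prod_mul_distrib, Finset.prod_ite_eq',
      Finset.prod_ite_eq', if_pos (Finset.mem_univ _), if_pos (Finset.mem_univ _)]
  simp only [h1]
  rw [sum_prod fun i e => pe h e * ((if i = k then gg h c e else 1) *
        (if i = l then gg h c e else 1))]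
  rcases eq_or_ne k l with hkl | hkl
  · subst hkl
    rw [if_pos rfl, Finset.prod_eq_single k]
    · refine Finset.sum_congr rfl fun e _ => ?_
      simp only [if_true]
      ring
    · intro i _ hi
      simp only [if_neg hi, mul_one]
      exact pe_sum h
    · intro hk
      exact absurd (Finset.mem_univ _) hk
  · rw [if_neg hkl]
    refine Finset.prod_eq_zero (Finset.mem_univ k) ?_
    simp only [if_true, if_neg hkl, mul_one]
    exact gg_mean h c

lemma sec (h : Vec 2) (c : Fin 2) {n : ℕ} (w : Fin n → ℝ) :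
    ∑ s : Fin n → Step 2, pS h s * (∑ k, w k * gg h c (s k)) ^ 2 ≤ ∑ k, w k ^ 2 := by
  classical
  have h1 : ∀ s : Fin n → Step 2, pS h s * (∑ k, w k * gg h c (s k)) ^ 2 =
      ∑ k, ∑ l, w k * w l * (pS h s * (gg h c (s k) * gg h c (s l))) := by
    intro s
    rw [sq, Finset.sum_mul_sum, Finset.mul_sum]
    refine Finset.sum_congr rfl fun k _ => ?_
    rw [Finset.mul_sum]
    exact Finset.sum_congr rfl fun l _ => by ring
  simp only [h1]
  rw [Finset.sum_comm]
  refine Finset.sum_le_sum fun k _ => ?_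
  rw [Finset.sum_comm]
  have h2 : ∀ l, ∑ s : Fin n → Step 2, w k * w l * (pS h s * (gg h c (s k) * gg h c (s l))) =
      if k = l then w k * w l * ∑ e, pe h e * gg h c e ^ 2 else 0 := by
    intro l
    rw [← Finset.mul_sum, two]
    split_ifs <;> simp
  simp only [h2]
  rw [Finset.sum_ite_eq, if_pos (Finset.mem_univ _)]
  have h3 := gg_sq h c
  nlinarith [mul_self_nonneg (w k)]

/-- The centred position. -/
noncomputable def TT (h : Vec 2) (c : Fin 2) {n : ℕ} (s : Fin n → Step 2) (i : ℕ) : ℝ :=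
  (pos s i c : ℝ) - i * vm h c

lemma card_lt {n i : ℕ} (hi : i ≤ n) :
    (∑ k : Fin n, (if (k : ℕ) < i then (1 : ℝ) else 0)) = i := by
  rw [Fin.sum_univ_eq_sum_range (fun k => if k < i then (1 : ℝ) else 0) n, Finset.sum_ite]
  simp only [Finset.sum_const_zero, add_zero, Finset.sum_const, nsmul_eq_mul, mul_one]
  congr 1
  have : (Finset.range n).filter (fun k => k < i) = Finset.range i := by
    ext k
    simp only [Finset.mem_filter, Finset.mem_range]
    omega
  rw [this, Finset.card_range]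

lemma TT_eq (h : Vec 2) (c : Fin 2) {n : ℕ} (s : Fin n → Step 2) {i : ℕ} (hi : i ≤ n) :
    TT h c s i = ∑ k : Fin n, (if (k : ℕ) < i then (1 : ℝ) else 0) * gg h c (s k) := by
  unfold TT gg pos
  have h1 : ((∑ k : Fin n, if (k : ℕ) < i then vec (s k) else 0 : Site 2) c : ℝ) =
      ∑ k : Fin n, (if (k : ℕ) < i then (1 : ℝ) else 0) * (vec (s k) c : ℝ) := by
    rw [Finset.sum_apply, Int.cast_sum]
    refine Finset.sum_congr rfl fun k _ => ?_
    split_ifs <;> simp
  rw [h1]
  simp only [mul_sub]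
  rw [Finset.sum_sub_distrib, ← Finset.sum_mul, card_lt hi]

lemma TT_sq (h : Vec 2) (c : Fin 2) {n i : ℕ} (hi : i ≤ n) :
    ∑ s : Fin n → Step 2, pS h s * TT h c s i ^ 2 ≤ i := by
  have h1 := sec h c fun k : Fin n => if (k : ℕ) < i then (1 : ℝ) else 0
  simp only [← TT_eq h c _ hi] at h1
  refine h1.trans (le_of_eq ?_)
  rw [← card_lt hi]
  refine Finset.sum_congr rfl fun k _ => ?_
  split_ifs <;> simp

lemma TT_dsq (h : Vec 2) (c : Fin 2) {n i j : ℕ} (hij : i ≤ j) (hj : j ≤ n) :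
    ∑ s : Fin n → Step 2, pS h s * (TT h c s j - TT h c s i) ^ 2 ≤ (j : ℝ) - i := by
  have h1 := sec h c fun k : Fin n => (if (k : ℕ) < j then (1 : ℝ) else 0) -
    if (k : ℕ) < i then (1 : ℝ) else 0
  have h2 : ∀ s : Fin n → Step 2, TT h c s j - TT h c s i =
      ∑ k : Fin n, ((if (k : ℕ) < j then (1 : ℝ) else 0) -
        if (k : ℕ) < i then (1 : ℝ) else 0) * gg h c (s k) := by
    intro s
    rw [TT_eq h c s hj, TT_eq h c s (hij.trans hj), ← Finset.sum_sub_distrib]
    exact Finset.sum_congr rfl fun k _ => by ring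
  simp only [← h2] at h1
  refine h1.trans (le_of_eq ?_)
  rw [← card_lt hj, ← card_lt (hij.trans hj), ← Finset.sum_sub_distrib]
  refine Finset.sum_congr rfl fun k _ => ?_
  by_cases ha : (k : ℕ) < i
  · have hb : (k : ℕ) < j := by omega
    simp [ha, hb]
  · simp only [ha, if_false, sub_zero]
    split_ifs <;> simp

lemma mem_WI {a v : Vec 2} {R : ℝ} {n i : ℕ} {y : Site 2} :
    (i, y) ∈ WI a v R n ↔ (1 ≤ i ∧ i ≤ n) ∧ ∀ c, (a c + i * v c) - R * Real.sqrt n ≤ y c ∧
      (y c : ℝ) ≤ (a c + i * v c) + R * Real.sqrt n := by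
  unfold WI bx
  simp only [Finset.mem_biUnion, Finset.mem_Icc, Finset.mem_image, Fintype.mem_piFinset,
    Prod.mk.injEq]
  constructor
  · rintro ⟨k, hk, z, hz, rfl, rfl⟩
    refine ⟨hk, fun c => ?_⟩
    have h1 := hz c
    rw [Int.ceil_le, Int.le_floor] at h1
    simpa using h1
  · rintro ⟨hk, hz⟩
    refine ⟨i, hk, y, fun c => ?_, rfl, rfl⟩
    rw [Int.ceil_le, Int.le_floor]
    simpa using hz c

lemma out_WI {h a : Vec 2} {R : ℝ} {n i : ℕ} {x : Site 2} (hR : 2 ≤ R) (hn : 1 ≤ n)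
    (hx : x ∈ cell n a) (hi : 1 ≤ i ∧ i ≤ n) {s : Fin n → Step 2}
    (hs : (i, x + pos s i) ∉ WI a (vm h) R n) :
    1 ≤ ∑ c, TT h c s i ^ 2 / ((R - 1) ^ 2 * n) := by
  have hn0 : (0 : ℝ) < n := by exact_mod_cast hn
  have hs0 : 0 < Real.sqrt n := Real.sqrt_pos.2 hn0
  have hss : Real.sqrt n * Real.sqrt n = n := Real.mul_self_sqrt hn0.le
  have h0 : ∀ c, 0 ≤ TT h c s i ^ 2 / ((R - 1) ^ 2 * n) := fun c => by positivity
  obtain ⟨c, hc⟩ : ∃ c, ¬ ((a c + i * vm h c) - R * Real.sqrt n ≤ (x + pos s i) c ∧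
      ((x + pos s i) c : ℝ) ≤ (a c + i * vm h c) + R * Real.sqrt n) := by
    by_contra hcon
    push Not at hcon
    exact hs (mem_WI.2 ⟨hi, fun c => ⟨(hcon c).1, (hcon c).2⟩⟩)
  refine le_trans ?_ (Finset.single_le_sum (fun c _ => h0 c) (Finset.mem_univ c))
  have hR1 : (0 : ℝ) < R - 1 := by linarith
  rw [le_div_iff₀ (by positivity), one_mul]
  have hxc := hx c
  have hab : (R - 1) * Real.sqrt n ≤ |TT h c s i| := by
    have hcast : ((x + pos s i) c : ℝ) = (x c : ℝ) + (pos s i c : ℝ) := by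
      simp
    rw [hcast] at hc
    unfold TT
    rw [not_and_or, not_le, not_le] at hc
    rcases hc with hc | hc
    · rw [abs_of_neg]
      · nlinarith [hxc.1, hxc.2]
      · nlinarith [hxc.1, hxc.2]
    · refine le_trans ?_ (le_abs_self _)
      nlinarith [hxc.1, hxc.2]
  have h2 : ((R - 1) * Real.sqrt n) ^ 2 ≤ |TT h c s i| ^ 2 :=
    pow_le_pow_left₀ (mul_nonneg (by linarith) hs0.le) hab 2
  rw [sq_abs] at h2
  calc (R - 1) ^ 2 * n = ((R - 1) * Real.sqrt n) ^ 2 := by rw [mul_pow, Real.sq_sqrt hn0.le]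
    _ ≤ _ := h2

/-- The summand of the bound. -/
noncomputable def BB (h : Vec 2) (R C : ℝ) {n : ℕ} (s : Fin n → Step 2) (i j : ℕ) : ℝ :=
  ∑ c, TT h c s i ^ 2 / ((R - 1) ^ 2 * n) + ∑ c, TT h c s j ^ 2 / ((R - 1) ^ 2 * n) +
    ∑ c, (TT h c s j - TT h c s i) ^ 2 / (C ^ 2 * ((j : ℝ) - i))

lemma BB_nonneg (h : Vec 2) (R C : ℝ) {n : ℕ} (s : Fin n → Step 2) {i j : ℕ} (hij : i < j) :
    0 ≤ BB h R C s i j := by
  have : (0 : ℝ) < (j : ℝ) - i := by
    have : (i : ℝ) < j := by exact_mod_cast hij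
    linarith
  unfold BB
  positivity

lemma BB_mean (h : Vec 2) {R C : ℝ} (hR : 2 ≤ R) (hC : 1 ≤ C) {n i j : ℕ} (hi : 1 ≤ i)
    (hij : i < j) (hj : j ≤ n) :
    ∑ s : Fin n → Step 2, pS h s * BB h R C s i j ≤ 4 / (R - 1) ^ 2 + 2 / C ^ 2 := by
  have hji : (0 : ℝ) < (j : ℝ) - i := by
    have : (i : ℝ) < j := by exact_mod_cast hij
    linarith
  have hn0 : (0 : ℝ) < n := by
    have : 0 < n := by omega
    exact_mod_cast this
  have hR1 : 0 < (R - 1) ^ 2 := by
    have : 0 < R - 1 := by linarith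
    positivity
  have hC1 : 0 < C ^ 2 := by positivity
  have e1 : ∀ (m : ℕ) , m ≤ n → ∑ s : Fin n → Step 2,
      pS h s * ∑ c, TT h c s m ^ 2 / ((R - 1) ^ 2 * n) ≤ 2 / (R - 1) ^ 2 := by
    intro m hm
    have h1 : ∑ s : Fin n → Step 2, pS h s * ∑ c, TT h c s m ^ 2 / ((R - 1) ^ 2 * n) =
        ∑ c, (∑ s : Fin n → Step 2, pS h s * TT h c s m ^ 2) / ((R - 1) ^ 2 * n) := by
      simp only [Finset.mul_sum, Finset.sum_div]
      rw [Finset.sum_comm]
      exact Finset.sum_congr rfl fun c _ => Finset.sum_congr rfl fun s _ => by ring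
    rw [h1]
    have h2 : ∀ c, (∑ s : Fin n → Step 2, pS h s * TT h c s m ^ 2) / ((R - 1) ^ 2 * n) ≤
        1 / (R - 1) ^ 2 := by
      intro c
      rw [div_le_div_iff₀ (by positivity) hR1]
      have h3 := TT_sq h c hm
      have h4 : (m : ℝ) ≤ n := by exact_mod_cast hm
      nlinarith
    calc _ ≤ ∑ _c : Fin 2, 1 / (R - 1) ^ 2 := Finset.sum_le_sum fun c _ => h2 c
      _ = 2 / (R - 1) ^ 2 := by
        rw [Finset.sum_const, Finset.card_univ, Fintype.card_fin]
        simp only [nsmul_eq_mul]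
        push_cast
        ring
  have e2 : ∑ s : Fin n → Step 2, pS h s *
      ∑ c, (TT h c s j - TT h c s i) ^ 2 / (C ^ 2 * ((j : ℝ) - i)) ≤ 2 / C ^ 2 := by
    have h1 : ∑ s : Fin n → Step 2, pS h s *
        ∑ c, (TT h c s j - TT h c s i) ^ 2 / (C ^ 2 * ((j : ℝ) - i)) =
        ∑ c, (∑ s : Fin n → Step 2, pS h s * (TT h c s j - TT h c s i) ^ 2) /
          (C ^ 2 * ((j : ℝ) - i)) := by
      simp only [Finset.mul_sum, Finset.sum_div]
      rw [Finset.sum_comm]
      exact Finset.sum_congr rfl fun c _ => Finset.sum_congr rfl fun s _ => by ring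
    rw [h1]
    have h2 : ∀ c, (∑ s : Fin n → Step 2, pS h s * (TT h c s j - TT h c s i) ^ 2) /
          (C ^ 2 * ((j : ℝ) - i)) ≤ 1 / C ^ 2 := by
      intro c
      rw [div_le_div_iff₀ (by positivity) hC1]
      have h3 := TT_dsq h c hij.le hj
      nlinarith
    calc _ ≤ ∑ _c : Fin 2, 1 / C ^ 2 := Finset.sum_le_sum fun c _ => h2 c
      _ = 2 / C ^ 2 := by
        rw [Finset.sum_const, Finset.card_univ, Fintype.card_fin]
        simp only [nsmul_eq_mul]
        push_cast
        ring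
  have h3 : ∑ s : Fin n → Step 2, pS h s * BB h R C s i j =
      (∑ s : Fin n → Step 2, pS h s * ∑ c, TT h c s i ^ 2 / ((R - 1) ^ 2 * n)) +
      (∑ s : Fin n → Step 2, pS h s * ∑ c, TT h c s j ^ 2 / ((R - 1) ^ 2 * n)) +
      ∑ s : Fin n → Step 2, pS h s *
        ∑ c, (TT h c s j - TT h c s i) ^ 2 / (C ^ 2 * ((j : ℝ) - i)) := by
    unfold BB
    simp only [mul_add, Finset.sum_add_distrib]
  rw [h3]
  have e3 := e1 i (by omega)
  have e4 := e1 j hj
  have e5 : 4 / (R - 1) ^ 2 = 2 / (R - 1) ^ 2 + 2 / (R - 1) ^ 2 := by ring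
  rw [e5]
  linarith

open Classical in
lemma pair_le {h a : Vec 2} {R C : ℝ} {n : ℕ} {x : Site 2} (hR : 2 ≤ R) (hC : 1 ≤ C) (hn : 1 ≤ n)
    (hx : x ∈ cell n a) (s : Fin n → Step 2) {i j : ℕ} (hi : 1 ≤ i ∧ i ≤ n)
    (hj : 1 ≤ j ∧ j ≤ n) :
    (if i < j then 1 / ((j : ℝ) - i) else 0) -
      (if (i, x + pos s i) ∈ WI a (vm h) R n ∧ (j, x + pos s j) ∈ WI a (vm h) R n then
        VV (vm h) C (i, x + pos s i) (j, x + pos s j) else 0) ≤
      if i < j then 1 / ((j : ℝ) - i) * BB h R C s i j else 0 := by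
  by_cases hij : i < j
  · have hji : (0 : ℝ) < (j : ℝ) - i := by
      have : (i : ℝ) < j := by exact_mod_cast hij
      linarith
    have h0 : 0 < 1 / ((j : ℝ) - i) := by positivity
    rw [if_pos hij, if_pos hij]
    have hnR : 0 ≤ ∑ c, TT h c s i ^ 2 / ((R - 1) ^ 2 * n) := by positivity
    have hnR' : 0 ≤ ∑ c, TT h c s j ^ 2 / ((R - 1) ^ 2 * n) := by positivity
    have hnC : 0 ≤ ∑ c, (TT h c s j - TT h c s i) ^ 2 / (C ^ 2 * ((j : ℝ) - i)) := by positivity
    have key : ∀ {y : ℝ}, 0 ≤ y → 1 ≤ BB h R C s i j →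
        1 / ((j : ℝ) - i) - y ≤ 1 / ((j : ℝ) - i) * BB h R C s i j := by
      intro y hy hB
      nlinarith
    by_cases h1 : (i, x + pos s i) ∈ WI a (vm h) R n
    · by_cases h2 : (j, x + pos s j) ∈ WI a (vm h) R n
      · rw [if_pos ⟨h1, h2⟩]
        unfold VV
        by_cases h3 : (i, x + pos s i).1 < (j, x + pos s j).1 ∧ ∀ c,
            |(((j, x + pos s j).2 c : ℤ) : ℝ) - ((i, x + pos s i).2 c : ℤ) -
              (((j, x + pos s j).1 : ℕ) - (((i, x + pos s i).1 : ℕ) : ℝ)) * vm h c| ≤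
              C * Real.sqrt ((((j, x + pos s j).1 : ℕ) : ℝ) - ((i, x + pos s i).1 : ℕ))
        · rw [if_pos h3]
          simp only [sub_self]
          exact mul_nonneg h0.le (BB_nonneg h R C s hij)
        · rw [if_neg h3]
          refine key le_rfl ?_
          have h4 : ∃ c, C * Real.sqrt ((j : ℝ) - i) < |TT h c s j - TT h c s i| := by
            by_contra hcon
            push Not at hcon
            refine h3 ⟨hij, fun c => ?_⟩
            refine le_trans (le_of_eq ?_) (hcon c)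
            congr 1
            unfold TT
            simp only [Pi.add_apply, Int.cast_add]
            ring
          obtain ⟨c, hc⟩ := h4
          have h5 : 1 ≤ (TT h c s j - TT h c s i) ^ 2 / (C ^ 2 * ((j : ℝ) - i)) := by
            rw [le_div_iff₀ (by positivity), one_mul]
            have h6 : (C * Real.sqrt ((j : ℝ) - i)) ^ 2 ≤ |TT h c s j - TT h c s i| ^ 2 :=
              pow_le_pow_left₀ (by positivity) hc.le 2
            rwa [sq_abs, mul_pow, Real.sq_sqrt hji.le] at h6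
          have h7 : (TT h c s j - TT h c s i) ^ 2 / (C ^ 2 * ((j : ℝ) - i)) ≤
              ∑ c, (TT h c s j - TT h c s i) ^ 2 / (C ^ 2 * ((j : ℝ) - i)) :=
            Finset.single_le_sum (f := fun c => (TT h c s j - TT h c s i) ^ 2 /
              (C ^ 2 * ((j : ℝ) - i))) (fun c _ => by positivity) (Finset.mem_univ c)
          unfold BB
          linarith
      · rw [if_neg fun hh => h2 hh.2]
        refine key le_rfl ?_
        have := out_WI hR hn hx hj h2
        unfold BB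
        linarith
    · rw [if_neg fun hh => h1 hh.1]
      refine key le_rfl ?_
      have := out_WI hR hn hx hi h1
      unfold BB
      linarith
  · rw [if_neg hij, if_neg hij]
    have : VV (vm h) C (i, x + pos s i) (j, x + pos s j) = 0 := by
      unfold VV
      exact if_neg fun hh => hij hh.1
    rw [this]
    simp

end K29

open K29 E65 in
/-- L6. -/
theorem walk29 : WalkL := by
  classical
  intro h a R C n x hR hC hn hx
  have hpS : ∀ s : Fin n → Step 2, 0 ≤ pS h s := by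
    intro s
    rw [pS_eq]
    exact Finset.prod_nonneg fun i _ => (pe_pos h _).le
  have h1 : ∀ s : Fin n → Step 2, HH n - YY a (vm h) R C x s ≤
      ∑ i ∈ Finset.Icc 1 n, ∑ j ∈ Finset.Icc 1 n,
        if i < j then 1 / ((j : ℝ) - i) * BB h R C s i j else 0 := by
    intro s
    unfold HH YY
    rw [← Finset.sum_sub_distrib]
    refine Finset.sum_le_sum fun i hi => ?_
    rw [← Finset.sum_sub_distrib]
    refine Finset.sum_le_sum fun j hj => ?_
    exact pair_le hR hC hn hx s (Finset.mem_Icc.1 hi) (Finset.mem_Icc.1 hj)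
  calc ∑ s : Fin n → Step 2, pS h s * (HH n - YY a (vm h) R C x s)
      ≤ ∑ s : Fin n → Step 2, pS h s * ∑ i ∈ Finset.Icc 1 n, ∑ j ∈ Finset.Icc 1 n,
        (if i < j then 1 / ((j : ℝ) - i) * BB h R C s i j else 0) :=
        Finset.sum_le_sum fun s _ => mul_le_mul_of_nonneg_left (h1 s) (hpS s)
    _ = ∑ i ∈ Finset.Icc 1 n, ∑ j ∈ Finset.Icc 1 n,
        if i < j then 1 / ((j : ℝ) - i) * ∑ s : Fin n → Step 2, pS h s * BB h R C s i j else 0 := by
        simp only [Finset.mul_sum]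
        rw [Finset.sum_comm]
        refine Finset.sum_congr rfl fun i _ => ?_
        rw [Finset.sum_comm]
        refine Finset.sum_congr rfl fun j _ => ?_
        split_ifs
        · exact Finset.sum_congr rfl fun s _ => by ring
        · simp
    _ ≤ ∑ i ∈ Finset.Icc 1 n, ∑ j ∈ Finset.Icc 1 n,
        (4 / (R - 1) ^ 2 + 2 / C ^ 2) * if i < j then 1 / ((j : ℝ) - i) else 0 := by
        refine Finset.sum_le_sum fun i hi => Finset.sum_le_sum fun j hj => ?_
        rw [Finset.mem_Icc] at hi hj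
        split_ifs with hij
        · have hji : (0 : ℝ) < (j : ℝ) - i := by
            have : (i : ℝ) < j := by exact_mod_cast hij
            linarith
          rw [mul_comm]
          exact mul_le_mul_of_nonneg_right (BB_mean h hR hC hi.1 hij hj.2) (by positivity)
        · simp
    _ = (4 / (R - 1) ^ 2 + 2 / C ^ 2) * HH n := by
        unfold HH
        rw [Finset.mul_sum]
        refine Finset.sum_congr rfl fun i _ => ?_
        rw [Finset.mul_sum]

end Pool.Agent.W_7d29a1_L2
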