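import Pool.Agent.W_7d29a1_L2.Tilt85

/-!
One block of the recursion: the cells near the drift by the change of measure, the far ones by the
tail of the walk.
-/

set_option autoImplicit false

namespace Pool.Agent.W_7d29a1_L2

open MeasureTheory ProbabilityTheory Filter Topology Pool.Agent.W_MP_7d29a1_pr
  Pool.Agent.W_7d29a1_h46 Pool.Agent.W_7d29a1_h46u Pool.Agent.W_7d29a1_D2.B35
  Pool.Agent.W_7d29a1_Q29

namespace N79

section abstract

variable {Ω : Type*} {mΩ : MeasurableSpace Ω} {μ : Measure Ω} [IsProbabilityMeasure μ]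

lemma sqrt_le_half {x c : ℝ} (hc : 0 < c) (hx : 0 ≤ x) : Real.sqrt x ≤ (x / c + c) / 2 := by
  rw [Real.sqrt_le_iff]
  have h0 : 0 ≤ x / c := div_nonneg hx hc.le
  refine ⟨by positivity, ?_⟩
  have e : x = x / c * c := by field_simp
  nlinarith [sq_nonneg (x / c - c)]

lemma int_sqrt_near {g f : Ω → ℝ} (hg0 : ∀ ω, 0 ≤ g ω) (hf0 : ∀ ω, 0 < f ω)
    (hgm : Measurable g) (hfm : Measurable f) (hfi : Integrable (fun ω => (f ω)⁻¹) μ)
    (hfg : Integrable (fun ω => g ω * f ω) μ) {b : ℝ} (hb : 0 < b)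
    (h1 : ∫ ω, (f ω)⁻¹ ∂μ ≤ 2) (h2 : ∫ ω, g ω * f ω ∂μ ≤ b) :
    ∫ ω, Real.sqrt (g ω) ∂μ ≤ Real.sqrt (2 * b) := by
  set c : ℝ := Real.sqrt (b / 2) with hc
  have hc0 : 0 < c := Real.sqrt_pos.2 (by positivity)
  have hcc : c * c = b / 2 := Real.mul_self_sqrt (by positivity)
  have hpt : ∀ ω, Real.sqrt (g ω) ≤ (c * (f ω)⁻¹ + g ω * f ω / c) / 2 := by
    intro ω
    have hf := hf0 ω
    have h3 : g ω / (c * (f ω)⁻¹) = g ω * f ω / c := by
      field_simp
    have h4 := sqrt_le_half (x := g ω) (c := c * (f ω)⁻¹) (by positivity) (hg0 ω)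
    rw [h3] at h4
    linarith
  have hdom : Integrable (fun ω => (c * (f ω)⁻¹ + g ω * f ω / c) / 2) μ :=
    ((hfi.const_mul c).add (hfg.div_const c)).div_const 2
  have hs : Integrable (fun ω => Real.sqrt (g ω)) μ := by
    refine hdom.mono' hgm.sqrt.aestronglyMeasurable (Eventually.of_forall fun ω => ?_)
    rw [Real.norm_eq_abs, abs_of_nonneg (Real.sqrt_nonneg _)]
    exact hpt ω
  have hI := integral_mono hs hdom hpt
  have e1 : ∫ ω, (c * (f ω)⁻¹ + g ω * f ω / c) / 2 ∂μ =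
      (c * ∫ ω, (f ω)⁻¹ ∂μ + (∫ ω, g ω * f ω ∂μ) / c) / 2 := by
    rw [integral_div, integral_add (hfi.const_mul c) (hfg.div_const c), integral_const_mul,
      integral_div]
  rw [e1] at hI
  have h5 : (∫ ω, g ω * f ω ∂μ) / c ≤ b / c := div_le_div_of_nonneg_right h2 hc0.le
  have h6 : b / c = 2 * c := by
    rw [div_eq_iff hc0.ne']
    linarith
  have h7 : Real.sqrt (2 * b) = 2 * c := by
    rw [show 2 * b = (2 * c) ^ 2 by nlinarith]
    exact Real.sqrt_sq (by positivity)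
  rw [h7]
  have h8 : c * ∫ ω, (f ω)⁻¹ ∂μ ≤ c * 2 := mul_le_mul_of_nonneg_left h1 hc0.le
  linarith

lemma int_sqrt_far {g : Ω → ℝ} (hg0 : ∀ ω, 0 ≤ g ω) (hgm : Measurable g) (hgi : Integrable g μ)
    {b : ℝ} (hb : 0 < b) (h2 : ∫ ω, g ω ∂μ ≤ b) : ∫ ω, Real.sqrt (g ω) ∂μ ≤ Real.sqrt b := by
  set c : ℝ := Real.sqrt b with hc
  have hc0 : 0 < c := Real.sqrt_pos.2 hb
  have hcc : c * c = b := Real.mul_self_sqrt hb.le
  have hpt : ∀ ω, Real.sqrt (g ω) ≤ (g ω / c + c) / 2 := fun ω => sqrt_le_half hc0 (hg0 ω)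
  have hdom : Integrable (fun ω => (g ω / c + c) / 2) μ :=
    ((hgi.div_const c).add (integrable_const c)).div_const 2
  have hs : Integrable (fun ω => Real.sqrt (g ω)) μ := by
    refine hdom.mono' hgm.sqrt.aestronglyMeasurable (Eventually.of_forall fun ω => ?_)
    rw [Real.norm_eq_abs, abs_of_nonneg (Real.sqrt_nonneg _)]
    exact hpt ω
  have hI := integral_mono hs hdom hpt
  have e1 : ∫ ω, (g ω / c + c) / 2 ∂μ = ((∫ ω, g ω ∂μ) / c + c) / 2 := by
    rw [integral_div, integral_add (hgi.div_const c) (integrable_const c), integral_div,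
      integral_const]
    simp
  rw [e1] at hI
  have h5 : (∫ ω, g ω ∂μ) / c ≤ b / c := div_le_div_of_nonneg_right h2 hc0.le
  have h6 : b / c = c := by
    rw [div_eq_iff hc0.ne']
    linarith
  linarith

end abstract

/-! ### The sum over the cells -/

lemma sumZ : Summable fun z : ℤ => Real.exp (-(|(z : ℝ)| / 8)) := by
  have h1 : Summable fun n : ℕ => Real.exp (-((n : ℝ) / 8)) := by
    have h2 : Summable fun n : ℕ => (Real.exp (-(1 / 8))) ^ n :=
      summable_geometric_of_lt_one (Real.exp_pos _).le (by rw [Real.exp_lt_one_iff]; norm_num)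
    refine h2.congr fun n => ?_
    rw [← Real.exp_nat_mul]
    congr 1
    ring
  refine Summable.of_nat_of_neg (h1.congr fun n => ?_) (h1.congr fun n => ?_)
  · simp
  · simp

/-- The constant of the sum over the cells. -/
noncomputable def BB : ℝ := ∑' z : ℤ, Real.exp (-(|(z : ℝ)| / 8))

lemma sumT (T : Finset (Site 2)) :
    ∑ y ∈ T, Real.exp (-((|(y 0 : ℝ)| + |(y 1 : ℝ)|) / 8)) ≤ BB ^ 2 := by
  classical
  set s : Fin 2 → Finset ℤ := fun j => T.image fun y => y j with hs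
  have hsub : T ⊆ Fintype.piFinset s := by
    intro y hy
    rw [Fintype.mem_piFinset]
    intro j
    exact Finset.mem_image_of_mem _ hy
  have e1 : ∀ y : Site 2, Real.exp (-((|(y 0 : ℝ)| + |(y 1 : ℝ)|) / 8)) =
      ∏ j : Fin 2, Real.exp (-(|(y j : ℝ)| / 8)) := by
    intro y
    rw [Fin.prod_univ_two, ← Real.exp_add]
    congr 1
    ring
  calc ∑ y ∈ T, Real.exp (-((|(y 0 : ℝ)| + |(y 1 : ℝ)|) / 8))
      ≤ ∑ y ∈ Fintype.piFinset s, Real.exp (-((|(y 0 : ℝ)| + |(y 1 : ℝ)|) / 8)) :=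
        Finset.sum_le_sum_of_subset_of_nonneg hsub fun _ _ _ => (Real.exp_pos _).le
    _ = ∑ y ∈ Fintype.piFinset s, ∏ j : Fin 2, Real.exp (-(|(y j : ℝ)| / 8)) :=
        Finset.sum_congr rfl fun y _ => e1 y
    _ = ∏ j : Fin 2, ∑ z ∈ s j, Real.exp (-(|(z : ℝ)| / 8)) :=
        (Finset.prod_univ_sum s fun _ z => Real.exp (-(|(z : ℝ)| / 8))).symm
    _ ≤ ∏ _j : Fin 2, BB := by
        refine Finset.prod_le_prod (fun j _ => Finset.sum_nonneg fun _ _ => (Real.exp_pos _).le)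
          fun j _ => ?_
        exact sumZ.sum_le_tsum _ fun _ _ => (Real.exp_pos _).le
    _ = BB ^ 2 := by simp

variable {ρ : Measure ℝ} [IsProbabilityMeasure ρ] {β : ℝ}

lemma dn_nn (ρ : Measure ℝ) (β : ℝ) {n : ℕ} (x : Site 2) (s : Fin n → Step 2) (η : Env 2) :
    0 ≤ dn ρ β x s η :=
  div_nonneg (Real.exp_pos _).le (pow_nonneg (integral_nonneg fun _ => (Real.exp_pos _).le) _)

lemma dn_meas (ρ : Measure ℝ) (β : ℝ) {n : ℕ} (x : Site 2) (s : Fin n → Step 2) :
    Measurable (dn ρ β x s) := by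
  unfold dn
  exact ((((measurable_energy s).comp (measurable_sh 0 x)).const_mul β).exp).div_const _

lemma dn_one (hT : TiltL ρ β) {n : ℕ} (x : Site 2) (s : Fin n → Step 2) :
    ∫ η, dn ρ β x s η ∂(law 2 ρ) = 1 := by
  obtain ⟨P, hP, h1, -⟩ := hT n x s
  have h2 := h1 (fun _ => 1) measurable_const
  simp only [one_mul] at h2
  rw [← h2]
  simp

lemma dn_int (hT : TiltL ρ β) {n : ℕ} (x : Site 2) (s : Fin n → Step 2) :
    Integrable (dn ρ β x s) (law 2 ρ) := by
  by_contra hcon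
  have h1 := dn_one hT x s
  rw [integral_undef hcon] at h1
  exact zero_ne_one h1

lemma pS_nn (h : Vec 2) {n : ℕ} (s : Fin n → Step 2) : 0 ≤ pS h s := by
  unfold pS Phi
  positivity

lemma WE_nn (ρ : Measure ℝ) (β : ℝ) (h : Vec 2) (n : ℕ) (x : Site 2) (E : Set (Site 2))
    (η : Env 2) : 0 ≤ WE ρ β h n x E η := by
  unfold WE
  refine Finset.sum_nonneg fun s _ => ?_
  split_ifs
  · exact mul_nonneg (pS_nn h s) (dn_nn ρ β x s η)
  · exact le_rfl

lemma WE_meas (ρ : Measure ℝ) (β : ℝ) (h : Vec 2) (n : ℕ) (x : Site 2) (E : Set (Site 2)) :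
    Measurable (WE ρ β h n x E) := by
  unfold WE
  refine Finset.measurable_fun_sum _ fun s _ => ?_
  split_ifs
  · exact (dn_meas ρ β x s).const_mul _
  · exact measurable_const

lemma WE_int (hT : TiltL ρ β) (h : Vec 2) (n : ℕ) (x : Site 2) (E : Set (Site 2)) :
    Integrable (WE ρ β h n x E) (law 2 ρ) := by
  unfold WE
  refine integrable_finsetSum _ fun s _ => ?_
  split_ifs
  · exact (dn_int hT x s).const_mul _
  · exact integrable_const _

open Classical in
lemma WE_mean (hT : TiltL ρ β) (h : Vec 2) (n : ℕ) (x : Site 2) (E : Set (Site 2)) :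
    ∫ η, WE ρ β h n x E η ∂(law 2 ρ) =
      ∑ s : Fin n → Step 2, if x + pos s n ∈ E then pS h s else 0 := by
  unfold WE
  rw [integral_finsetSum]
  · refine Finset.sum_congr rfl fun s _ => ?_
    split_ifs
    · rw [integral_const_mul, dn_one hT, mul_one]
    · simp
  · intro s _
    split_ifs
    · exact (dn_int hT x s).const_mul _
    · exact integrable_const _

lemma WE_mono (ρ : Measure ℝ) (β : ℝ) (h : Vec 2) (n : ℕ) (x : Site 2) {E E' : Set (Site 2)}
    (hE : E ⊆ E') (η : Env 2) : WE ρ β h n x E η ≤ WE ρ β h n x E' η := by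
  classical
  unfold WE
  refine Finset.sum_le_sum fun s _ => ?_
  by_cases h1 : x + pos s n ∈ E
  · rw [if_pos h1, if_pos (hE h1)]
  · rw [if_neg h1]
    split_ifs
    · exact mul_nonneg (pS_nn h s) (dn_nn ρ β x s η)
    · exact le_rfl

/-- A walk from the cell `0` to the cell `y` has a large displacement. -/
lemma far_disp {n : ℕ} {a v : Vec 2} {x p : Site 2} {y : Site 2} (hx : x ∈ cell n a)
    (hp : x + p ∈ cell n (a + (n : ℝ) • v + Real.sqrt n • emb y)) (j : Fin 2) :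
    (|(y j : ℝ)| - 1) * Real.sqrt n ≤ |(p j : ℝ) - n * v j| := by
  have h1 := hx j
  have h2 := hp j
  have e : (a + (n : ℝ) • v + Real.sqrt n • emb y) j = a j + n * v j + Real.sqrt n * y j := by
    simp [emb]
  rw [e] at h2
  have e2 : (((x + p) j : ℤ) : ℝ) = (x j : ℝ) + p j := by
    push_cast [Pi.add_apply]
    ring
  rw [e2] at h2
  have hs : 0 ≤ Real.sqrt n := Real.sqrt_nonneg _
  rcases le_total 0 (y j : ℝ) with hy | hy
  · rw [abs_of_nonneg hy]
    refine le_trans ?_ (le_abs_self _)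
    nlinarith [h1.1, h1.2, h2.1, h2.2]
  · rw [abs_of_nonpos hy]
    refine le_trans ?_ (neg_le_abs _)
    nlinarith [h1.1, h1.2, h2.1, h2.2]

end N79

open N79 in
/-- L9. -/
theorem oneL79 {ρ : Measure ℝ} [IsProbabilityMeasure ρ] {β : ℝ} (hT : TiltL ρ β)
    (hC : ChgL ρ β) (hE : EndL) : OneL ρ β := by
  classical
  intro h δ hδ
  obtain ⟨C₀, hC₀, hend⟩ := hE
  set Kf : ℝ := Real.sqrt C₀ * Real.exp (1 / 2) * BB ^ 2 with hKf
  have hKf0 : 0 ≤ Kf := by positivity
  obtain ⟨R1, hR1⟩ := exists_nat_ge (8 * Kf / δ + 1)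
  have hR1' : (1 : ℝ) ≤ R1 := by
    have : 0 ≤ 8 * Kf / δ := by positivity
    linarith
  set N1 : ℝ := (2 * (R1 : ℝ) + 1) ^ 2 with hN1
  have hN1p : 0 < N1 := by positivity
  set ε : ℝ := min 1 ((δ / (2 * N1)) ^ 2 / 8) with hε
  have hε0 : 0 < ε := lt_min one_pos (by positivity)
  have hε1 : ε ≤ 1 := min_le_left _ _
  have hε2 : Real.sqrt (2 * (4 * ε)) ≤ δ / (2 * N1) := by
    rw [Real.sqrt_le_iff]
    refine ⟨by positivity, ?_⟩
    have : ε ≤ (δ / (2 * N1)) ^ 2 / 8 := min_le_right _ _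
    linarith
  obtain ⟨n₀, hn₀⟩ := hC h ε hε0 hε1
  refine ⟨max n₀ 1, le_max_right _ _, ?_⟩
  set n : ℕ := max n₀ 1 with hn
  have hn1 : 1 ≤ n := le_max_right _ _
  intro a S u hu hS hsum T
  obtain ⟨f, hfm, hf1, -, hfi, hfW⟩ := hn₀ n (le_max_left _ _) a
  have hf0 : ∀ η, 0 < f η := fun η => hε0.trans_le (hf1 η).1
  have hfinv : Integrable (fun η => (f η)⁻¹) (law 2 ρ) := by
    refine Integrable.of_bound hfm.inv.aestronglyMeasurable (ε⁻¹)
      (Eventually.of_forall fun η => ?_)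
    rw [Real.norm_eq_abs, abs_of_nonneg (inv_nonneg.2 (hf0 η).le)]
    exact inv_anti₀ hε0 (hf1 η).1
  set g : Site 2 → Env 2 → ℝ := fun y η => ∑ x ∈ S, u x * WE ρ β h n x
    (cell n (a + (n : ℝ) • vm h + Real.sqrt n • emb y)) η with hg
  have hg0 : ∀ y η, 0 ≤ g y η := fun y η =>
    Finset.sum_nonneg fun x _ => mul_nonneg (hu x) (WE_nn _ _ _ _ _ _ _)
  have hgm : ∀ y, Measurable (g y) := fun y =>
    Finset.measurable_fun_sum _ fun x _ => (WE_meas _ _ _ _ _ _).const_mul _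
  have hgi : ∀ y, Integrable (g y) (law 2 ρ) := fun y =>
    integrable_finsetSum _ fun x _ => (WE_int hT _ _ _ _).const_mul _
  -- the near cells
  have hWf : ∀ (x : Site 2) (E : Set (Site 2)), Integrable (fun η => WE ρ β h n x E η * f η)
      (law 2 ρ) := by
    intro x E
    refine (WE_int hT h n x E).mono' ((WE_meas _ _ _ _ _ _).mul hfm).aestronglyMeasurable
      (Eventually.of_forall fun η => ?_)
    rw [Real.norm_eq_abs, abs_of_nonneg (mul_nonneg (WE_nn _ _ _ _ _ _ _) (hf0 η).le)]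
    exact mul_le_of_le_one_right (WE_nn _ _ _ _ _ _ _) (hf1 η).2
  have hnear : ∀ y, ∫ η, Real.sqrt (g y η) ∂(law 2 ρ) ≤ δ / (2 * N1) := by
    intro y
    refine le_trans ?_ hε2
    refine int_sqrt_near (hg0 y) hf0 (hgm y) hfm hfinv ?_ (by positivity) hfi ?_
    · have e : (fun η => g y η * f η) = fun η => ∑ x ∈ S, u x * (WE ρ β h n x
          (cell n (a + (n : ℝ) • vm h + Real.sqrt n • emb y)) η * f η) := by
        funext η
        rw [hg]
        simp only
        rw [Finset.sum_mul]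
        exact Finset.sum_congr rfl fun x _ => by ring
      rw [e]
      exact integrable_finsetSum _ fun x _ => (hWf x _).const_mul _
    · have e : ∫ η, g y η * f η ∂(law 2 ρ) = ∑ x ∈ S, u x * ∫ η, WE ρ β h n x
          (cell n (a + (n : ℝ) • vm h + Real.sqrt n • emb y)) η * f η ∂(law 2 ρ) := by
        rw [← Finset.sum_congr rfl fun x _ => integral_const_mul _ _,
          ← integral_finsetSum _ fun x _ => (hWf x _).const_mul _]
        refine integral_congr_ae (Eventually.of_forall fun η => ?_)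
        rw [hg]
        simp only
        rw [Finset.sum_mul]
        exact Finset.sum_congr rfl fun x _ => by ring
      rw [e]
      have h3 : ∀ x ∈ S, u x * ∫ η, WE ρ β h n x
          (cell n (a + (n : ℝ) • vm h + Real.sqrt n • emb y)) η * f η ∂(law 2 ρ) ≤
          u x * (4 * ε) := by
        intro x hx
        refine mul_le_mul_of_nonneg_left ?_ (hu x)
        refine le_trans (integral_mono (hWf x _) (hWf x Set.univ) fun η => ?_) (hfW x (hS x hx))
        exact mul_le_mul_of_nonneg_right (WE_mono _ _ _ _ _ (Set.subset_univ _) η) (hf0 η).le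
      refine (Finset.sum_le_sum h3).trans ?_
      rw [← Finset.sum_mul]
      calc (∑ x ∈ S, u x) * (4 * ε) ≤ 1 * (4 * ε) :=
            mul_le_mul_of_nonneg_right hsum (by positivity)
        _ = 4 * ε := one_mul _
  -- the far cells
  have hfar : ∀ y : Site 2, (∃ j, (R1 : ℝ) < |(y j : ℝ)|) → ∫ η, Real.sqrt (g y η) ∂(law 2 ρ) ≤
      Real.sqrt C₀ * Real.exp (1 / 2) * (Real.exp (-((R1 : ℝ) / 4)) *
        Real.exp (-((|(y 0 : ℝ)| + |(y 1 : ℝ)|) / 8))) := by
    intro y hy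
    obtain ⟨j, -, hj⟩ := Finset.exists_max_image (Finset.univ : Finset (Fin 2))
      (fun j => |(y j : ℝ)|) Finset.univ_nonempty
    obtain ⟨i, hi⟩ := hy
    set M : ℝ := |(y j : ℝ)| with hM
    have hMR : (R1 : ℝ) < M := hi.trans_le (hj i (Finset.mem_univ _))
    have h0 := hj 0 (Finset.mem_univ _)
    have h1 := hj 1 (Finset.mem_univ _)
    have hb : 0 < C₀ * Real.exp (-(M - 1)) := by positivity
    have hI : ∫ η, g y η ∂(law 2 ρ) ≤ C₀ * Real.exp (-(M - 1)) := by
      rw [hg]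
      simp only
      rw [integral_finsetSum _ fun x _ => (WE_int hT _ _ _ _).const_mul _]
      have h3 : ∀ x ∈ S, ∫ η, u x * WE ρ β h n x
          (cell n (a + (n : ℝ) • vm h + Real.sqrt n • emb y)) η ∂(law 2 ρ) ≤
          u x * (C₀ * Real.exp (-(M - 1))) := by
        intro x hx
        rw [integral_const_mul]
        refine mul_le_mul_of_nonneg_left ?_ (hu x)
        rw [WE_mean hT]
        refine le_trans (Finset.sum_le_sum fun s _ => ?_) (hend h n (M - 1) hn1 (by linarith))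
        by_cases h4 : x + pos s n ∈ cell n (a + (n : ℝ) • vm h + Real.sqrt n • emb y)
        · rw [if_pos h4, if_pos ⟨j, far_disp (hS x hx) h4 j⟩]
        · rw [if_neg h4]
          split_ifs
          · exact pS_nn h s
          · exact le_rfl
      refine (Finset.sum_le_sum h3).trans ?_
      rw [← Finset.sum_mul]
      calc (∑ x ∈ S, u x) * (C₀ * Real.exp (-(M - 1))) ≤ 1 * (C₀ * Real.exp (-(M - 1))) :=
            mul_le_mul_of_nonneg_right hsum hb.le
        _ = C₀ * Real.exp (-(M - 1)) := one_mul _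
    refine (int_sqrt_far (hg0 y) (hgm y) (hgi y) hb hI).trans ?_
    rw [Real.sqrt_mul hC₀.le, mul_assoc]
    refine mul_le_mul_of_nonneg_left ?_ (Real.sqrt_nonneg _)
    rw [← Real.exp_add, ← Real.exp_add, ← Real.exp_half]
    refine Real.exp_le_exp.2 ?_
    linarith
  -- the sum
  have hsplit : ∑ y ∈ T, ∫ η, Real.sqrt (g y η) ∂(law 2 ρ) ≤
      ∑ y ∈ T.filter (fun y => ∀ j, |(y j : ℝ)| ≤ R1), δ / (2 * N1) +
      ∑ y ∈ T, Real.sqrt C₀ * Real.exp (1 / 2) * (Real.exp (-((R1 : ℝ) / 4)) *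
        Real.exp (-((|(y 0 : ℝ)| + |(y 1 : ℝ)|) / 8))) := by
    rw [Finset.sum_filter, ← Finset.sum_add_distrib]
    refine Finset.sum_le_sum fun y _ => ?_
    have hp : 0 ≤ Real.sqrt C₀ * Real.exp (1 / 2) * (Real.exp (-((R1 : ℝ) / 4)) *
        Real.exp (-((|(y 0 : ℝ)| + |(y 1 : ℝ)|) / 8))) := by positivity
    by_cases h1 : ∀ j, |(y j : ℝ)| ≤ R1
    · rw [if_pos h1]
      have := hnear y
      linarith
    · rw [if_neg h1, zero_add]
      push Not at h1
      exact hfar y h1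
  refine hsplit.trans ?_
  have hA : ∑ y ∈ T.filter (fun y => ∀ j, |(y j : ℝ)| ≤ R1), δ / (2 * N1) ≤ δ / 2 := by
    rw [Finset.sum_const, nsmul_eq_mul]
    have hcard : ((T.filter (fun y => ∀ j, |(y j : ℝ)| ≤ R1)).card : ℝ) ≤ N1 := by
      have hsub : T.filter (fun y => ∀ j, |(y j : ℝ)| ≤ R1) ⊆
          Fintype.piFinset fun _ : Fin 2 => Finset.Icc (-(R1 : ℤ)) R1 := by
        intro y hy
        rw [Fintype.mem_piFinset]
        intro j
        have h1 := (Finset.mem_filter.1 hy).2 j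
        rw [abs_le] at h1
        rw [Finset.mem_Icc]
        constructor
        · have := h1.1
          exact_mod_cast this
        · have := h1.2
          exact_mod_cast this
      have h2 := Finset.card_le_card hsub
      rw [Fintype.card_piFinset] at h2
      simp only [Int.card_Icc, Finset.prod_const, Finset.card_univ, Fintype.card_fin] at h2
      have h3 : ((R1 : ℤ) + 1 - -(R1 : ℤ)).toNat = 2 * R1 + 1 := by omega
      rw [h3] at h2
      calc ((T.filter (fun y => ∀ j, |(y j : ℝ)| ≤ R1)).card : ℝ) ≤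
            (((2 * R1 + 1) ^ 2 : ℕ) : ℝ) := by exact_mod_cast h2
        _ = N1 := by rw [hN1]; push_cast; ring
    calc ((T.filter (fun y => ∀ j, |(y j : ℝ)| ≤ R1)).card : ℝ) * (δ / (2 * N1)) ≤
          N1 * (δ / (2 * N1)) := mul_le_mul_of_nonneg_right hcard (by positivity)
      _ = δ / 2 := by field_simp
  have hB : ∑ y ∈ T, Real.sqrt C₀ * Real.exp (1 / 2) * (Real.exp (-((R1 : ℝ) / 4)) *
      Real.exp (-((|(y 0 : ℝ)| + |(y 1 : ℝ)|) / 8))) ≤ δ / 2 := by
    rw [← Finset.mul_sum, ← Finset.mul_sum]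
    have h1 := sumT T
    have h2 : Real.exp (-((R1 : ℝ) / 4)) ≤ 4 / R1 := by
      rw [Real.exp_neg, inv_le_comm₀ (Real.exp_pos _) (by positivity)]
      have h3 := Real.add_one_le_exp ((R1 : ℝ) / 4)
      rw [inv_div]
      linarith
    calc Real.sqrt C₀ * Real.exp (1 / 2) * (Real.exp (-((R1 : ℝ) / 4)) *
          ∑ y ∈ T, Real.exp (-((|(y 0 : ℝ)| + |(y 1 : ℝ)|) / 8)))
        ≤ Real.sqrt C₀ * Real.exp (1 / 2) * (4 / R1 * BB ^ 2) := by
          refine mul_le_mul_of_nonneg_left ?_ (by positivity)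
          exact mul_le_mul h2 h1 (Finset.sum_nonneg fun _ _ => (Real.exp_pos _).le)
            (by positivity)
      _ = 4 * Kf / R1 := by rw [hKf]; ring
      _ ≤ δ / 2 := by
          rw [div_le_iff₀ (by linarith)]
          have h4 : 8 * Kf / δ ≤ R1 := by linarith
          rw [div_le_iff₀ hδ] at h4
          linarith
  linarith

end Pool.Agent.W_7d29a1_L2
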