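import Pool.Agent.W_7d29a1_P89.Basic
import Pool.Agent.W_7d29a1_Q29.Poly85
import Pool.Agent.W_7d29a1_Q29.Vsd61

/-!
Half moments of the partition function: the recursion over one block of rows, and very strong
disorder from a contraction over one block (helper27).
-/

namespace Pool.Agent.W_7d29a1_L2.Rec27

open MeasureTheory ProbabilityTheory Filter Topology Pool.Agent.W_MP_7d29a1_pr
  Pool.Agent.W_7d29a1_h46 Pool.Agent.W_7d29a1_h46u Pool.Agent.W_7d29a1_D2.B35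
  Pool.Agent.W_7d29a1_P89 Pool.Agent.W_7d29a1_Q29

variable {d : ℕ}

/-- The weight of the site `y` of the row `n` for the polymer which starts from the weights `u`. -/
noncomputable def Mu (P : Prm d) (Λ : Finset (Site d)) (u : Site d → ℝ) (n : ℕ) (y : Site d)
    (η : Env d) : ℝ := ∑ x ∈ Λ, u x * W P (sh 0 x η) n (y - x)

/-- The partition function of the polymer which starts from the weights `u`. -/
noncomputable def Tu (P : Prm d) (Λ : Finset (Site d)) (u : Site d → ℝ) (n : ℕ) (η : Env d) : ℝ :=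
  ∑ x ∈ Λ, u x * ZH P (sh 0 x η) n

lemma sqrt_sum_le {ι : Type*} (s : Finset ι) {f : ι → ℝ} (hf : ∀ i, 0 ≤ f i) :
    Real.sqrt (∑ i ∈ s, f i) ≤ ∑ i ∈ s, Real.sqrt (f i) := by
  simp only [Real.sqrt_eq_rpow]
  exact rpow_sum_le s hf (by norm_num) (by norm_num)

lemma sqrt_le_one_add {x : ℝ} (hx : 0 ≤ x) : Real.sqrt x ≤ 1 + x := by
  rw [Real.sqrt_eq_rpow]
  exact rpow_le_one_add hx (by norm_num) (by norm_num)

lemma ZH_split (P : Prm d) (η : Env d) (m n : ℕ) :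
    ZH P η (m + n) = ∑ w ∈ boxF d m, W P η m w * ZH P (sh m w η) n := by
  unfold ZH W
  rw [exp_split, S98.Z_split, Finset.mul_sum]
  exact Finset.sum_congr rfl fun w _ => by ring

lemma sh_start (m : ℕ) (x y : Site d) (η : Env d) : sh m (y - x) (sh 0 x η) = sh m y η := by
  rw [S98.sh_sh, zero_add, add_sub_cancel]

lemma cover {Λ I : Finset (Site d)} {m : ℕ} {x : Site d}
    (hc : ∀ w ∈ boxF d m, ∃ z ∈ I, ∃ y ∈ Λ, x + w = z + y) {g : Site d → ℝ}
    (hg : ∀ v, 0 ≤ g v) :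
    ∑ w ∈ boxF d m, g (x + w) ≤ ∑ z ∈ I, ∑ y ∈ Λ, g (z + y) := by
  classical
  choose! fz hz fy hy he using hc
  have h1 : ∑ z ∈ I, ∑ y ∈ Λ, g (z + y) = ∑ p ∈ I ×ˢ Λ, g (p.1 + p.2) := by
    rw [Finset.sum_product]
  have h2 : ∑ w ∈ boxF d m, g (x + w) =
      ∑ p ∈ (boxF d m).image (fun w => (fz w, fy w)), g (p.1 + p.2) := by
    rw [Finset.sum_image]
    · exact Finset.sum_congr rfl fun w hw => by rw [he w hw]
    · intro a ha b hb hab
      have h3 : fz a = fz b := congrArg Prod.fst hab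
      have h4 : fy a = fy b := congrArg Prod.snd hab
      have h5 := he a ha
      rw [h3, h4, ← he b hb] at h5
      exact add_left_cancel h5
  rw [h1, h2]
  refine Finset.sum_le_sum_of_subset_of_nonneg ?_ fun _ _ _ => hg _
  intro p hp
  obtain ⟨w, hw, rfl⟩ := Finset.mem_image.1 hp
  exact Finset.mem_product.2 ⟨hz w hw, hy w hw⟩

lemma Tu_split_le (P : Prm d) {Λ I : Finset (Site d)} {u : Site d → ℝ} (hu : ∀ x, 0 ≤ u x)
    (hd : 0 < d) (m n : ℕ)
    (hc : ∀ x ∈ Λ, ∀ w ∈ boxF d m, ∃ z ∈ I, ∃ y ∈ Λ, x + w = z + y) (η : Env d) :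
    Tu P Λ u (m + n) η ≤
      ∑ z ∈ I, ∑ y ∈ Λ, Mu P Λ u m (z + y) η * ZH P (sh m (z + y) η) n := by
  have h1 : ∀ x ∈ Λ, u x * ZH P (sh 0 x η) (m + n) ≤ ∑ z ∈ I, ∑ y ∈ Λ,
      u x * W P (sh 0 x η) m (z + y - x) * ZH P (sh m (z + y) η) n := by
    intro x hx
    have h2 := cover (hc x hx) (g := fun v => u x * W P (sh 0 x η) m (v - x) *
      ZH P (sh m v η) n) fun v => mul_nonneg (mul_nonneg (hu x) (W_nonneg _ _ _ _))
        (ZH_pos hd _ _ _).le
    refine le_trans (le_of_eq ?_) h2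
    rw [ZH_split, Finset.mul_sum]
    refine Finset.sum_congr rfl fun w _ => ?_
    rw [S98.sh_sh, zero_add, add_sub_cancel_left]
    ring
  unfold Tu Mu
  refine (Finset.sum_le_sum h1).trans (le_of_eq ?_)
  rw [Finset.sum_comm]
  refine Finset.sum_congr rfl fun z _ => ?_
  rw [Finset.sum_comm]
  refine Finset.sum_congr rfl fun y _ => ?_
  rw [Finset.sum_mul]

lemma Mu_nonneg (P : Prm d) (Λ : Finset (Site d)) {u : Site d → ℝ} (hu : ∀ x, 0 ≤ u x) (n : ℕ)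
    (y : Site d) (η : Env d) : 0 ≤ Mu P Λ u n y η :=
  Finset.sum_nonneg fun x _ => mul_nonneg (hu x) (W_nonneg _ _ _ _)

lemma Tu_nonneg (hd : 0 < d) (P : Prm d) (Λ : Finset (Site d)) {u : Site d → ℝ}
    (hu : ∀ x, 0 ≤ u x) (n : ℕ) (η : Env d) : 0 ≤ Tu P Λ u n η :=
  Finset.sum_nonneg fun x _ => mul_nonneg (hu x) (ZH_pos hd _ _ _).le

lemma measurable_Mu (P : Prm d) (Λ : Finset (Site d)) (u : Site d → ℝ) (n : ℕ) (y : Site d) :
    Measurable fun η : Env d => Mu P Λ u n y η :=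
  Finset.measurable_sum _ fun x _ =>
    ((measurable_W P n (y - x)).comp (measurable_sh 0 x)).const_mul _

lemma measurable_Tu (P : Prm d) (Λ : Finset (Site d)) (u : Site d → ℝ) (n : ℕ) :
    Measurable fun η : Env d => Tu P Λ u n η :=
  Finset.measurable_sum _ fun x _ => ((measurable_ZH P n).comp (measurable_sh 0 x)).const_mul _

lemma Mu_spl (P : Prm d) (Λ : Finset (Site d)) (u : Site d → ℝ) (m : ℕ) (y : Site d)
    (η ξ : Env d) : Mu P Λ u m y (spl (Pa d m) η ξ) = Mu P Λ u m y η := by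
  unfold Mu
  refine Finset.sum_congr rfl fun x _ => ?_
  have h1 : sh 0 x (spl (Pa d m) η ξ) = spl (Pa d m) (sh 0 x η) (sh 0 x ξ) := by
    funext p
    by_cases hp : p ∈ Pa d m
    · have hp' : (p.1 + 0, p.2 + x) ∈ Pa d m := hp
      change spl (Pa d m) η ξ (p.1 + 0, p.2 + x) = _
      rw [spl_mem _ _ hp, spl_mem _ _ hp']
      rfl
    · have hp' : (p.1 + 0, p.2 + x) ∉ Pa d m := hp
      change spl (Pa d m) η ξ (p.1 + 0, p.2 + x) = _
      rw [spl_not_mem _ _ hp, spl_not_mem _ _ hp']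
      rfl
  rw [h1]
  unfold W
  rw [N85.PP_spl]

lemma ZH_sh_spl (P : Prm d) (m n : ℕ) (y : Site d) (η ξ : Env d) :
    ZH P (sh m y (spl (Pa d m) η ξ)) n = ZH P (sh m y ξ) n := by
  unfold ZH
  rw [N85.Z_sh_spl]

variable {ρ : Measure ℝ} [IsProbabilityMeasure ρ]

lemma integrable_Tu (hd : 0 < d) (hρ : EM ρ) (P : Prm d) (Λ : Finset (Site d)) (u : Site d → ℝ)
    (n : ℕ) : Integrable (fun η : Env d => Tu P Λ u n η) (law d ρ) :=
  integrable_finsetSum _ fun x _ =>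
    ((mp_sh 0 x).integrable_comp_of_integrable (integrable_ZH hd hρ P n)).const_mul _

lemma integrable_sqrt {F G : Env d → ℝ} (hF : Measurable F) (hG : Integrable G (law d ρ))
    (h0 : ∀ η, 0 ≤ F η) (h : ∀ η, F η ≤ G η) :
    Integrable (fun η => Real.sqrt (F η)) (law d ρ) := by
  refine ((integrable_const (1 : ℝ)).add hG).mono' hF.sqrt.aestronglyMeasurable
    (Eventually.of_forall fun η => ?_)
  rw [Real.norm_eq_abs, abs_of_nonneg (Real.sqrt_nonneg _)]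
  have := sqrt_le_one_add (h0 η)
  simp only [Pi.add_apply]
  linarith [h η]

lemma sum_Mu_le (hd : 0 < d) (P : Prm d) (Λ : Finset (Site d)) {u : Site d → ℝ}
    (hu : ∀ x, 0 ≤ u x) (m : ℕ) (z : Site d) (η : Env d) :
    ∑ y ∈ Λ, Mu P Λ u m (z + y) η ≤ (Λ.card : ℝ) * Tu P Λ u m η := by
  rw [← nsmul_eq_mul]
  refine Finset.sum_le_card_nsmul _ _ _ fun y _ => ?_
  unfold Mu Tu
  exact Finset.sum_le_sum fun x _ => mul_le_mul_of_nonneg_left (W_le_ZH _ _ _ _) (hu x)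

lemma sum_MuZ_le (hd : 0 < d) (P : Prm d) (Λ : Finset (Site d)) {u : Site d → ℝ}
    (hu : ∀ x, 0 ≤ u x) (m n : ℕ) (z : Site d) (η : Env d) :
    ∑ y ∈ Λ, Mu P Λ u m (z + y) η * ZH P (sh m (z + y) η) n ≤
      (Λ.card : ℝ) * Tu P Λ u (m + n) η := by
  rw [← nsmul_eq_mul]
  refine Finset.sum_le_card_nsmul _ _ _ fun y _ => ?_
  unfold Mu Tu
  rw [Finset.sum_mul]
  refine Finset.sum_le_sum fun x _ => ?_
  rw [mul_assoc]
  refine mul_le_mul_of_nonneg_left ?_ (hu x)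
  have h := chainZ P (sh 0 x η) m n (z + y - x)
  rwa [sh_start] at h

/-- One cell: the future is replaced by its bound. -/
lemma step_z (hd : 0 < d) (hρ : EM ρ) (P : Prm d) (Λ : Finset (Site d)) {u : Site d → ℝ}
    (hu : ∀ x, 0 ≤ u x) (m n : ℕ) (z : Site d) {G : ℝ}
    (hG : ∀ a : Site d → ℝ, (∀ x, 0 ≤ a x) →
      ∫ ξ, Real.sqrt (Tu P Λ a n ξ) ∂(law d ρ) ≤ G * Real.sqrt (∑ x ∈ Λ, a x)) :
    ∫ η, Real.sqrt (∑ y ∈ Λ, Mu P Λ u m (z + y) η * ZH P (sh m (z + y) η) n) ∂(law d ρ) ≤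
      G * ∫ η, Real.sqrt (∑ y ∈ Λ, Mu P Λ u m (z + y) η) ∂(law d ρ) := by
  obtain ⟨F, hF⟩ : ∃ F : Env d → ℝ, F = fun η =>
    Real.sqrt (∑ y ∈ Λ, Mu P Λ u m (z + y) η * ZH P (sh m (z + y) η) n) := ⟨_, rfl⟩
  have hm0 : Measurable fun η : Env d =>
      ∑ y ∈ Λ, Mu P Λ u m (z + y) η * ZH P (sh m (z + y) η) n :=
    Finset.measurable_sum _ fun y _ => (measurable_Mu P Λ u m (z + y)).mul
      ((measurable_ZH P n).comp (measurable_sh m (z + y)))
  have hFm : Measurable F := by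
    rw [hF]
    exact hm0.sqrt
  have hFi : Integrable F (law d ρ) := by
    rw [hF]
    exact integrable_sqrt hm0 ((integrable_Tu hd hρ P Λ u (m + n)).const_mul (Λ.card : ℝ))
      (fun η => Finset.sum_nonneg fun y _ =>
        mul_nonneg (Mu_nonneg P Λ hu m _ η) (ZH_pos hd _ _ _).le)
      fun η => sum_MuZ_le hd P Λ hu m n z η
  have hmp := mp_spl (d := d) (ρ := ρ) (Pa d m)
  have h1 : ∫ η, F η ∂(law d ρ) =
      ∫ w, F (spl (Pa d m) w.1 w.2) ∂((law d ρ).prod (law d ρ)) :=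
    (LawU_integral hmp hFm.aestronglyMeasurable).symm
  have h2 : Integrable (fun w : Env d × Env d => F (spl (Pa d m) w.1 w.2))
      ((law d ρ).prod (law d ρ)) := hmp.integrable_comp_of_integrable hFi
  have h3 : ∀ η ξ : Env d, F (spl (Pa d m) η ξ) =
      Real.sqrt (Tu P Λ (fun y => Mu P Λ u m (z + y) η) n (sh m z ξ)) := by
    intro η ξ
    rw [hF]
    simp only
    congr 1
    unfold Tu
    refine Finset.sum_congr rfl fun y _ => ?_
    rw [Mu_spl, ZH_sh_spl, S98.sh_sh, add_zero]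
  have h4 : ∀ η : Env d, ∫ ξ, F (spl (Pa d m) η ξ) ∂(law d ρ) ≤
      G * Real.sqrt (∑ y ∈ Λ, Mu P Λ u m (z + y) η) := by
    intro η
    simp only [h3]
    rw [integral_sh m z (F := fun ξ => Real.sqrt (Tu P Λ (fun y => Mu P Λ u m (z + y) η) n ξ))
      (measurable_Tu P Λ _ n).sqrt]
    exact hG _ fun y => Mu_nonneg P Λ hu m (z + y) η
  have h5 : Integrable (fun η => Real.sqrt (∑ y ∈ Λ, Mu P Λ u m (z + y) η)) (law d ρ) :=
    integrable_sqrt (Finset.measurable_sum _ fun y _ => measurable_Mu P Λ u m (z + y))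
      ((integrable_Tu hd hρ P Λ u m).const_mul (Λ.card : ℝ))
      (fun η => Finset.sum_nonneg fun y _ => Mu_nonneg P Λ hu m _ η)
      fun η => sum_Mu_le hd P Λ hu m z η
  calc ∫ η, Real.sqrt (∑ y ∈ Λ, Mu P Λ u m (z + y) η * ZH P (sh m (z + y) η) n) ∂(law d ρ)
      = ∫ η, F η ∂(law d ρ) := by rw [hF]
    _ = ∫ η, ∫ ξ, F (spl (Pa d m) η ξ) ∂(law d ρ) ∂(law d ρ) := by
        rw [h1, integral_prod _ h2]
    _ ≤ ∫ η, G * Real.sqrt (∑ y ∈ Λ, Mu P Λ u m (z + y) η) ∂(law d ρ) :=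
        integral_mono h2.integral_prod_left (h5.const_mul G) h4
    _ = _ := integral_const_mul _ _

lemma Tu_zero (P : Prm d) (Λ : Finset (Site d)) (u : Site d → ℝ) (η : Env d) :
    Tu P Λ u 0 η = ∑ x ∈ Λ, u x := by
  unfold Tu ZH
  simp [Z_zero]

/-- The recursion over the blocks of `n` rows. -/
theorem recH27 (hd : 0 < d) (hρ : EM ρ) (P : Prm d) (Λ I : Finset (Site d)) (n : ℕ) {κ : ℝ}
    (hc : ∀ x ∈ Λ, ∀ w ∈ boxF d n, ∃ z ∈ I, ∃ y ∈ Λ, x + w = z + y) (h0 : 0 ≤ κ)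
    (hκ : ∀ u : Site d → ℝ, (∀ x, 0 ≤ u x) →
      ∑ z ∈ I, ∫ η, Real.sqrt (∑ y ∈ Λ, Mu P Λ u n (z + y) η) ∂(law d ρ) ≤
        κ * Real.sqrt (∑ x ∈ Λ, u x)) (k : ℕ) : ∀ u : Site d → ℝ, (∀ x, 0 ≤ u x) →
      ∫ η, Real.sqrt (Tu P Λ u (k * n) η) ∂(law d ρ) ≤ κ ^ k * Real.sqrt (∑ x ∈ Λ, u x) := by
  induction k with
  | zero =>
    intro u hu
    simp only [zero_mul, Tu_zero, pow_zero, one_mul]
    rw [integral_const]
    simp
  | succ k ih =>
    intro u hu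
    have e : (k + 1) * n = n + k * n := by ring
    rw [e]
    have hi : ∀ z ∈ I, Integrable (fun η => Real.sqrt (∑ y ∈ Λ,
        Mu P Λ u n (z + y) η * ZH P (sh n (z + y) η) (k * n))) (law d ρ) := fun z _ =>
      integrable_sqrt (Finset.measurable_sum _ fun y _ => (measurable_Mu P Λ u n (z + y)).mul
        ((measurable_ZH P (k * n)).comp (measurable_sh n (z + y))))
        ((integrable_Tu hd hρ P Λ u (n + k * n)).const_mul (Λ.card : ℝ))
        (fun η => Finset.sum_nonneg fun y _ =>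
          mul_nonneg (Mu_nonneg P Λ hu n _ η) (ZH_pos hd _ _ _).le)
        fun η => sum_MuZ_le hd P Λ hu n (k * n) z η
    have hi0 : Integrable (fun η => Real.sqrt (Tu P Λ u (n + k * n) η)) (law d ρ) :=
      integrable_sqrt (measurable_Tu P Λ u _) (integrable_Tu hd hρ P Λ u _)
        (fun η => Tu_nonneg hd P Λ hu _ η) fun η => le_rfl
    calc ∫ η, Real.sqrt (Tu P Λ u (n + k * n) η) ∂(law d ρ)
        ≤ ∫ η, ∑ z ∈ I, Real.sqrt (∑ y ∈ Λ,
            Mu P Λ u n (z + y) η * ZH P (sh n (z + y) η) (k * n)) ∂(law d ρ) := by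
          refine integral_mono hi0 (integrable_finsetSum _ hi) fun η => ?_
          refine (Real.sqrt_le_sqrt (Tu_split_le P hu hd n (k * n) hc η)).trans ?_
          exact sqrt_sum_le I fun z => Finset.sum_nonneg fun y _ =>
            mul_nonneg (Mu_nonneg P Λ hu n _ η) (ZH_pos hd _ _ _).le
      _ = ∑ z ∈ I, ∫ η, Real.sqrt (∑ y ∈ Λ,
            Mu P Λ u n (z + y) η * ZH P (sh n (z + y) η) (k * n)) ∂(law d ρ) :=
          integral_finsetSum _ hi
      _ ≤ ∑ z ∈ I, κ ^ k * ∫ η, Real.sqrt (∑ y ∈ Λ, Mu P Λ u n (z + y) η) ∂(law d ρ) :=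
          Finset.sum_le_sum fun z _ => step_z hd hρ P Λ hu n (k * n) z ih
      _ = κ ^ k * ∑ z ∈ I, ∫ η, Real.sqrt (∑ y ∈ Λ, Mu P Λ u n (z + y) η) ∂(law d ρ) := by
          rw [Finset.mul_sum]
      _ ≤ κ ^ k * (κ * Real.sqrt (∑ x ∈ Λ, u x)) :=
          mul_le_mul_of_nonneg_left (hκ u hu) (pow_nonneg h0 k)
      _ = κ ^ (k + 1) * Real.sqrt (∑ x ∈ Λ, u x) := by ring

/-- The contraction for probability weights gives it for all weights. -/
lemma norm27 (P : Prm d) (Λ I : Finset (Site d)) (n : ℕ) {κ : ℝ}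
    (hκ : ∀ u : Site d → ℝ, (∀ x, 0 ≤ u x) → ∑ x ∈ Λ, u x = 1 →
      ∑ z ∈ I, ∫ η, Real.sqrt (∑ y ∈ Λ, Mu P Λ u n (z + y) η) ∂(law d ρ) ≤ κ)
    (u : Site d → ℝ) (hu : ∀ x, 0 ≤ u x) :
    ∑ z ∈ I, ∫ η, Real.sqrt (∑ y ∈ Λ, Mu P Λ u n (z + y) η) ∂(law d ρ) ≤
      κ * Real.sqrt (∑ x ∈ Λ, u x) := by
  obtain ⟨s, hs⟩ : ∃ s : ℝ, s = ∑ x ∈ Λ, u x := ⟨_, rfl⟩
  have hs0 : 0 ≤ s := by rw [hs]; exact Finset.sum_nonneg fun x _ => hu x
  rw [← hs]
  rcases hs0.eq_or_lt with h | h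
  · have hz : ∀ x ∈ Λ, u x = 0 := (Finset.sum_eq_zero_iff_of_nonneg fun x _ => hu x).1
      (hs.symm.trans h.symm)
    have hM : ∀ (y : Site d) (η : Env d), Mu P Λ u n y η = 0 := fun y η =>
      Finset.sum_eq_zero fun x hx => by rw [hz x hx, zero_mul]
    simp [hM, ← h]
  · have h1 := hκ (fun x => u x / s) (fun x => div_nonneg (hu x) h.le)
      (by rw [← Finset.sum_div, ← hs, div_self h.ne'])
    have h2 : ∀ (z : Site d) (η : Env d), Real.sqrt (∑ y ∈ Λ, Mu P Λ u n (z + y) η) =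
        Real.sqrt s * Real.sqrt (∑ y ∈ Λ, Mu P Λ (fun x => u x / s) n (z + y) η) := by
      intro z η
      rw [← Real.sqrt_mul h.le]
      congr 1
      rw [Finset.mul_sum]
      refine Finset.sum_congr rfl fun y _ => ?_
      unfold Mu
      rw [Finset.mul_sum]
      refine Finset.sum_congr rfl fun x _ => ?_
      field_simp
    simp only [h2, integral_const_mul]
    rw [← Finset.mul_sum, mul_comm κ]
    exact mul_le_mul_of_nonneg_left h1 (Real.sqrt_nonneg _)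

/-- Leaf (f): contraction over one block of `n` rows gives an exponentially small half moment. -/
theorem rec27 (hd : 0 < d) (hρ : EM ρ) (P : Prm d) (Λ I : Finset (Site d)) (n : ℕ) {κ : ℝ}
    (hΛ : (0 : Site d) ∈ Λ)
    (hc : ∀ x ∈ Λ, ∀ w ∈ boxF d n, ∃ z ∈ I, ∃ y ∈ Λ, x + w = z + y) (h0 : 0 ≤ κ)
    (hκ : ∀ u : Site d → ℝ, (∀ x, 0 ≤ u x) → ∑ x ∈ Λ, u x = 1 →
      ∑ z ∈ I, ∫ η, Real.sqrt (∑ y ∈ Λ, Mu P Λ u n (z + y) η) ∂(law d ρ) ≤ κ) (k : ℕ) :
    ∫ η, Real.sqrt (ZH P η (k * n)) ∂(law d ρ) ≤ κ ^ k := by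
  classical
  have h1 := recH27 hd hρ P Λ I n hc h0 (norm27 P Λ I n hκ) k (fun x => if x = 0 then 1 else 0)
    fun x => by
      split_ifs
      · exact zero_le_one
      · exact le_rfl
  have h2 : ∀ η : Env d, Tu P Λ (fun x => if x = 0 then 1 else 0) (k * n) η = ZH P η (k * n) := by
    intro η
    have h3 : sh 0 (0 : Site d) η = η := by
      funext p
      change η (p.1 + 0, p.2 + 0) = η p
      rw [add_zero, add_zero]
    unfold Tu
    rw [Finset.sum_eq_single_of_mem 0 hΛ fun x _ hx => by simp [hx]]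
    simp [h3]
  simp only [h2] at h1
  have h4 : ∑ x ∈ Λ, (if x = 0 then (1 : ℝ) else 0) = 1 := by
    rw [Finset.sum_ite_eq', if_pos hΛ]
  rw [h4, Real.sqrt_one, mul_one] at h1
  exact h1

/-- Leaf (h): very strong disorder from the decay of the half moments. -/
theorem vsdH27 (hd : 0 < d) (hρ : EM ρ) (β : ℝ) (h : Vec d) {n : ℕ} (hn : 1 ≤ n) {κ a : ℝ}
    (hk0 : 0 < κ) (hk1 : κ < 1)
    (hK : ∀ k : ℕ, ∫ η, Real.sqrt (ZH ⟨Real.log (Phi h) + Real.log (∫ t, Real.exp (β * t) ∂ρ),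
      β, h, a⟩ η (k * n)) ∂(law d ρ) ≤ κ ^ k) : VSD ρ β h := by
  obtain ⟨L, hL⟩ : ∃ L : ℝ, L = Real.log (Phi h) + Real.log (∫ t, Real.exp (β * t) ∂ρ) := ⟨_, rfl⟩
  rw [← hL] at hK
  have hn0 : (0 : ℝ) < n := by exact_mod_cast hn
  have h1 : ∀ k : ℕ, 1 ≤ k → A ρ β h (k * n) / ((k * n : ℕ) : ℝ) ≤
      L + 2 * Real.log κ / n := by
    intro k hk
    have hk' : (0 : ℝ) < k := by exact_mod_cast hk
    have hb : 0 < κ ^ k := pow_pos hk0 k
    have hXi : Integrable (fun η => X β h η (k * n)) (law d ρ) := (concU hd hρ β h (k * n)).1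
    obtain ⟨Q, hQ⟩ : ∃ Q : Prm d, Q = ⟨L, β, h, a⟩ := ⟨_, rfl⟩
    have hK' := hK k
    rw [← hQ] at hK'
    have hsi : Integrable (fun η => Real.sqrt (ZH Q η (k * n))) (law d ρ) :=
      integrable_sqrt (measurable_ZH _ _) (integrable_ZH hd hρ _ _) (fun η => (ZH_pos hd _ η _).le)
        fun η => le_rfl
    have hpt : ∀ η, X β h η (k * n) ≤ ((k * n : ℕ) : ℝ) * L + 2 * (k * Real.log κ) +
        2 * (Real.sqrt (ZH Q η (k * n)) / κ ^ k - 1) := by
      intro η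
      have hz := ZH_pos hd Q η (k * n)
      have h2 : Real.log (ZH Q η (k * n)) = X β h η (k * n) - ((k * n : ℕ) : ℝ) * L := by
        unfold ZH
        rw [Real.log_mul (Real.exp_pos _).ne' (Z_pos hd _ _ _ _).ne', Real.log_exp, hQ]
        unfold X
        ring
      have h3 : Real.log (Real.sqrt (ZH Q η (k * n))) = Real.log (ZH Q η (k * n)) / 2 :=
        Real.log_sqrt hz.le
      have h4 := Real.log_le_sub_one_of_pos (div_pos (Real.sqrt_pos.2 hz) hb)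
      rw [Real.log_div (Real.sqrt_pos.2 hz).ne' hb.ne', Real.log_pow, h3, h2] at h4
      linarith
    have h5 := integral_mono hXi
      ((integrable_const (((k * n : ℕ) : ℝ) * L + 2 * (k * Real.log κ))).add
        (((hsi.div_const (κ ^ k)).sub (integrable_const 1)).const_mul 2)) hpt
    have h6 : ∫ η, (((k * n : ℕ) : ℝ) * L + 2 * (k * Real.log κ) +
        2 * (Real.sqrt (ZH Q η (k * n)) / κ ^ k - 1)) ∂(law d ρ) =
        ((k * n : ℕ) : ℝ) * L + 2 * (k * Real.log κ) +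
          2 * ((∫ η, Real.sqrt (ZH Q η (k * n)) ∂(law d ρ)) / κ ^ k - 1) := by
      have i1 : Integrable (fun η => Real.sqrt (ZH Q η (k * n)) / κ ^ k) (law d ρ) :=
        hsi.div_const _
      have i2 : Integrable (fun η => 2 * (Real.sqrt (ZH Q η (k * n)) / κ ^ k - 1)) (law d ρ) :=
        (i1.sub (integrable_const 1)).const_mul 2
      rw [integral_add (integrable_const _) i2, integral_const_mul,
        integral_sub i1 (integrable_const 1), integral_div (κ ^ k)]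
      simp
    have h7 : A ρ β h (k * n) ≤ ∫ η, (((k * n : ℕ) : ℝ) * L + 2 * (k * Real.log κ) +
        2 * (Real.sqrt (ZH Q η (k * n)) / κ ^ k - 1)) ∂(law d ρ) := h5
    rw [h6] at h7
    have h8 : (∫ η, Real.sqrt (ZH Q η (k * n)) ∂(law d ρ)) / κ ^ k ≤ 1 := by
      rw [div_le_one hb]
      exact hK'
    have h9 : A ρ β h (k * n) ≤ ((k * n : ℕ) : ℝ) * L + 2 * (k * Real.log κ) := by linarith
    have hkn : (0 : ℝ) < ((k * n : ℕ) : ℝ) := by
      push_cast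
      exact mul_pos hk' hn0
    rw [div_le_iff₀ hkn]
    refine h9.trans (le_of_eq ?_)
    push_cast
    field_simp
  have h2 : Tendsto (fun k : ℕ => k * n) atTop atTop := by
    refine tendsto_atTop_mono (fun k => ?_) tendsto_id
    exact Nat.le_mul_of_pos_right k (by omega)
  have h3 := (tendsto_A hd hρ β h).comp h2
  have h4 : lam ρ β h ≤ L + 2 * Real.log κ / n := by
    refine le_of_tendsto h3 ?_
    filter_upwards [eventually_ge_atTop 1] with k hk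
    exact h1 k hk
  have h5 : 2 * Real.log κ / n < 0 :=
    div_neg_of_neg_of_pos (by linarith [Real.log_neg hk0 hk1]) hn0
  unfold VSD
  rw [← hL]
  linarith

/-- Very strong disorder from a contraction over one block. -/
theorem vsd27 (hd : 0 < d) (hρ : EM ρ) (β : ℝ) (h : Vec d) (Λ I : Finset (Site d)) {n : ℕ}
    (hn : 1 ≤ n) {κ a : ℝ} (hk0 : 0 < κ) (hk1 : κ < 1) (hΛ : (0 : Site d) ∈ Λ)
    (hc : ∀ x ∈ Λ, ∀ w ∈ boxF d n, ∃ z ∈ I, ∃ y ∈ Λ, x + w = z + y)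
    (hκ : ∀ u : Site d → ℝ, (∀ x, 0 ≤ u x) → ∑ x ∈ Λ, u x = 1 →
      ∑ z ∈ I, ∫ η, Real.sqrt (∑ y ∈ Λ,
        Mu ⟨Real.log (Phi h) + Real.log (∫ t, Real.exp (β * t) ∂ρ), β, h, a⟩ Λ u n (z + y) η)
          ∂(law d ρ) ≤ κ) : VSD ρ β h :=
  vsdH27 hd hρ β h hn hk0 hk1 fun k => rec27 hd hρ _ Λ I n hΛ hc hk0.le hκ k

end Pool.Agent.W_7d29a1_L2.Rec27
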