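import Pool.Agent.W_7d29a1_L2.DefsL29
import Pool.Agent.W_7d29a1_Q29.Ce39
import Pool.Agent.W_7d29a1_Q29.Qt98
import Pool.Agent.W_7d29a1_Q29.Vsd61

/-!
Many blocks from one block.
-/

namespace Pool.Agent.W_7d29a1_L2

open MeasureTheory ProbabilityTheory Filter Topology Pool.Agent.W_MP_7d29a1_pr
  Pool.Agent.W_7d29a1_h46 Pool.Agent.W_7d29a1_h46u Pool.Agent.W_7d29a1_D2.B35
  Pool.Agent.W_7d29a1_Q29

namespace R39

variable {ρ : Measure ℝ}

lemma sqrt_add_le {a b : ℝ} (ha : 0 ≤ a) (hb : 0 ≤ b) :
    Real.sqrt (a + b) ≤ Real.sqrt a + Real.sqrt b := by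
  have h1 := Real.sqrt_nonneg a
  have h2 := Real.sqrt_nonneg b
  rw [Real.sqrt_le_left (by positivity)]
  nlinarith [Real.sq_sqrt ha, Real.sq_sqrt hb, mul_nonneg h1 h2]

lemma sqrt_sum_le {ι : Type*} (s : Finset ι) (f : ι → ℝ) (hf : ∀ i ∈ s, 0 ≤ f i) :
    Real.sqrt (∑ i ∈ s, f i) ≤ ∑ i ∈ s, Real.sqrt (f i) := by
  classical
  induction s using Finset.induction_on with
  | empty => simp
  | insert i s hi ih =>
    rw [Finset.sum_insert hi, Finset.sum_insert hi]
    have h1 : 0 ≤ f i := hf i (Finset.mem_insert_self i s)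
    have h2 : ∀ j ∈ s, 0 ≤ f j := fun j hj => hf j (Finset.mem_insert_of_mem hj)
    exact (sqrt_add_le h1 (Finset.sum_nonneg h2)).trans (add_le_add le_rfl (ih h2))

lemma sqrt_le_one_add {a : ℝ} (ha : 0 ≤ a) : Real.sqrt a ≤ 1 + a := by
  rw [Real.sqrt_le_left (by linarith)]
  nlinarith

/-- The normalised partition function. -/
noncomputable def Wn (ρ : Measure ℝ) (β : ℝ) (h : Vec 2) (m : ℕ) (η : Env 2) : ℝ :=
  Z β h η m / (Phi h * Mb ρ β) ^ m

lemma base_pos [IsProbabilityMeasure ρ] (hρ : EM ρ) (β : ℝ) (h : Vec 2) : 0 < Phi h * Mb ρ β :=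
  mul_pos (Phi_pos61 (by norm_num) h) (integral_exp_pos (hρ β))

lemma Wn_nonneg [IsProbabilityMeasure ρ] (hρ : EM ρ) (β : ℝ) (h : Vec 2) (m : ℕ) (η : Env 2) : 0 ≤ Wn ρ β h m η :=
  div_nonneg (ZT_nonneg _ _ _ _) (pow_nonneg (base_pos hρ β h).le _)

lemma measurable_Wn (β : ℝ) (h : Vec 2) (m : ℕ) : Measurable (Wn ρ β h m) :=
  (measurable_Z β h m).div_const _

lemma integrable_Wn [IsProbabilityMeasure ρ] (hρ : EM ρ) (β : ℝ) (h : Vec 2) (m : ℕ) :
    Integrable (Wn ρ β h m) (law 2 ρ) := (annealed61 hρ β h m).1.div_const _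

lemma integrable_Wn_sh [IsProbabilityMeasure ρ] (hρ : EM ρ) (β : ℝ) (h : Vec 2) (m t : ℕ) (x : Site 2) :
    Integrable (fun η => Wn ρ β h m (sh t x η)) (law 2 ρ) :=
  (mp_sh t x).integrable_comp_of_integrable (integrable_Wn hρ β h m)

lemma WE_nonneg [IsProbabilityMeasure ρ] (hρ : EM ρ) (β : ℝ) (h : Vec 2) (n : ℕ) (x : Site 2) (E : Set (Site 2))
    (η : Env 2) : 0 ≤ WE ρ β h n x E η := by
  classical
  have h1 := Phi_pos61 (by norm_num) h
  have h2 : 0 < Mb ρ β := integral_exp_pos (hρ β)
  unfold WE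
  refine Finset.sum_nonneg fun s _ => ?_
  split_ifs
  · unfold pS dn
    positivity
  · exact le_rfl

lemma WE_mono [IsProbabilityMeasure ρ] (hρ : EM ρ) (β : ℝ) (h : Vec 2) (n : ℕ) (x : Site 2) {E E' : Set (Site 2)}
    (hE : E ⊆ E') (η : Env 2) : WE ρ β h n x E η ≤ WE ρ β h n x E' η := by
  classical
  have h1 := Phi_pos61 (by norm_num) h
  have h2 : 0 < Mb ρ β := integral_exp_pos (hρ β)
  unfold WE
  refine Finset.sum_le_sum fun s _ => ?_
  have h3 : 0 ≤ pS h s * dn ρ β x s η := by
    unfold pS dn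
    positivity
  by_cases hs : x + pos s n ∈ E
  · rw [if_pos hs, if_pos (hE hs)]
  · rw [if_neg hs]
    split_ifs
    · exact h3
    · exact le_rfl

lemma pS_dn (β : ℝ) (h : Vec 2) {n : ℕ} (x : Site 2) (s : Fin n → Step 2) (η : Env 2) :
    pS h s * dn ρ β x s η = wgt β h (sh 0 x η) s / (Phi h * Mb ρ β) ^ n := by
  unfold pS dn wgt
  rw [div_mul_div_comm, ← Real.exp_add, mul_pow]

lemma WE_univ (β : ℝ) (h : Vec 2) (n : ℕ) (x : Site 2) (η : Env 2) :
    WE ρ β h n x Set.univ η = Wn ρ β h n (sh 0 x η) := by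
  classical
  unfold WE Wn
  rw [Z_eq, Finset.sum_div]
  refine Finset.sum_congr rfl fun s _ => ?_
  rw [if_pos (Set.mem_univ _), pS_dn]

lemma WE_single (β : ℝ) (h : Vec 2) (n : ℕ) (x z : Site 2) (η : Env 2) :
    WE ρ β h n x {z} η = PP β h (sh 0 x η) n (z - x) / (Phi h * Mb ρ β) ^ n := by
  classical
  unfold WE PP ZT
  rw [Finset.sum_div]
  refine Finset.sum_congr rfl fun s _ => ?_
  by_cases hs : pos s n = z - x
  · have h1 : x + pos s n ∈ ({z} : Set (Site 2)) := by
      rw [hs]
      simp
    rw [if_pos h1, if_pos (show s ∈ {s : Fin n → Step 2 | pos s n = z - x} from hs), pS_dn]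
  · have h1 : x + pos s n ∉ ({z} : Set (Site 2)) := by
      intro h2
      apply hs
      have h3 : x + pos s n = z := h2
      rw [← h3]
      simp
    rw [if_neg h1, if_neg (show s ∉ {s : Fin n → Step 2 | pos s n = z - x} from hs), zero_div]

lemma WE_sum [IsProbabilityMeasure ρ] (hρ : EM ρ) (β : ℝ) (h : Vec 2) (n : ℕ) (x : Site 2) (B : Finset (Site 2))
    {E : Set (Site 2)} (hB : ∀ z ∈ B, z ∈ E) (η : Env 2) :
    ∑ z ∈ B, WE ρ β h n x {z} η ≤ WE ρ β h n x E η := by
  classical
  have h1 := Phi_pos61 (by norm_num) h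
  have h2 : 0 < Mb ρ β := integral_exp_pos (hρ β)
  unfold WE
  rw [Finset.sum_comm]
  refine Finset.sum_le_sum fun s _ => ?_
  have h3 : 0 ≤ pS h s * dn ρ β x s η := by
    unfold pS dn
    positivity
  simp only [Set.mem_singleton_iff]
  rw [Finset.sum_ite_eq]
  split_ifs with h4 h5 h5
  · exact le_rfl
  · exact absurd (hB _ h4) h5
  · exact h3
  · exact le_rfl

lemma measurable_WE (β : ℝ) (h : Vec 2) (n : ℕ) (x : Site 2) (E : Set (Site 2)) :
    Measurable (WE ρ β h n x E) := by
  classical
  unfold WE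
  refine Finset.measurable_sum _ fun s _ => ?_
  split_ifs
  · unfold dn energy
    refine Measurable.const_mul (Measurable.div_const (Real.measurable_exp.comp
      (Measurable.const_mul ?_ β)) _) _
    exact Finset.measurable_sum _ fun i _ => measurable_pi_apply _
  · exact measurable_const

/-- The split at the row `n`. -/
lemma Wn_split [IsProbabilityMeasure ρ] (hρ : EM ρ) (β : ℝ) (h : Vec 2) (n m : ℕ) (x : Site 2) (B : Finset (Site 2))
    (hB : ∀ y ∈ boxF 2 n, x + y ∈ B) (η : Env 2) :
    Wn ρ β h (n + m) (sh 0 x η) = ∑ z ∈ B, WE ρ β h n x {z} η * Wn ρ β h m (sh n z η) := by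
  classical
  have hb := base_pos hρ β h
  have h1 : Wn ρ β h (n + m) (sh 0 x η) =
      ∑ y ∈ boxF 2 n, WE ρ β h n x {x + y} η * Wn ρ β h m (sh n (x + y) η) := by
    unfold Wn
    rw [S98.Z_split, Finset.sum_div]
    refine Finset.sum_congr rfl fun y _ => ?_
    rw [WE_single, S98.sh_sh, pow_add, add_sub_cancel_left, Nat.zero_add, div_mul_div_comm]
  rw [h1]
  have h2 : ∑ y ∈ boxF 2 n, WE ρ β h n x {x + y} η * Wn ρ β h m (sh n (x + y) η) =
      ∑ z ∈ (boxF 2 n).image (fun y => x + y), WE ρ β h n x {z} η * Wn ρ β h m (sh n z η) := by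
    rw [Finset.sum_image]
    intro y _ y' _ hy
    exact add_left_cancel hy
  rw [h2]
  refine Finset.sum_subset ?_ ?_
  · intro z hz
    obtain ⟨y, hy, rfl⟩ := Finset.mem_image.1 hz
    exact hB y hy
  · intro z _ hz
    rw [WE_single, S98.PP_off, zero_div, zero_mul]
    intro hy
    exact hz (Finset.mem_image.2 ⟨z - x, hy, by simp⟩)

lemma WE_dep (β : ℝ) (h : Vec 2) (n : ℕ) (x z : Site 2) :
    DependsOn (WE ρ β h n x {z}) (Pa 2 n) := by
  intro η η' hη
  rw [WE_single, WE_single]
  have h1 : DependsOn (fun η : Env 2 => PP β h η n (z - x)) (Pa 2 n) := S98.PP_dep β h n (z - x)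
  have h2 : PP β h (sh 0 x η) n (z - x) = PP β h (sh 0 x η') n (z - x) :=
    h1 fun p hp => hη (p.1 + 0, p.2 + x) hp
  rw [h2]

lemma Wn_dep (β : ℝ) (h : Vec 2) (m n : ℕ) (z : Site 2) :
    DependsOn (fun η : Env 2 => Wn ρ β h m (sh n z η)) (Pa 2 n)ᶜ := by
  intro η η' hη
  have h1 : Z β h (sh n z η) m = Z β h (sh n z η') m := S98.Zsh_dep β h n m z hη
  show Z β h (sh n z η) m / _ = Z β h (sh n z η') m / _
  rw [h1]

/-- The index of the cell. -/
noncomputable def cy (n : ℕ) (b : Vec 2) (z : Site 2) : Site 2 :=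
  fun j => ⌊((z j : ℝ) - b j) / Real.sqrt n⌋

lemma mem_cell_cy {n : ℕ} (hn : 1 ≤ n) (b : Vec 2) (z : Site 2) :
    z ∈ cell n (b + Real.sqrt n • emb (cy n b z)) := by
  have hs : 0 < Real.sqrt n := Real.sqrt_pos.2 (by exact_mod_cast hn)
  intro j
  have h1 := Int.floor_le (((z j : ℝ) - b j) / Real.sqrt n)
  have h2 := Int.lt_floor_add_one (((z j : ℝ) - b j) / Real.sqrt n)
  rw [le_div_iff₀ hs] at h1
  rw [div_lt_iff₀ hs] at h2
  have h3 : (b + Real.sqrt n • emb (cy n b z)) j =
      b j + Real.sqrt n * (⌊((z j : ℝ) - b j) / Real.sqrt n⌋ : ℤ) := by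
    simp [emb, cy]
  rw [h3]
  constructor <;> nlinarith

end R39

open R39 in
/-- L10. -/
theorem recL39 {ρ : Measure ℝ} [IsProbabilityMeasure ρ] (hρ : EM ρ) {β : ℝ} (hO : OneL ρ β) :
    RecL ρ β := by
  classical
  intro h δ hδ
  obtain ⟨n, hn, hone⟩ := hO h δ hδ
  refine ⟨n, hn, ?_⟩
  have key : ∀ k : ℕ, ∀ (a : Vec 2) (S : Finset (Site 2)) (u : Site 2 → ℝ), (∀ x, 0 ≤ u x) →
      (∀ x ∈ S, x ∈ cell n a) → ∑ x ∈ S, u x ≤ 1 →
      ∫ η, Real.sqrt (∑ x ∈ S, u x * Wn ρ β h (k * n) (sh 0 x η)) ∂(law 2 ρ) ≤ δ ^ k := by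
    intro k
    induction k with
    | zero =>
      intro a S u hu _ hu1
      have h1 : ∀ η : Env 2, Real.sqrt (∑ x ∈ S, u x * Wn ρ β h (0 * n) (sh 0 x η)) ≤ 1 := by
        intro η
        have h2 : ∑ x ∈ S, u x * Wn ρ β h (0 * n) (sh 0 x η) = ∑ x ∈ S, u x := by
          refine Finset.sum_congr rfl fun x _ => ?_
          unfold Wn
          rw [Nat.zero_mul, Z_zero, pow_zero, div_one, mul_one]
        rw [h2]
        exact Real.sqrt_le_one.2 hu1
      have h3 := integral_mono_of_nonneg (μ := law 2 ρ)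
        (Eventually.of_forall fun η => Real.sqrt_nonneg _) (integrable_const (1 : ℝ))
        (Eventually.of_forall h1)
      simpa using h3
    | succ k ih =>
      intro a S u hu hS hu1
      set B : Finset (Site 2) := S.biUnion fun x => (boxF 2 n).image fun y => x + y with hB
      set b : Vec 2 := a + (n : ℝ) • vm h with hb
      set T : Finset (Site 2) := B.image (cy n b) with hT
      set U : Site 2 → Env 2 → ℝ := fun z η => ∑ x ∈ S, u x * WE ρ β h n x {z} η with hU
      set G : Site 2 → Env 2 → ℝ := fun y η =>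
        ∑ z ∈ B.filter (fun z => cy n b z = y), U z η * Wn ρ β h (k * n) (sh n z η) with hG
      set E : Site 2 → Set (Site 2) := fun y => cell n (b + Real.sqrt n • emb y) with hE
      have hU0 : ∀ z η, 0 ≤ U z η := fun z η =>
        Finset.sum_nonneg fun x _ => mul_nonneg (hu x) (WE_nonneg hρ β h n x _ η)
      have hG0 : ∀ y η, 0 ≤ G y η := fun y η =>
        Finset.sum_nonneg fun z _ => mul_nonneg (hU0 z η) (Wn_nonneg hρ β h _ _)
      have hsplit : ∀ η : Env 2, ∑ x ∈ S, u x * Wn ρ β h ((k + 1) * n) (sh 0 x η) =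
          ∑ y ∈ T, G y η := by
        intro η
        have h1 : ∀ x ∈ S, u x * Wn ρ β h ((k + 1) * n) (sh 0 x η) =
            ∑ z ∈ B, u x * (WE ρ β h n x {z} η * Wn ρ β h (k * n) (sh n z η)) := by
          intro x hx
          have h2 : (k + 1) * n = n + k * n := by ring
          rw [h2, Wn_split hρ β h n (k * n) x B, Finset.mul_sum]
          intro y hy
          exact Finset.mem_biUnion.2 ⟨x, hx, Finset.mem_image.2 ⟨y, hy, rfl⟩⟩
        rw [Finset.sum_congr rfl h1, Finset.sum_comm]
        have h3 : ∀ z ∈ B, ∑ x ∈ S, u x * (WE ρ β h n x {z} η * Wn ρ β h (k * n) (sh n z η)) =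
            U z η * Wn ρ β h (k * n) (sh n z η) := by
          intro z _
          rw [hU]
          simp only
          rw [Finset.sum_mul]
          exact Finset.sum_congr rfl fun x _ => by ring
        rw [Finset.sum_congr rfl h3]
        exact (Finset.sum_fiberwise_of_maps_to (fun z hz => Finset.mem_image_of_mem _ hz) _).symm
      have hmU : ∀ z, Measurable (U z) := fun z =>
        Finset.measurable_sum _ fun x _ => (measurable_WE β h n x _).const_mul _
      have hmG : ∀ y, Measurable (G y) := fun y =>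
        Finset.measurable_sum _ fun z _ =>
          (hmU z).mul ((measurable_Wn β h _).comp (measurable_sh n z))
      have hint : Integrable (fun η => ∑ x ∈ S, u x * Wn ρ β h ((k + 1) * n) (sh 0 x η))
          (law 2 ρ) :=
        integrable_finsetSum _ fun x _ => (integrable_Wn_sh hρ β h _ 0 x).const_mul _
      have hGi : ∀ y ∈ T, Integrable (fun η => Real.sqrt (G y η)) (law 2 ρ) := by
        intro y hy
        refine Integrable.mono' ((integrable_const (1 : ℝ)).add hint)
          (Real.continuous_sqrt.measurable.comp (hmG y)).aestronglyMeasurable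
          (Eventually.of_forall fun η => ?_)
        rw [Real.norm_eq_abs, abs_of_nonneg (Real.sqrt_nonneg _)]
        have h1 : G y η ≤ ∑ y ∈ T, G y η :=
          Finset.single_le_sum (f := fun y => G y η) (fun y _ => hG0 y η) hy
        rw [← hsplit η] at h1
        have h2 := sqrt_le_one_add (hG0 y η)
        simp only [Pi.add_apply]
        linarith
      have hcell : ∀ y, ∀ z ∈ B.filter (fun z => cy n b z = y), z ∈ E y := by
        intro y z hz
        have h1 := mem_cell_cy hn b z
        rw [(Finset.mem_filter.1 hz).2] at h1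
        exact h1
      have hUE : ∀ y η, ∑ z ∈ B.filter (fun z => cy n b z = y), U z η ≤
          ∑ x ∈ S, u x * WE ρ β h n x (E y) η := by
        intro y η
        rw [hU]
        simp only
        rw [Finset.sum_comm]
        refine Finset.sum_le_sum fun x _ => ?_
        rw [← Finset.mul_sum]
        exact mul_le_mul_of_nonneg_left (WE_sum hρ β h n x _ (hcell y) η) (hu x)
      have hEi : ∀ y, Integrable (fun η => Real.sqrt (∑ x ∈ S, u x * WE ρ β h n x (E y) η))
          (law 2 ρ) := by
        intro y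
        have h0 : Integrable (fun η => ∑ x ∈ S, u x * Wn ρ β h n (sh 0 x η)) (law 2 ρ) :=
          integrable_finsetSum _ fun x _ => (integrable_Wn_sh hρ β h _ 0 x).const_mul _
        refine Integrable.mono' ((integrable_const (1 : ℝ)).add h0)
          (Real.continuous_sqrt.measurable.comp (Finset.measurable_sum _ fun x _ =>
            (measurable_WE β h n x _).const_mul _)).aestronglyMeasurable
          (Eventually.of_forall fun η => ?_)
        rw [Real.norm_eq_abs, abs_of_nonneg (Real.sqrt_nonneg _)]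
        have h1 : 0 ≤ ∑ x ∈ S, u x * WE ρ β h n x (E y) η :=
          Finset.sum_nonneg fun x _ => mul_nonneg (hu x) (WE_nonneg hρ β h n x _ η)
        have h2 : ∑ x ∈ S, u x * WE ρ β h n x (E y) η ≤
            ∑ x ∈ S, u x * Wn ρ β h n (sh 0 x η) := by
          refine Finset.sum_le_sum fun x _ => mul_le_mul_of_nonneg_left ?_ (hu x)
          rw [← WE_univ]
          exact WE_mono hρ β h n x (Set.subset_univ _) η
        have h3 := sqrt_le_one_add h1
        simp only [Pi.add_apply]
        linarith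
      -- one cell
      have hcellb : ∀ y ∈ T, ∫ η, Real.sqrt (G y η) ∂(law 2 ρ) ≤
          δ ^ k * ∫ η, Real.sqrt (∑ x ∈ S, u x * WE ρ β h n x (E y) η) ∂(law 2 ρ) := by
        intro y hy
        rw [← int_cE (Pa 2 n) (hGi y hy), ← integral_const_mul]
        refine integral_mono_of_nonneg
          (Eventually.of_forall fun η => cE_nonneg (fun _ => Real.sqrt_nonneg _) _ _)
          ((hEi y).const_mul _) (Eventually.of_forall fun η => ?_)
        simp only
        set M : ℝ := ∑ z ∈ B.filter (fun z => cy n b z = y), U z η with hM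
        have hM0 : 0 ≤ M := Finset.sum_nonneg fun z _ => hU0 z η
        have hUd : ∀ ξ z, U z (spl (Pa 2 n) η ξ) = U z η := by
          intro ξ z
          rw [hU]
          simp only
          refine Finset.sum_congr rfl fun x _ => ?_
          have h5 : WE ρ β h n x {z} (spl (Pa 2 n) η ξ) = WE ρ β h n x {z} η :=
            WE_dep β h n x z fun p hp => spl_mem _ _ hp
          rw [h5]
        have hWd : ∀ ξ z, Wn ρ β h (k * n) (sh n z (spl (Pa 2 n) η ξ)) =
            Wn ρ β h (k * n) (sh n z ξ) := by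
          intro ξ z
          exact Wn_dep β h (k * n) n z (x := spl (Pa 2 n) η ξ) (y := ξ)
            fun p hp => spl_not_mem _ _ hp
        have h1 : cE ρ (Pa 2 n) (fun η => Real.sqrt (G y η)) η =
            ∫ ξ, Real.sqrt (∑ z ∈ B.filter (fun z => cy n b z = y),
              U z η * Wn ρ β h (k * n) (sh n z ξ)) ∂(law 2 ρ) := by
          unfold cE
          refine integral_congr_ae (Eventually.of_forall fun ξ => ?_)
          simp only [hG]
          congr 1
          refine Finset.sum_congr rfl fun z _ => ?_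
          rw [hUd, hWd]
        have h2 : ∫ ξ, Real.sqrt (∑ z ∈ B.filter (fun z => cy n b z = y),
            U z η * Wn ρ β h (k * n) (sh n z ξ)) ∂(law 2 ρ) ≤ Real.sqrt M * δ ^ k := by
          rcases hM0.eq_or_lt with h0 | h0
          · have h3 : ∀ z ∈ B.filter (fun z => cy n b z = y), U z η = 0 :=
              (Finset.sum_eq_zero_iff_of_nonneg (fun z _ => hU0 z η)).1 (hM ▸ h0.symm)
            have h4 : ∀ ξ : Env 2, Real.sqrt (∑ z ∈ B.filter (fun z => cy n b z = y),
                U z η * Wn ρ β h (k * n) (sh n z ξ)) = 0 := by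
              intro ξ
              rw [Finset.sum_eq_zero fun z hz => by rw [h3 z hz, zero_mul], Real.sqrt_zero]
            simp only [h4, integral_zero]
            positivity
          · have h3 := ih (b + Real.sqrt n • emb y) (B.filter (fun z => cy n b z = y))
              (fun z => U z η / M) (fun z => div_nonneg (hU0 z η) hM0) (hcell y)
              (by rw [← Finset.sum_div, ← hM, div_self h0.ne'])
            have h4 : ∀ ξ : Env 2, Real.sqrt (∑ z ∈ B.filter (fun z => cy n b z = y),
                U z η * Wn ρ β h (k * n) (sh n z ξ)) = Real.sqrt M *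
                (fun ζ : Env 2 => Real.sqrt (∑ z ∈ B.filter (fun z => cy n b z = y),
                  U z η / M * Wn ρ β h (k * n) (sh 0 z ζ))) (sh n 0 ξ) := by
              intro ξ
              simp only
              rw [← Real.sqrt_mul hM0, Finset.mul_sum]
              congr 1
              refine Finset.sum_congr rfl fun z _ => ?_
              rw [S98.sh_sh, Nat.add_zero, zero_add]
              field_simp
            simp only [h4]
            rw [integral_const_mul]
            refine mul_le_mul_of_nonneg_left ?_ (Real.sqrt_nonneg _)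
            refine le_trans (le_of_eq ?_) h3
            exact integral_sh (ρ := ρ) n (0 : Site 2)
              (F := fun ζ : Env 2 => Real.sqrt (∑ z ∈ B.filter (fun z => cy n b z = y),
                U z η / M * Wn ρ β h (k * n) (sh 0 z ζ)))
              (Real.continuous_sqrt.measurable.comp (Finset.measurable_sum _ fun z _ =>
                ((measurable_Wn β h _).comp (measurable_sh 0 z)).const_mul _))
        rw [h1]
        refine h2.trans ?_
        rw [mul_comm]
        exact mul_le_mul_of_nonneg_left (Real.sqrt_le_sqrt (hUE y η)) (pow_nonneg hδ.le k)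
      have hT1 := hone a S u hu hS hu1 T
      calc ∫ η, Real.sqrt (∑ x ∈ S, u x * Wn ρ β h ((k + 1) * n) (sh 0 x η)) ∂(law 2 ρ)
          ≤ ∫ η, ∑ y ∈ T, Real.sqrt (G y η) ∂(law 2 ρ) := by
            refine integral_mono_of_nonneg (Eventually.of_forall fun η => Real.sqrt_nonneg _)
              (integrable_finsetSum _ hGi) (Eventually.of_forall fun η => ?_)
            simp only
            rw [hsplit η]
            exact sqrt_sum_le _ _ fun y _ => hG0 y η
        _ = ∑ y ∈ T, ∫ η, Real.sqrt (G y η) ∂(law 2 ρ) := integral_finsetSum _ hGi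
        _ ≤ ∑ y ∈ T, δ ^ k *
              ∫ η, Real.sqrt (∑ x ∈ S, u x * WE ρ β h n x (E y) η) ∂(law 2 ρ) :=
            Finset.sum_le_sum hcellb
        _ ≤ δ ^ k * δ := by
            rw [← Finset.mul_sum]
            exact mul_le_mul_of_nonneg_left hT1 (pow_nonneg hδ.le k)
        _ = δ ^ (k + 1) := (pow_succ δ k).symm
  intro k
  have h1 := key k 0 {0} (fun _ => 1) (fun _ => zero_le_one) (by
    intro x hx
    rw [Finset.mem_singleton] at hx
    subst hx
    intro j
    have hs : 0 < Real.sqrt n := Real.sqrt_pos.2 (by exact_mod_cast hn)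
    simp [hs]) (by simp)
  simp only [Finset.sum_singleton, one_mul] at h1
  refine le_trans (le_of_eq ?_) h1
  refine integral_congr_ae (Eventually.of_forall fun η => ?_)
  simp only
  unfold Wn
  have h2 : sh 0 (0 : Site 2) η = η := by
    funext p
    simp [sh]
  rw [h2]

end Pool.Agent.W_7d29a1_L2
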